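import Mathlib
set_option autoImplicit false
open Set Topology Filter Metric

namespace Pool.Agent.Helper292.SC

variable {M : Type} [TopologicalSpace M]

/-- the remainder of the Stone-Cech compactification -/
abbrev Rem (M : Type) [TopologicalSpace M] : Set (StoneCech M) :=
  (Set.range (stoneCechUnit : M → StoneCech M))ᶜ

abbrev un : M → StoneCech M := stoneCechUnit

lemma closure_image_compact [T4Space M] {s t : Set M} (hst : s ⊆ t) (ht : IsCompact t) :
    closure ((un : M → StoneCech M) '' s) ⊆ un '' t := by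
  have h1 : IsClosed ((un : M → StoneCech M) '' t) :=
    (ht.image continuous_stoneCechUnit).isClosed
  exact closure_minimal (image_mono hst) h1

lemma isOpen_range_unit [T4Space M] [LocallyCompactSpace M] :
    IsOpen (Set.range (stoneCechUnit : M → StoneCech M)) := by
  have hE : IsEmbedding (stoneCechUnit : M → StoneCech M) := isEmbedding_stoneCechUnit
  rw [isOpen_iff_mem_nhds]
  rintro _ ⟨x, rfl⟩
  obtain ⟨N, hN, hxN⟩ := exists_compact_mem_nhds x
  obtain ⟨V, hV, hVN⟩ := hE.isInducing.isOpen_iff.1 (isOpen_interior (s := N))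
  have hxV : stoneCechUnit x ∈ V := by
    have : x ∈ stoneCechUnit ⁻¹' V := by
      rw [hVN]; exact mem_interior_iff_mem_nhds.2 hxN
    exact this
  refine mem_of_superset (hV.mem_nhds hxV) ?_
  intro z hz
  have hz2 : z ∈ closure (V ∩ Set.range (stoneCechUnit : M → StoneCech M)) :=
    (denseRange_stoneCechUnit (α := M)).open_subset_closure_inter hV hz
  have h3 : V ∩ Set.range (stoneCechUnit : M → StoneCech M) ⊆ stoneCechUnit '' (interior N) := by
    rintro _ ⟨hm, m, rfl⟩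
    refine ⟨m, ?_, rfl⟩
    rw [← hVN]; exact hm
  have h4 := closure_image_compact (interior_subset (s := N)) hN
  have h5 := h4 (closure_mono h3 hz2)
  obtain ⟨m, _, hm⟩ := h5
  exact ⟨m, hm⟩

lemma isCompact_rem [T4Space M] [LocallyCompactSpace M] : IsCompact (Rem M) :=
  (isOpen_range_unit.isClosed_compl).isCompact

/-- disjoint closed sets of a normal space have disjoint closures. -/
lemma disjoint_closures [T4Space M] {s t : Set M} (hs : IsClosed s) (ht : IsClosed t)
    (hst : Disjoint s t) :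
    Disjoint (closure ((un : M → StoneCech M) '' s)) (closure (un '' t)) := by
  obtain ⟨f, hf0, hf1, hf⟩ := exists_continuous_zero_one_of_isClosed hs ht hst
  let g : M → Set.Icc (0:ℝ) 1 := fun m => ⟨f m, hf m⟩
  have hg : Continuous g := by fun_prop
  have hc := continuous_stoneCechExtend hg
  have h1 : closure ((un : M → StoneCech M) '' s) ⊆ (stoneCechExtend hg) ⁻¹' {⟨0, by simp⟩} := by
    refine closure_minimal ?_ (isClosed_singleton.preimage hc)
    rintro _ ⟨m, hm, rfl⟩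
    have : f m = 0 := hf0 hm
    simp [un, g, this]
  have h2 : closure ((un : M → StoneCech M) '' t) ⊆ (stoneCechExtend hg) ⁻¹' {⟨1, by simp⟩} := by
    refine closure_minimal ?_ (isClosed_singleton.preimage hc)
    rintro _ ⟨m, hm, rfl⟩
    have : f m = 1 := hf1 hm
    simp [un, g, this]
  rw [Set.disjoint_left]
  intro z hz1 hz2
  have e1 := h1 hz1
  have e2 := h2 hz2
  simp only [mem_preimage, mem_singleton_iff] at e1 e2
  rw [e1] at e2
  have := congrArg Subtype.val e2
  norm_num at this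

/-- closed set whose closure misses the remainder is compact. -/
lemma isCompact_of_closure [T4Space M] {s : Set M} (hs : IsClosed s)
    (h : closure ((un : M → StoneCech M) '' s) ∩ Rem M = ∅) : IsCompact s := by
  have hE : IsEmbedding (stoneCechUnit : M → StoneCech M) := isEmbedding_stoneCechUnit
  have h1 : closure ((un : M → StoneCech M) '' s) = un '' s := by
    refine Subset.antisymm ?_ subset_closure
    intro z hz
    have hzr : z ∈ Set.range (stoneCechUnit : M → StoneCech M) := by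
      by_contra hcon
      have : z ∈ closure ((un : M → StoneCech M) '' s) ∩ Rem M := ⟨hz, hcon⟩
      rw [h] at this; exact this
    obtain ⟨m, rfl⟩ := hzr
    have h2 : m ∈ closure s := by
      rw [hE.isInducing.closure_eq_preimage_closure_image]; exact hz
    rw [hs.closure_eq] at h2
    exact ⟨m, h2, rfl⟩
  rw [hE.isInducing.isCompact_iff]
  have : IsClosed ((un : M → StoneCech M) '' s) := by rw [← h1]; exact isClosed_closure
  exact this.isCompact

lemma rem_nonempty [T4Space M] [NoncompactSpace M] : (Rem M).Nonempty := by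
  by_contra h
  rw [Set.not_nonempty_iff_eq_empty] at h
  apply noncompact_univ M
  apply isCompact_of_closure isClosed_univ
  rw [h]; simp

/-- extension of the inclusion in the one-point compactification. -/
noncomputable def toOne [T4Space M] [LocallyCompactSpace M] : StoneCech M → OnePoint M :=
  stoneCechExtend (OnePoint.continuous_coe (X := M))

lemma toOne_cont [T4Space M] [LocallyCompactSpace M] : Continuous (toOne (M := M)) :=
  continuous_stoneCechExtend _

lemma toOne_unit [T4Space M] [LocallyCompactSpace M] (m : M) :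
    toOne (stoneCechUnit m) = (m : OnePoint M) :=
  stoneCechExtend_stoneCechUnit _ m

lemma toOne_rem [T4Space M] [LocallyCompactSpace M] {z : StoneCech M} (hz : z ∈ Rem M) :
    toOne z = OnePoint.infty := by
  by_contra hne
  obtain ⟨m, hm⟩ := OnePoint.ne_infty_iff_exists.1 hne
  obtain ⟨N, hN, hxN⟩ := exists_compact_mem_nhds m
  have hop : IsOpen (((↑) : M → OnePoint M) '' (interior N)) :=
    OnePoint.isOpenMap_coe _ isOpen_interior
  have hV : IsOpen (toOne ⁻¹' (((↑) : M → OnePoint M) '' (interior N))) := hop.preimage toOne_cont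
  have hzV : z ∈ toOne ⁻¹' (((↑) : M → OnePoint M) '' (interior N)) :=
    ⟨m, mem_interior_iff_mem_nhds.2 hxN, hm⟩
  have hz2 := (denseRange_stoneCechUnit (α := M)).open_subset_closure_inter hV hzV
  have h3 : (toOne ⁻¹' (((↑) : M → OnePoint M) '' (interior N))) ∩
      Set.range (stoneCechUnit : M → StoneCech M) ⊆ stoneCechUnit '' (interior N) := by
    rintro _ ⟨hm, m, rfl⟩
    refine ⟨m, ?_, rfl⟩
    obtain ⟨m', hm', he⟩ := hm
    rw [toOne_unit] at he
    rw [← OnePoint.coe_injective he]; exact hm'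
  have h5 := closure_image_compact (interior_subset (s := N)) hN (closure_mono h3 hz2)
  obtain ⟨m, _, hm⟩ := h5
  exact hz ⟨m, hm⟩


/-- the space of pairs used as two-point compactification. -/
lemma two_point [T4Space M] [LocallyCompactSpace M]
    {K1 K2 : Set (StoneCech M)} (h1 : IsClosed K1) (h2 : IsClosed K2) (hd : Disjoint K1 K2)
    (hu : Rem M = K1 ∪ K2) (hn1 : K1.Nonempty) (hn2 : K2.Nonempty) :
    ∃ (Y : Type) (τ : TopologicalSpace Y), CompactSpace Y ∧ T2Space Y ∧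
          ∃ f : M → Y, Topology.IsEmbedding f ∧ DenseRange f ∧ (Set.range f)ᶜ.ncard = 2 := by
  obtain ⟨g, hg0, hg1, hgI⟩ := exists_continuous_zero_one_of_isClosed h1 h2 hd
  let F : StoneCech M → ℝ × OnePoint M := fun z => (g z, toOne z)
  have hF : Continuous F := g.continuous.prodMk toOne_cont
  let Y : Type := Set.range F
  have hY : IsCompact (Set.range F) := isCompact_range hF
  let f : M → Y := fun m => ⟨F (stoneCechUnit m), ⟨_, rfl⟩⟩
  have hfc : Continuous f := (hF.comp continuous_stoneCechUnit).subtype_mk _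
  refine ⟨Y, inferInstance, isCompact_iff_compactSpace.1 hY, inferInstance, f, ?_, ?_, ?_⟩
  · let pr : Y → OnePoint M := fun y => y.1.2
    have hpr : Continuous pr := by fun_prop
    refine Topology.IsEmbedding.of_comp hfc hpr ?_
    have : pr ∘ f = ((↑) : M → OnePoint M) := by
      funext m
      exact toOne_unit m
    rw [this]
    exact OnePoint.isOpenEmbedding_coe.isEmbedding
  · have : f = (Set.rangeFactorization F) ∘ stoneCechUnit := rfl
    rw [this]
    exact (Set.rangeFactorization_surjective.denseRange).comp denseRange_stoneCechUnit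
      (by exact hF.subtype_mk _)
  · obtain ⟨z1, hz1⟩ := hn1
    obtain ⟨z2, hz2⟩ := hn2
    have hr1 : z1 ∈ Rem M := by rw [hu]; exact Or.inl hz1
    have hr2 : z2 ∈ Rem M := by rw [hu]; exact Or.inr hz2
    have key : (Set.range f)ᶜ = {⟨F z1, ⟨_, rfl⟩⟩, ⟨F z2, ⟨_, rfl⟩⟩} := by
      ext ⟨y, z, hz⟩
      simp only [mem_compl_iff, mem_range, not_exists, mem_insert_iff, mem_singleton_iff]
      constructor
      · intro h
        have hzR : z ∈ Rem M := by
          rintro ⟨m, rfl⟩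
          exact h m (Subtype.ext hz)
        have hcase := hzR
        rw [hu] at hcase
        rcases hcase with hc | hc
        · left
          apply Subtype.ext
          refine hz.symm.trans ?_
          change (g z, toOne z) = (g z1, toOne z1)
          rw [toOne_rem hzR, toOne_rem hr1, hg0 hc, hg0 hz1]
          rfl
        · right
          apply Subtype.ext
          refine hz.symm.trans ?_
          change (g z, toOne z) = (g z2, toOne z2)
          rw [toOne_rem hzR, toOne_rem hr2, hg1 hc, hg1 hz2]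
          rfl
      · rintro (h | h) m hm
        · rw [h] at hm
          have := congrArg (fun y : Y => y.1.2) hm
          change toOne (stoneCechUnit m) = toOne z1 at this
          rw [toOne_unit, toOne_rem hr1] at this
          exact OnePoint.coe_ne_infty _ this
        · rw [h] at hm
          have := congrArg (fun y : Y => y.1.2) hm
          change toOne (stoneCechUnit m) = toOne z2 at this
          rw [toOne_unit, toOne_rem hr2] at this
          exact OnePoint.coe_ne_infty _ this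
    rw [key]
    apply Set.ncard_pair
    intro h
    have := congrArg (fun y : Y => y.1.1) h
    change g z1 = g z2 at this
    rw [hg0 hz1, hg1 hz2] at this
    simp at this

lemma rem_connected [T4Space M] [LocallyCompactSpace M] [NoncompactSpace M]
    (h : ¬ ∃ (Y : Type) (τ : TopologicalSpace Y), CompactSpace Y ∧ T2Space Y ∧
          ∃ f : M → Y, Topology.IsEmbedding f ∧ DenseRange f ∧ (Set.range f)ᶜ.ncard = 2) :
    IsConnected (Rem M) := by
  refine ⟨rem_nonempty, ?_⟩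
  rw [isPreconnected_iff_subset_of_disjoint_closed]
  intro u v hu hv huv hd
  by_contra hcon
  push Not at hcon
  obtain ⟨hc1, hc2⟩ := hcon
  apply h
  have hR : IsClosed (Rem M) := isCompact_rem.isClosed
  refine two_point (K1 := Rem M ∩ u) (K2 := Rem M ∩ v) (hR.inter hu) (hR.inter hv) ?_ ?_ ?_ ?_
  · rw [Set.disjoint_left]
    rintro z ⟨hz, hzu⟩ ⟨_, hzv⟩
    have : z ∈ Rem M ∩ (u ∩ v) := ⟨hz, hzu, hzv⟩
    rw [hd] at this
    exact this
  · rw [← Set.inter_union_distrib_left]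
    exact (Set.inter_eq_left.2 huv).symm
  · obtain ⟨z, hz, hzv⟩ := Set.not_subset.1 hc2
    exact ⟨z, hz, (huv hz).resolve_right hzv⟩
  · obtain ⟨z, hz, hzv⟩ := Set.not_subset.1 hc1
    exact ⟨z, hz, (huv hz).resolve_left hzv⟩


lemma main_connected [T4Space M] [LocallyCompactSpace M]
    (hR : IsPreconnected (Rem M)) {ι : Type} (O Q : ι → Set M)
    (hlf : LocallyFinite Q) (hdis : ∀ i j, i ≠ j → Disjoint (Q i) (Q j))
    (hO : ∀ i, IsOpen (O i)) (hOQ : ∀ i, O i ⊆ Q i) (hQ : ∀ i, IsCompact (Q i))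
    (hS : ∀ i, IsPreconnected (Q i \ O i)) :
    IsPreconnected (closure ((un : M → StoneCech M) '' (⋃ i, O i)ᶜ) ∩ Rem M) := by
  set C : Set M := (⋃ i, O i)ᶜ with hC
  have hCcl : IsClosed C := (isOpen_iUnion hO).isClosed_compl
  have hCO : ∀ i m, m ∈ C → m ∉ O i := by
    intro i m hm hmO
    exact hm (mem_iUnion.2 ⟨i, hmO⟩)
  have hRcl : IsClosed (Rem M) := isCompact_rem.isClosed
  rw [isPreconnected_iff_subset_of_disjoint_closed]
  intro u v hu hv huv hd
  by_contra hcon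
  push Not at hcon
  obtain ⟨hc1, hc2⟩ := hcon
  set K : Set (StoneCech M) := closure ((un : M → StoneCech M) '' C) ∩ Rem M with hK
  have hKcl : IsClosed K := isClosed_closure.inter hRcl
  obtain ⟨z2, hz2K, hz2u⟩ := Set.not_subset.1 hc1
  obtain ⟨z1, hz1K, hz1v⟩ := Set.not_subset.1 hc2
  have hz1u : z1 ∈ u := (huv hz1K).resolve_right hz1v
  have hz2v : z2 ∈ v := (huv hz2K).resolve_left hz2u
  have hdK : Disjoint (K ∩ u) (K ∩ v) := by
    rw [Set.disjoint_left]
    rintro z ⟨hz, hzu⟩ ⟨_, hzv⟩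
    have : z ∈ K ∩ (u ∩ v) := ⟨hz, hzu, hzv⟩
    rw [hd] at this
    exact this
  obtain ⟨h, h0, h1, hI⟩ := exists_continuous_zero_one_of_isClosed (hKcl.inter hu)
    (hKcl.inter hv) hdK
  let g : M → ℝ := fun m => h (stoneCechUnit m)
  have hg : Continuous g := h.continuous.comp continuous_stoneCechUnit
  -- the middle part is compact
  let L0 : Set M := C ∩ {m | 1/3 ≤ g m ∧ g m ≤ 2/3}
  have hL0cl : IsClosed L0 := by
    refine hCcl.inter ?_
    exact (isClosed_le continuous_const hg).inter (isClosed_le hg continuous_const)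
  have hL0 : IsCompact L0 := by
    refine isCompact_of_closure hL0cl ?_
    rw [Set.eq_empty_iff_forall_notMem]
    rintro z ⟨hz, hzR⟩
    have hzC : z ∈ closure ((un : M → StoneCech M) '' C) :=
      closure_mono (image_mono inter_subset_left) hz
    have hzm : z ∈ {z | 1/3 ≤ h z ∧ h z ≤ 2/3} := by
      have hcl : IsClosed {z | 1/3 ≤ h z ∧ h z ≤ 2/3} :=
        (isClosed_le continuous_const h.continuous).inter
          (isClosed_le h.continuous continuous_const)
      refine closure_minimal ?_ hcl hz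
      rintro _ ⟨m, ⟨_, hm⟩, rfl⟩
      exact hm
    have hzK : z ∈ K := ⟨hzC, hzR⟩
    rcases huv hzK with hh | hh
    · have := h0 ⟨hzK, hh⟩
      simp only [Pi.zero_apply] at this
      have h3 := hzm.1
      rw [this] at h3; norm_num at h3
    · have := h1 ⟨hzK, hh⟩
      simp only [Pi.one_apply] at this
      have h3 := hzm.2
      rw [this] at h3; norm_num at h3
  let I0 : Set ι := {i | (Q i ∩ L0).Nonempty}
  have hI0 : I0.Finite := hlf.finite_nonempty_inter_compact hL0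
  have hdich : ∀ i, i ∉ I0 → (∀ m ∈ Q i \ O i, g m < 1/3) ∨ (∀ m ∈ Q i \ O i, 2/3 < g m) := by
    intro i hi
    have hS' := hS i
    have hsub : ∀ m ∈ Q i \ O i, g m < 1/3 ∨ 2/3 < g m := by
      intro m hm
      by_contra hcc
      push Not at hcc
      apply hi
      refine ⟨m, hm.1, ?_, hcc.1, hcc.2⟩
      intro hmU
      obtain ⟨j, hj⟩ := mem_iUnion.1 hmU
      by_cases hij : i = j
      · subst hij; exact hm.2 hj
      · exact Set.disjoint_left.1 (hdis i j hij) hm.1 (hOQ j hj)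
    have := hS'.subset_or_subset (isOpen_lt hg continuous_const)
      (isOpen_lt continuous_const hg) (u := {m | g m < 1/3}) (v := {m | 2/3 < g m}) (by
        rw [Set.disjoint_left]
        intro m hm1 hm2
        simp only [mem_ofPred_eq] at hm1 hm2
        linarith) (by
        intro m hm
        exact hsub m hm)
    exact this
  let I1 : Set ι := {i | i ∉ I0 ∧ (∀ m ∈ Q i \ O i, g m < 1/3)}
  let I2 : Set ι := {i | i ∉ I0 ∧ ¬ (∀ m ∈ Q i \ O i, g m < 1/3)}
  have hI2 : ∀ i ∈ I2, ∀ m ∈ Q i \ O i, 2/3 < g m := by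
    intro i hi
    exact (hdich i hi.1).resolve_left hi.2
  let C1 : Set M := (C ∩ {m | g m ≤ 1/3}) ∪ ⋃ i : I1, Q i.1
  let C2 : Set M := (C ∩ {m | 2/3 ≤ g m}) ∪ ⋃ i : I2, Q i.1
  have hC1 : IsClosed C1 := by
    refine (hCcl.inter (isClosed_le hg continuous_const)).union ?_
    exact (hlf.comp_injective Subtype.val_injective).isClosed_iUnion
      (fun i => (hQ i.1).isClosed)
  have hC2 : IsClosed C2 := by
    refine (hCcl.inter (isClosed_le continuous_const hg)).union ?_
    exact (hlf.comp_injective Subtype.val_injective).isClosed_iUnion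
      (fun i => (hQ i.1).isClosed)
  have hC12 : Disjoint C1 C2 := by
    rw [Set.disjoint_left]
    rintro m (⟨hmC, hm⟩ | hm) (⟨hmC', hm'⟩ | hm')
    · simp only [mem_ofPred_eq] at hm hm'
      linarith
    · obtain ⟨i, hi⟩ := mem_iUnion.1 hm'
      have := hI2 i.1 i.2 m ⟨hi, hCO _ _ hmC⟩
      simp only [mem_ofPred_eq] at hm
      linarith
    · obtain ⟨i, hi⟩ := mem_iUnion.1 hm
      have := i.2.2 m ⟨hi, hCO _ _ hmC'⟩
      simp only [mem_ofPred_eq] at hm'
      linarith
    · obtain ⟨i, hi⟩ := mem_iUnion.1 hm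
      obtain ⟨j, hj⟩ := mem_iUnion.1 hm'
      by_cases hij : i.1 = j.1
      · apply j.2.2
        rw [← hij]
        exact i.2.2
      · exact Set.disjoint_left.1 (hdis _ _ hij) hi hj
  let L : Set M := L0 ∪ ⋃ i ∈ I0, Q i
  have hL : IsCompact L := hL0.union (hI0.isCompact_biUnion (fun i _ => hQ i))
  have hcov : ∀ m : M, m ∈ C1 ∪ C2 ∪ L := by
    intro m
    by_cases hmC : m ∈ C
    · rcases le_or_gt (g m) (1/3) with hm | hm
      · exact Or.inl (Or.inl (Or.inl ⟨hmC, hm⟩))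
      · rcases le_or_gt (2/3) (g m) with hm' | hm'
        · exact Or.inl (Or.inr (Or.inl ⟨hmC, hm'⟩))
        · exact Or.inr (Or.inl ⟨hmC, hm.le, hm'.le⟩)
    · have : m ∈ ⋃ i, O i := by
        by_contra hh; exact hmC hh
      obtain ⟨i, hi⟩ := mem_iUnion.1 this
      by_cases hi0 : i ∈ I0
      · exact Or.inr (Or.inr (mem_biUnion hi0 (hOQ i hi)))
      · by_cases hi1 : (∀ m ∈ Q i \ O i, g m < 1/3)
        · exact Or.inl (Or.inl (Or.inr (mem_iUnion.2 ⟨⟨i, hi0, hi1⟩, hOQ i hi⟩)))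
        · exact Or.inl (Or.inr (Or.inr (mem_iUnion.2 ⟨⟨i, hi0, hi1⟩, hOQ i hi⟩)))
  have hRsub : Rem M ⊆ closure ((un : M → StoneCech M) '' C1) ∪ closure (un '' C2) := by
    intro z hz
    have hz1 : z ∈ closure (Set.range (stoneCechUnit : M → StoneCech M)) :=
      denseRange_stoneCechUnit z
    have hr : Set.range (stoneCechUnit : M → StoneCech M) = un '' C1 ∪ un '' C2 ∪ un '' L := by
      rw [← image_union, ← image_union]
      ext w
      constructor
      · rintro ⟨m, rfl⟩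
        exact ⟨m, hcov m, rfl⟩
      · rintro ⟨m, _, rfl⟩
        exact ⟨m, rfl⟩
    rw [hr, closure_union, closure_union] at hz1
    rcases hz1 with hz1 | hz1
    · exact hz1
    · exfalso
      obtain ⟨m, _, hm⟩ := closure_image_compact (Subset.refl L) hL hz1
      exact hz ⟨m, hm⟩
  have hdcl := disjoint_closures hC1 hC2 hC12
  have hz1C1 : z1 ∈ closure ((un : M → StoneCech M) '' C1) := by
    have hz := hz1K.1
    have hsp : (un : M → StoneCech M) '' C ⊆
        un '' (C ∩ {m | g m ≤ 1/3}) ∪ un '' (C ∩ {m | 1/3 ≤ g m}) := by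
      rintro _ ⟨m, hm, rfl⟩
      rcases le_total (g m) (1/3) with hh | hh
      · exact Or.inl ⟨m, ⟨hm, hh⟩, rfl⟩
      · exact Or.inr ⟨m, ⟨hm, hh⟩, rfl⟩
    have hz' := closure_mono hsp hz
    rw [closure_union] at hz'
    rcases hz' with hz' | hz'
    · exact closure_mono (image_mono subset_union_left) hz'
    · exfalso
      have : z1 ∈ {z | 1/3 ≤ h z} := by
        refine closure_minimal ?_ (isClosed_le continuous_const h.continuous) hz'
        rintro _ ⟨m, ⟨_, hm⟩, rfl⟩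
        exact hm
      have h3 := h0 ⟨hz1K, hz1u⟩
      simp only [Pi.zero_apply] at h3
      simp only [mem_ofPred_eq, h3] at this
      norm_num at this
  have hz2C2 : z2 ∈ closure ((un : M → StoneCech M) '' C2) := by
    have hz := hz2K.1
    have hsp : (un : M → StoneCech M) '' C ⊆
        un '' (C ∩ {m | 2/3 ≤ g m}) ∪ un '' (C ∩ {m | g m ≤ 2/3}) := by
      rintro _ ⟨m, hm, rfl⟩
      rcases le_total (2/3) (g m) with hh | hh
      · exact Or.inl ⟨m, ⟨hm, hh⟩, rfl⟩
      · exact Or.inr ⟨m, ⟨hm, hh⟩, rfl⟩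
    have hz' := closure_mono hsp hz
    rw [closure_union] at hz'
    rcases hz' with hz' | hz'
    · exact closure_mono (image_mono subset_union_left) hz'
    · exfalso
      have : z2 ∈ {z | h z ≤ 2/3} := by
        refine closure_minimal ?_ (isClosed_le h.continuous continuous_const) hz'
        rintro _ ⟨m, ⟨_, hm⟩, rfl⟩
        exact hm
      have h3 := h1 ⟨hz2K, hz2v⟩
      simp only [Pi.one_apply] at h3
      simp only [mem_ofPred_eq, h3] at this
      norm_num at this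
  have hfin := (isPreconnected_iff_subset_of_disjoint_closed.1 hR) _ _ isClosed_closure
    isClosed_closure hRsub (by
      rw [hdcl.inter_eq, inter_empty])
  rcases hfin with hfin | hfin
  · exact Set.disjoint_left.1 hdcl (hfin hz2K.2) hz2C2
  · exact Set.disjoint_left.1 hdcl hz1C1 (hfin hz1K.2)


/-- `D` is the union of the inner parts of a locally finite disjoint family of
cells with connected boundary shells, each cell missing `A` or missing `B`. -/
def Cells (A B W D : Set M) : Prop :=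
  ∃ (ι : Type) (Q0 O Q : ι → Set M), LocallyFinite Q ∧ (∀ i j, i ≠ j → Disjoint (Q i) (Q j)) ∧
    (∀ i, IsClosed (Q0 i)) ∧ (∀ i, Q0 i ⊆ O i) ∧ (∀ i, IsOpen (O i)) ∧ (∀ i, O i ⊆ Q i) ∧
    (∀ i, IsCompact (Q i)) ∧ (∀ i, IsPreconnected (Q i \ O i)) ∧
    (∀ i, Disjoint (Q i) A ∨ Disjoint (Q i) B) ∧ (∀ i, Q i ⊆ W) ∧ D = ⋃ i, Q0 i

lemma apo_of_cover [T4Space M] [LocallyCompactSpace M]
    (hR : IsPreconnected (Rem M))
    (hcov : ∀ A B : Set M, IsClosed A → IsClosed B → Disjoint A B →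
      ∃ 𝒟 : Set (Set M), 𝒟.Finite ∧ (∀ D ∈ 𝒟, Cells A B univ D) ∧ ⋃₀ 𝒟 = univ)
    (x y : StoneCech M) (hx : x ∈ Rem M) (hxy : x ≠ y) :
    ∃ K : Set (StoneCech M), K ⊆ Rem M ∧ IsCompact K ∧ IsConnected K ∧ y ∉ K ∧
      ∃ U : Set (StoneCech M), IsOpen U ∧ x ∈ U ∧ U ∩ Rem M ⊆ K := by
  have hRcl : IsClosed (Rem M) := isCompact_rem.isClosed
  obtain ⟨h, h0, h1, hI⟩ := exists_continuous_zero_one_of_isClosed (isClosed_singleton (x := x))
    (isClosed_singleton (x := y)) (by simpa using hxy)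
  have hx0 : h x = 0 := h0 rfl
  have hy1 : h y = 1 := h1 rfl
  let g : M → ℝ := fun m => h (stoneCechUnit m)
  have hg : Continuous g := h.continuous.comp continuous_stoneCechUnit
  let A : Set M := {m | g m ≤ 1/3}
  let B : Set M := {m | 2/3 ≤ g m}
  have hA : IsClosed A := isClosed_le hg continuous_const
  have hB : IsClosed B := isClosed_le continuous_const hg
  have hAB : Disjoint A B := by
    rw [Set.disjoint_left]
    intro m hm hm'
    simp only [A, B, mem_ofPred_eq] at hm hm'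
    linarith
  obtain ⟨𝒟, hfin, hcell, hun⟩ := hcov A B hA hB hAB
  have hyr : y ∈ closure (Set.range (stoneCechUnit : M → StoneCech M)) :=
    denseRange_stoneCechUnit y
  have hr : Set.range (stoneCechUnit : M → StoneCech M) = ⋃ D ∈ 𝒟, un '' D := by
    ext w
    constructor
    · rintro ⟨m, rfl⟩
      have hm : m ∈ ⋃₀ 𝒟 := by rw [hun]; trivial
      obtain ⟨D, hD, hmD⟩ := hm
      exact mem_biUnion hD ⟨m, hmD, rfl⟩
    · intro hw
      obtain ⟨D, hD, m, _, rfl⟩ := mem_iUnion₂.1 hw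
      exact ⟨m, rfl⟩
  rw [hr, hfin.closure_biUnion] at hyr
  obtain ⟨D, hD, hyD⟩ := mem_iUnion₂.1 hyr
  obtain ⟨ι, Q0, O, Q, hlf, hdis, hQ0, hQ0O, hO, hOQ, hQ, hS, hAorB, _, hDeq⟩ := hcell D hD
  let J : Set ι := {i | Disjoint (Q i) A}
  have hlfJ : LocallyFinite (fun i : J => Q i.1) := hlf.comp_injective Subtype.val_injective
  have hyJ : y ∈ closure ((un : M → StoneCech M) '' (⋃ i : J, Q0 i.1)) := by
    have hsp : (un : M → StoneCech M) '' D ⊆
        un '' (⋃ i : J, Q0 i.1) ∪ un '' {m | g m ≤ 2/3} := by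
      rintro _ ⟨m, hm, rfl⟩
      rw [hDeq] at hm
      obtain ⟨i, hi⟩ := mem_iUnion.1 hm
      by_cases hiJ : i ∈ J
      · exact Or.inl ⟨m, mem_iUnion.2 ⟨⟨i, hiJ⟩, hi⟩, rfl⟩
      · refine Or.inr ⟨m, ?_, rfl⟩
        have := (hAorB i).resolve_left hiJ
        have hmB := Set.disjoint_left.1 this (hOQ i (hQ0O i hi))
        simp only [B, mem_ofPred_eq, not_le] at hmB
        exact hmB.le
    have hz' := closure_mono hsp hyD
    rw [closure_union] at hz'
    rcases hz' with hz' | hz'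
    · exact hz'
    · exfalso
      have : y ∈ {z | h z ≤ 2/3} := by
        refine closure_minimal ?_ (isClosed_le h.continuous continuous_const) hz'
        rintro _ ⟨m, hm, rfl⟩
        exact hm
      simp only [mem_ofPred_eq, hy1] at this
      norm_num at this
  set C : Set M := (⋃ i : J, O i.1)ᶜ with hCdef
  have hCcl : IsClosed C := (isOpen_iUnion (fun i : J => hO i.1)).isClosed_compl
  have hconn := main_connected hR (fun i : J => O i.1) (fun i : J => Q i.1) hlfJ
    (fun i j hij => hdis i.1 j.1 (fun hh => hij (Subtype.ext hh)))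
    (fun i => hO i.1) (fun i => hOQ i.1) (fun i => hQ i.1) (fun i => hS i.1)
  have hAC : A ⊆ C := by
    intro m hm hmU
    obtain ⟨i, hi⟩ := mem_iUnion.1 hmU
    exact Set.disjoint_left.1 i.2 (hOQ i.1 hi) hm
  have hUK : {z | h z < 1/3} ∩ Rem M ⊆ closure ((un : M → StoneCech M) '' C) ∩ Rem M := by
    rintro z ⟨hz, hzR⟩
    refine ⟨?_, hzR⟩
    have hop : IsOpen {z | h z < 1/3} := isOpen_lt h.continuous continuous_const
    have hz2 := (denseRange_stoneCechUnit (α := M)).open_subset_closure_inter hop hz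
    refine closure_mono ?_ hz2
    rintro _ ⟨hm, m, rfl⟩
    refine ⟨m, hAC ?_, rfl⟩
    have hm' : g m < 1/3 := hm
    exact hm'.le
  refine ⟨closure ((un : M → StoneCech M) '' C) ∩ Rem M, inter_subset_right,
    (isClosed_closure.inter hRcl).isCompact, ⟨⟨x, hUK ⟨?_, hx⟩⟩, hconn⟩, ?_,
    {z | h z < 1/3}, isOpen_lt h.continuous continuous_const, ?_, hUK⟩
  · simp only [mem_ofPred_eq, hx0]; norm_num
  · rintro ⟨hyC, _⟩
    have hQcl : IsClosed (⋃ i : J, Q0 i.1) := by
      refine LocallyFinite.isClosed_iUnion ?_ (fun i => hQ0 i.1)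
      exact hlfJ.subset (fun i => (hQ0O i.1).trans (hOQ i.1))
    have hdd : Disjoint C (⋃ i : J, Q0 i.1) := by
      rw [Set.disjoint_left]
      intro m hmC hm
      obtain ⟨i, hi⟩ := mem_iUnion.1 hm
      exact hmC (mem_iUnion.2 ⟨i, hQ0O i.1 hi⟩)
    exact Set.disjoint_left.1 (disjoint_closures hCcl hQcl hdd) hyC hyJ
  · simp only [mem_ofPred_eq, hx0]; norm_num



section grid
variable {n : ℕ}

/-- grid centre -/
def ctr (ρ : ℝ) (z : Fin n → ℤ) : Fin n → ℝ := fun i => ρ * z i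

/-- parity colour -/
def col (z : Fin n → ℤ) : Fin n → Bool := fun i => decide (z i % 2 = 0)

lemma exists_ctr {ρ : ℝ} (hρ : 0 < ρ) (v : Fin n → ℝ) :
    ∃ z : Fin n → ℤ, v ∈ closedBall (ctr ρ z) (ρ / 2) := by
  refine ⟨fun i => round (v i / ρ), ?_⟩
  rw [mem_closedBall, dist_pi_le_iff (by positivity)]
  intro i
  have h := abs_sub_round (v i / ρ)
  rw [Real.dist_eq]
  have : v i - ctr ρ (fun i => round (v i / ρ)) i = ρ * (v i / ρ - round (v i / ρ)) := by
    unfold ctr; field_simp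
  rw [this, abs_mul, abs_of_pos hρ]
  nlinarith

lemma disj_ctr {ρ : ℝ} (hρ : 0 < ρ) {z z' : Fin n → ℤ} (hne : z ≠ z') (hc : col z = col z') :
    Disjoint (closedBall (ctr ρ z) (3 * ρ / 4)) (closedBall (ctr ρ z') (3 * ρ / 4)) := by
  rw [Set.disjoint_left]
  intro v h1 h2
  obtain ⟨i, hi⟩ := Function.ne_iff.1 hne
  have hci := congrFun hc i
  simp only [col, decide_eq_decide] at hci
  rw [mem_closedBall, dist_pi_le_iff (by positivity)] at h1 h2
  have a1 := h1 i
  have a2 := h2 i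
  rw [Real.dist_eq, abs_le] at a1 a2
  unfold ctr at a1 a2
  have h2' : z i - z' i ≥ 2 ∨ z' i - z i ≥ 2 := by omega
  rcases h2' with h | h
  · have hh : ((z i : ℝ) - z' i) ≥ 2 := by exact_mod_cast h
    nlinarith [a1.1, a1.2, a2.1, a2.2]
  · have hh : ((z' i : ℝ) - z i) ≥ 2 := by exact_mod_cast h
    nlinarith [a1.1, a1.2, a2.1, a2.2]

lemma finite_ctr {ρ : ℝ} (hρ : 0 < ρ) {B : Set (Fin n → ℝ)} (hB : IsCompact B) :
    {z : Fin n → ℤ | (closedBall (ctr ρ z) (ρ / 2) ∩ B).Nonempty}.Finite := by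
  obtain ⟨R, hR⟩ := hB.isBounded.subset_closedBall (0 : Fin n → ℝ)
  obtain ⟨N, hN⟩ := exists_nat_gt (R / ρ + 1)
  refine (Set.finite_Icc (fun _ => -(N:ℤ)) (fun _ => (N:ℤ)) : (Set.Icc (α := Fin n → ℤ) _ _).Finite).subset ?_
  rintro z ⟨v, hv1, hv2⟩
  have hv3 := hR hv2
  have hR0 : 0 ≤ R := le_trans dist_nonneg (mem_closedBall.1 hv3)
  rw [mem_closedBall, dist_pi_le_iff (by positivity)] at hv1
  rw [mem_closedBall, dist_pi_le_iff hR0] at hv3
  have hNR : R + ρ < N * ρ := by
    have := mul_lt_mul_of_pos_right hN hρ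
    field_simp at this
    linarith
  have key : ∀ i, |(z i : ℝ)| ≤ N := by
    intro i
    have a1 := hv1 i
    have a2 := hv3 i
    rw [Real.dist_eq, abs_le] at a1 a2
    unfold ctr at a1
    simp only [Pi.zero_apply, sub_zero] at a2
    rw [abs_le]
    constructor
    · by_contra hcon
      push Not at hcon
      nlinarith
    · by_contra hcon
      push Not at hcon
      nlinarith
  constructor
  · intro i
    have := (abs_le.1 (key i)).1
    exact_mod_cast this
  · intro i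
    have := (abs_le.1 (key i)).2
    exact_mod_cast this

end grid

section small
variable {M : Type} [MetricSpace M] {κ : Type}

/-- covered by finitely many small compact sets with disjointness inside colour classes. -/
def Sm (κ : Type) (S : Set M) : Prop :=
  ∀ ε : ℝ, 0 < ε → ∃ F : κ → Set (Set M), (∀ c, (F c).Finite) ∧
    (∀ c, ∀ s ∈ F c, ∀ t ∈ F c, s ≠ t → Disjoint s t) ∧
    (∀ c, ∀ s ∈ F c, IsCompact s) ∧ (∀ c, ∀ s ∈ F c, ∀ x ∈ s, ∀ y ∈ s, dist x y < ε) ∧
    S ⊆ ⋃ c, ⋃₀ F c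

lemma Sm.mono {S T : Set M} (h : Sm κ T) (hST : S ⊆ T) : Sm κ S := by
  intro ε hε
  obtain ⟨F, h1, h2, h3, h4, h5⟩ := h ε hε
  exact ⟨F, h1, h2, h3, h4, hST.trans h5⟩

lemma Sm.empty : Sm κ (∅ : Set M) := by
  intro ε hε
  refine ⟨fun _ => ∅, by simp, by simp, by simp, by simp, by simp⟩

lemma sep_eventually {F : Set (Set M)} (hF : F.Finite) (hc : ∀ s ∈ F, IsCompact s)
    (hd : ∀ s ∈ F, ∀ t ∈ F, s ≠ t → Disjoint s t) :
    ∀ᶠ δ in 𝓝[>] (0:ℝ), ∀ s ∈ F, ∀ t ∈ F, s ≠ t → Disjoint (thickening δ s) (thickening δ t) := by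
  rw [Filter.eventually_all_finite hF]
  intro s hs
  rw [Filter.eventually_all_finite hF]
  intro t ht
  by_cases hst : s = t
  · exact Eventually.of_forall (fun _ h => absurd hst h)
  · obtain ⟨δ, hδ, hdd⟩ := (hd s hs t ht hst).exists_thickenings (hc s hs) (hc t ht).isClosed
    filter_upwards [Ioo_mem_nhdsGT hδ] with δ' hδ' _
    exact hdd.mono (thickening_mono hδ'.2.le _) (thickening_mono hδ'.2.le _)

lemma Sm.union [Finite κ] {S T : Set M} (hS : Sm κ S) (hT : Sm κ T) : Sm κ (S ∪ T) := by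
  intro ε hε
  obtain ⟨F, hF1, hF2, hF3, hF4, hF5⟩ := hS (ε/3) (by positivity)
  have hev : ∀ᶠ δ in 𝓝[>] (0:ℝ), ∀ c, ∀ s ∈ F c, ∀ t ∈ F c, s ≠ t →
      Disjoint (thickening δ s) (thickening δ t) := by
    rw [Filter.eventually_all]
    intro c
    exact sep_eventually (hF1 c) (hF3 c) (hF2 c)
  have hev2 : ∀ᶠ δ in 𝓝[>] (0:ℝ), 0 < δ ∧ δ < ε/3 := by
    filter_upwards [Ioo_mem_nhdsGT (show (0:ℝ) < ε/3 by positivity)] with δ hδ
    exact ⟨hδ.1, hδ.2⟩
  obtain ⟨δ, hsep, hδ0, hδε⟩ := (hev.and hev2).exists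
  obtain ⟨G, hG1, hG2, hG3, hG4, hG5⟩ := hT δ hδ0
  -- a small set meets at most one member
  have huniq : ∀ c, ∀ g ∈ G c, ∀ s ∈ F c, ∀ t ∈ F c, (g ∩ s).Nonempty → (g ∩ t).Nonempty →
      s = t := by
    intro c g hg s hs t ht ⟨a, ha1, ha2⟩ ⟨b, hb1, hb2⟩
    by_contra hst
    refine Set.disjoint_left.1 (hsep c s hs t ht hst) (self_subset_thickening hδ0 s ha2) ?_
    rw [mem_thickening_iff]
    exact ⟨b, hb2, hG4 c g hg a ha1 b hb1⟩
  let att : κ → Set M → Set M := fun c s => s ∪ ⋃₀ {g ∈ G c | (g ∩ s).Nonempty}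
  refine ⟨fun c => (att c '' (F c)) ∪ {g ∈ G c | ∀ s ∈ F c, Disjoint g s}, ?_, ?_, ?_, ?_, ?_⟩
  · intro c
    exact ((hF1 c).image _).union ((hG1 c).subset (fun g hg => hg.1))
  · intro c
    -- disjointness
    have d1 : ∀ s ∈ F c, ∀ t ∈ F c, s ≠ t → Disjoint (att c s) (att c t) := by
      intro s hs t ht hst
      rw [Set.disjoint_left]
      rintro m (hm | ⟨g, ⟨hg, hgs⟩, hm⟩) (hm' | ⟨g', ⟨hg', hgt⟩, hm'⟩)
      · exact Set.disjoint_left.1 (hF2 c s hs t ht hst) hm hm'
      · exact hst (huniq c g' hg' s hs t ht ⟨m, hm', hm⟩ hgt)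
      · exact hst (huniq c g hg s hs t ht hgs ⟨m, hm, hm'⟩)
      · by_cases hgg : g = g'
        · subst hgg
          exact hst (huniq c g hg s hs t ht hgs hgt)
        · exact Set.disjoint_left.1 (hG2 c g hg g' hg' hgg) hm hm'
    have d2 : ∀ s ∈ F c, ∀ g ∈ {g ∈ G c | ∀ s ∈ F c, Disjoint g s}, Disjoint (att c s) g := by
      rintro s hs g ⟨hg, hgF⟩
      rw [Set.disjoint_left]
      rintro m (hm | ⟨g', ⟨hg', hgs⟩, hm⟩) hm'
      · exact Set.disjoint_left.1 (hgF s hs) hm' hm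
      · by_cases hgg : g = g'
        · subst hgg
          obtain ⟨a, ha1, ha2⟩ := hgs
          exact Set.disjoint_left.1 (hgF s hs) ha1 ha2
        · exact Set.disjoint_left.1 (hG2 c g hg g' hg' hgg) hm' hm
    rintro _ (⟨s, hs, rfl⟩ | hg) _ (⟨t, ht, rfl⟩ | hg') hne
    · exact d1 s hs t ht (fun h => hne (by rw [h]))
    · exact d2 s hs _ hg'
    · exact (d2 t ht _ hg).symm
    · exact hG2 c _ hg.1 _ hg'.1 hne
  · rintro c _ (⟨s, hs, rfl⟩ | hg)
    · refine (hF3 c s hs).union (((hG1 c).subset (fun g hg => hg.1)).isCompact_sUnion ?_)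
      intro g hg
      exact hG3 c g hg.1
    · exact hG3 c _ hg.1
  · rintro c _ (⟨s, hs, rfl⟩ | hg) x hx y hy
    · have hnear : ∀ x ∈ att c s, ∃ x' ∈ s, dist x x' < ε/3 := by
        rintro x (hx | ⟨g, ⟨hg, ⟨a, ha1, ha2⟩⟩, hx⟩)
        · exact ⟨x, hx, by rw [dist_self]; positivity⟩
        · exact ⟨a, ha2, (hG4 c g hg x hx a ha1).trans hδε⟩
      obtain ⟨x', hx', hxx⟩ := hnear x hx
      obtain ⟨y', hy', hyy⟩ := hnear y hy
      have h1 := hF4 c s hs x' hx' y' hy'
      have h2 := dist_triangle4 x x' y' y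
      rw [dist_comm y' y] at h2
      linarith
    · have := hG4 c _ hg.1 x hx y hy
      linarith
  · rintro m (hm | hm)
    · obtain ⟨c, s, hs, hms⟩ := mem_iUnion.1 (hF5 hm)
      exact mem_iUnion.2 ⟨c, att c s, Or.inl ⟨s, hs, rfl⟩, Or.inl hms⟩
    · obtain ⟨c, g, hg, hmg⟩ := mem_iUnion.1 (hG5 hm)
      by_cases hh : ∀ s ∈ F c, Disjoint g s
      · exact mem_iUnion.2 ⟨c, g, Or.inr ⟨hg, hh⟩, hmg⟩
      · push Not at hh
        obtain ⟨s, hs, hns⟩ := hh
        rw [Set.not_disjoint_iff_nonempty_inter] at hns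
        exact mem_iUnion.2 ⟨c, att c s, Or.inl ⟨s, hs, rfl⟩, Or.inr ⟨g, ⟨hg, hns⟩, hmg⟩⟩

lemma Sm.local {n : ℕ} (φ : OpenPartialHomeomorph M (Fin n → ℝ)) {x : M} (hx : x ∈ φ.source) :
    ∃ t ∈ 𝓝 x, Sm (Fin n → Bool) t := by
  have hxt : φ x ∈ φ.target := φ.map_source hx
  obtain ⟨r, hr, hrt⟩ := Metric.nhds_basis_closedBall.mem_iff.1 (φ.open_target.mem_nhds hxt)
  let B : Set (Fin n → ℝ) := closedBall (φ x) r
  have hB : IsCompact B := isCompact_closedBall _ _
  have hcont : ContinuousOn φ.symm B := φ.continuousOn_symm.mono hrt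
  refine ⟨φ.symm '' B, ?_, ?_⟩
  · have h1 : φ.source ∩ φ ⁻¹' (ball (φ x) r) ∈ 𝓝 x := by
      refine (φ.isOpen_inter_preimage isOpen_ball).mem_nhds ⟨hx, mem_ball_self hr⟩
    refine mem_of_superset h1 ?_
    rintro m ⟨hm1, hm2⟩
    exact ⟨φ m, ball_subset_closedBall hm2, φ.left_inv hm1⟩
  · intro ε hε
    have huc := hB.uniformContinuousOn_of_continuous hcont
    rw [Metric.uniformContinuousOn_iff] at huc
    obtain ⟨δ, hδ, huc⟩ := huc ε hε
    let ρ : ℝ := δ / 2
    have hρ : 0 < ρ := by positivity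
    let cell : (Fin n → ℤ) → Set M := fun z => φ.symm '' (closedBall (ctr ρ z) (ρ/2) ∩ B)
    refine ⟨fun c => cell '' {z | col z = c ∧ (closedBall (ctr ρ z) (ρ / 2) ∩ B).Nonempty},
      ?_, ?_, ?_, ?_, ?_⟩
    · intro c
      exact ((finite_ctr hρ hB).subset (fun z hz => hz.2)).image _
    · rintro c _ ⟨z, ⟨hz, _⟩, rfl⟩ _ ⟨z', ⟨hz', _⟩, rfl⟩ hne
      have hzz : z ≠ z' := fun h => hne (by rw [h])
      have hd := disj_ctr hρ hzz (hz.trans hz'.symm)
      rw [Set.disjoint_left]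
      rintro _ ⟨v, ⟨hv1, hv2⟩, rfl⟩ ⟨w, ⟨hw1, hw2⟩, hvw⟩
      have : w = v := φ.symm.injOn (hrt hw2) (hrt hv2) hvw
      subst this
      have hle : ρ / 2 ≤ 3 * ρ / 4 := by linarith
      exact Set.disjoint_left.1 hd (closedBall_subset_closedBall hle hv1)
        (closedBall_subset_closedBall hle hw1)
    · rintro c _ ⟨z, _, rfl⟩
      exact ((isCompact_closedBall _ _).inter hB).image_of_continuousOn
        (hcont.mono inter_subset_right)
    · rintro c _ ⟨z, _, rfl⟩ _ ⟨v, ⟨hv1, hv2⟩, rfl⟩ _ ⟨w, ⟨hw1, hw2⟩, rfl⟩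
      refine huc v hv2 w hw2 ?_
      have h1 := dist_triangle_right v w (ctr ρ z)
      rw [mem_closedBall] at hv1 hw1
      have : ρ = δ / 2 := rfl
      linarith
    · rintro _ ⟨v, hv, rfl⟩
      obtain ⟨z, hz⟩ := exists_ctr hρ v
      exact mem_iUnion.2 ⟨col z, cell z, ⟨z, ⟨rfl, ⟨v, hz, hv⟩⟩, rfl⟩, ⟨v, ⟨hz, hv⟩, rfl⟩⟩

lemma Sm.compact {n : ℕ} (hch : ∀ x : M, ∃ φ : OpenPartialHomeomorph M (Fin n → ℝ), x ∈ φ.source)
    {S : Set M} (hS : IsCompact S) : Sm (Fin n → Bool) S := by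
  refine hS.induction_on Sm.empty (fun s t hst ht => ht.mono hst) (fun s t hs ht => hs.union ht) ?_
  intro x _
  obtain ⟨φ, hφ⟩ := hch x
  obtain ⟨t, ht, hs⟩ := Sm.local φ hφ
  exact ⟨t, mem_nhdsWithin_of_mem_nhds ht, hs⟩

end small


section cells

lemma Cells.mono {M : Type} [TopologicalSpace M] {A B W W' D : Set M} (h : Cells A B W D)
    (hW : W ⊆ W') : Cells A B W' D := by
  obtain ⟨ι, Q0, O, Q, h1, h2, h3, h4, h5, h6, h7, h8, h9, h10, h11⟩ := h
  exact ⟨ι, Q0, O, Q, h1, h2, h3, h4, h5, h6, h7, h8, h9, fun i => (h10 i).trans hW, h11⟩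

lemma Cells.iUnion {M : Type} [TopologicalSpace M] {A B W : Set M} {κ : Type} (V D : κ → Set M)
    (hV : LocallyFinite V) (hdV : ∀ k l, k ≠ l → Disjoint (V k) (V l))
    (hW : ∀ k, V k ⊆ W) (h : ∀ k, Cells A B (V k) (D k)) : Cells A B W (⋃ k, D k) := by
  choose ι Q0 O Q h1 h2 h3 h4 h5 h6 h7 h8 h9 h10 h11 using h
  refine ⟨Σ k, ι k, fun p => Q0 p.1 p.2, fun p => O p.1 p.2, fun p => Q p.1 p.2, ?_, ?_,
    fun p => h3 _ _, fun p => h4 _ _, fun p => h5 _ _, fun p => h6 _ _, fun p => h7 _ _,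
    fun p => h8 _ _, fun p => h9 _ _, fun p => (h10 p.1 p.2).trans (hW p.1), ?_⟩
  · intro x
    obtain ⟨U, hU, hfin⟩ := hV x
    have hk : ∀ k, ∃ t ∈ 𝓝 x, {i | (Q k i ∩ t).Nonempty}.Finite := fun k => h1 k x
    choose t ht htf using hk
    refine ⟨U ∩ ⋂ k ∈ {k | (V k ∩ U).Nonempty}, t k, ?_, ?_⟩
    · refine inter_mem hU ((biInter_mem hfin).2 (fun k _ => ht k))
    · refine (hfin.biUnion (t := fun k => Sigma.mk k '' {i | (Q k i ∩ t k).Nonempty})
        (fun k _ => (htf k).image _)).subset ?_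
      rintro ⟨k, i⟩ ⟨m, hmQ, hmU, hmt⟩
      have hkU : k ∈ {k | (V k ∩ U).Nonempty} := ⟨m, h10 k i hmQ, hmU⟩
      refine mem_biUnion hkU ⟨i, ⟨m, hmQ, ?_⟩, rfl⟩
      exact mem_iInter₂.1 hmt k hkU
  · rintro ⟨k, i⟩ ⟨l, j⟩ hne
    by_cases hkl : k = l
    · subst hkl
      exact h2 k i j (fun h => hne (by rw [h]))
    · exact (hdV k l hkl).mono (h10 k i) (h10 l j)
  · ext m
    simp only [mem_iUnion, h11]
    constructor
    · rintro ⟨k, i, hi⟩
      exact ⟨⟨k, i⟩, hi⟩
    · rintro ⟨⟨k, i⟩, hi⟩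
      exact ⟨k, i, hi⟩

variable {M : Type} [MetricSpace M] {n : ℕ}

lemma cells_chart (hn : 1 < n) (φ : OpenPartialHomeomorph M (Fin n → ℝ)) {A B V F : Set M}
    (hV : IsOpen V) (hVs : V ⊆ φ.source) (hAB : Disjoint V A ∨ Disjoint V B)
    (hF : IsCompact F) (hFV : F ⊆ V) :
    ∃ D : (Fin n → Bool) → Set M, (∀ c, Cells A B V (D c)) ∧ F ⊆ ⋃ c, D c := by
  have hFc : IsCompact (φ '' F) :=
    hF.image_of_continuousOn (φ.continuousOn.mono (hFV.trans hVs))
  let T : Set (Fin n → ℝ) := φ.target ∩ φ.symm ⁻¹' V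
  have hT : IsOpen T := φ.isOpen_inter_preimage_symm hV
  have hFT : φ '' F ⊆ T := by
    rintro _ ⟨m, hm, rfl⟩
    refine ⟨φ.map_source (hVs (hFV hm)), ?_⟩
    change φ.symm (φ m) ∈ V
    rw [φ.left_inv (hVs (hFV hm))]
    exact hFV hm
  obtain ⟨δ, hδ, hδT⟩ := hFc.exists_thickening_subset_open hT hFT
  let ρ : ℝ := δ / 2
  have hρ : 0 < ρ := by positivity
  have hρδ : ρ = δ / 2 := rfl
  have hrank : 1 < Module.rank ℝ (Fin n → ℝ) := by
    rw [rank_fun']
    simpa using hn
  have hbig : ∀ z : Fin n → ℤ, (closedBall (ctr ρ z) (ρ / 2) ∩ φ '' F).Nonempty →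
      closedBall (ctr ρ z) (3 * ρ / 4) ⊆ T := by
    rintro z ⟨v, hv1, hv2⟩
    refine Subset.trans ?_ hδT
    intro w hw
    rw [mem_thickening_iff]
    refine ⟨v, hv2, ?_⟩
    have h1 := dist_triangle_right w v (ctr ρ z)
    rw [mem_closedBall] at hv1 hw
    linarith
  let ι : (Fin n → Bool) → Type := fun c =>
    {z : Fin n → ℤ // col z = c ∧ (closedBall (ctr ρ z) (ρ / 2) ∩ φ '' F).Nonempty}
  have hfin : ∀ c, Finite (ι c) := by
    intro c
    exact ((finite_ctr hρ hFc).subset (fun z hz => hz.2) :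
      {z : Fin n → ℤ | col z = c ∧ (closedBall (ctr ρ z) (ρ / 2) ∩ φ '' F).Nonempty}.Finite)
  have hTt : T ⊆ φ.target := inter_subset_left
  refine ⟨fun c => ⋃ i : ι c, φ.symm '' closedBall (ctr ρ i.1) (ρ / 2), ?_, ?_⟩
  · intro c
    have := hfin c
    refine ⟨ι c, fun i => φ.symm '' closedBall (ctr ρ i.1) (ρ / 2),
      fun i => φ.symm '' ball (ctr ρ i.1) (3 * ρ / 4),
      fun i => φ.symm '' closedBall (ctr ρ i.1) (3 * ρ / 4), locallyFinite_of_finite _,
      ?_, ?_, ?_, ?_, ?_, ?_, ?_, ?_, ?_, rfl⟩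
    · rintro ⟨z, hz1, hz2⟩ ⟨z', hz1', hz2'⟩ hne
      have hzz : z ≠ z' := fun h => hne (Subtype.ext h)
      have hd := disj_ctr hρ hzz (hz1.trans hz1'.symm)
      rw [Set.disjoint_left]
      rintro _ ⟨v, hv, rfl⟩ ⟨w, hw, hvw⟩
      have : w = v := φ.symm.injOn (hTt (hbig z' hz2' hw)) (hTt (hbig z hz2 hv)) hvw
      subst this
      exact Set.disjoint_left.1 hd hv hw
    · rintro ⟨z, hz1, hz2⟩
      have hsub : closedBall (ctr ρ z) (ρ / 2) ⊆ φ.target :=
        (closedBall_subset_closedBall (by linarith)).trans ((hbig z hz2).trans hTt)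
      exact ((isCompact_closedBall _ _).image_of_continuousOn
        (φ.continuousOn_symm.mono hsub)).isClosed
    · rintro ⟨z, hz1, hz2⟩
      exact image_mono (closedBall_subset_ball (by linarith))
    · rintro ⟨z, hz1, hz2⟩
      exact φ.symm.isOpen_image_of_subset_source isOpen_ball
        (ball_subset_closedBall.trans ((hbig z hz2).trans hTt))
    · rintro ⟨z, hz1, hz2⟩
      exact image_mono ball_subset_closedBall
    · rintro ⟨z, hz1, hz2⟩
      exact (isCompact_closedBall _ _).image_of_continuousOn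
        (φ.continuousOn_symm.mono ((hbig z hz2).trans hTt))
    · rintro ⟨z, hz1, hz2⟩
      have hinj : InjOn φ.symm (closedBall (ctr ρ z) (3 * ρ / 4)) :=
        φ.symm.injOn.mono ((hbig z hz2).trans hTt)
      rw [← hinj.image_sdiff_subset ball_subset_closedBall, closedBall_sdiff_ball]
      exact (isPreconnected_sphere hrank _ _).image _
        (φ.continuousOn_symm.mono (sphere_subset_closedBall.trans ((hbig z hz2).trans hTt)))
    · rintro ⟨z, hz1, hz2⟩
      have hsub : φ.symm '' closedBall (ctr ρ z) (3 * ρ / 4) ⊆ V := by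
        rintro _ ⟨v, hv, rfl⟩
        exact (hbig z hz2 hv).2
      rcases hAB with h | h
      · exact Or.inl (h.mono_left hsub)
      · exact Or.inr (h.mono_left hsub)
    · rintro ⟨z, hz1, hz2⟩
      rintro _ ⟨v, hv, rfl⟩
      exact (hbig z hz2 hv).2
  · intro m hm
    obtain ⟨z, hz⟩ := exists_ctr hρ (φ m)
    refine mem_iUnion.2 ⟨col z, mem_iUnion.2 ⟨⟨z, rfl, ⟨φ m, hz, ⟨m, hm, rfl⟩⟩⟩, ?_⟩⟩
    exact ⟨φ m, hz, φ.left_inv (hVs (hFV hm))⟩

lemma cells_compact (hn : 1 < n)
    (hch : ∀ x : M, ∃ φ : OpenPartialHomeomorph M (Fin n → ℝ), x ∈ φ.source)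
    {A B W R : Set M} (hA : IsClosed A) (hB : IsClosed B) (hAB : Disjoint A B)
    (hW : IsOpen W) (hR : IsCompact R) (hRW : R ⊆ W) :
    ∃ D : (Fin n → Bool) × (Fin n → Bool) → Set M, (∀ c, Cells A B W (D c)) ∧ R ⊆ ⋃ c, D c := by
  choose φ hφ using hch
  let U : M × Bool → Set M := fun p => (φ p.1).source ∩ W ∩ (if p.2 then Aᶜ else Bᶜ)
  have hU : ∀ p, IsOpen (U p) := by
    intro p
    refine ((φ p.1).open_source.inter hW).inter ?_
    split_ifs
    · exact hA.isOpen_compl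
    · exact hB.isOpen_compl
  have hRU : R ⊆ ⋃ p, U p := by
    intro m hm
    by_cases hmA : m ∈ A
    · refine mem_iUnion.2 ⟨(m, false), ⟨hφ m, hRW hm⟩, ?_⟩
      simpa using Set.disjoint_left.1 hAB hmA
    · refine mem_iUnion.2 ⟨(m, true), ⟨hφ m, hRW hm⟩, ?_⟩
      simpa using hmA
  obtain ⟨δ, hδ, hleb⟩ := lebesgue_number_lemma_of_metric hR hU hRU
  have hch' : ∀ x : M, ∃ φ : OpenPartialHomeomorph M (Fin n → ℝ), x ∈ φ.source :=
    fun x => ⟨φ x, hφ x⟩
  obtain ⟨F, hF1, hF2, hF3, hF4, hF5⟩ := Sm.compact hch' hR δ hδ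
  have hsep : ∀ c, ∃ δ' : ℝ, 0 < δ' ∧ ∀ s ∈ F c, ∀ t ∈ F c, s ≠ t →
      Disjoint (thickening δ' s) (thickening δ' t) := by
    intro c
    have h1 := sep_eventually (hF1 c) (hF3 c) (hF2 c)
    obtain ⟨δ', h2, h3⟩ := (h1.and self_mem_nhdsWithin).exists
    exact ⟨δ', h3, h2⟩
  choose δ' hδ' hsep using hsep
  -- local pieces
  have hpiece : ∀ c (s : {s : Set M // s ∈ F c ∧ (s ∩ R).Nonempty}),
      ∃ (V : Set M) (D : (Fin n → Bool) → Set M), V ⊆ W ∧ V ⊆ thickening (δ' c) s.1 ∧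
        (∀ c', Cells A B V (D c')) ∧ s.1 ∩ R ⊆ ⋃ c', D c' := by
    rintro c ⟨s, hs, a, ha1, ha2⟩
    obtain ⟨p, hp⟩ := hleb a ha2
    have hsU : s ⊆ U p := by
      intro m hm
      exact hp (hF4 c s hs m hm a ha1)
    let V : Set M := thickening (δ' c) s ∩ U p
    have hV : IsOpen V := isOpen_thickening.inter (hU p)
    have hVAB : Disjoint V A ∨ Disjoint V B := by
      by_cases hp2 : p.2 = true
      · left
        rw [Set.disjoint_left]
        rintro m ⟨_, _, hm⟩
        rw [if_pos hp2] at hm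
        exact hm
      · right
        rw [Set.disjoint_left]
        rintro m ⟨_, _, hm⟩
        rw [if_neg hp2] at hm
        exact hm
    obtain ⟨D, hD1, hD2⟩ := cells_chart hn (φ p.1) (A := A) (B := B) hV
      (fun m hm => hm.2.1.1) hVAB (F := s ∩ R) ((hF3 c s hs).inter_right hR.isClosed)
      (fun m hm => ⟨self_subset_thickening (hδ' c) s hm.1, hsU hm.1⟩)
    exact ⟨V, D, fun m hm => hm.2.1.2, inter_subset_left, hD1, hD2⟩
  choose V D hVW hVt hD1 hD2 using hpiece
  refine ⟨fun p => ⋃ s : {s : Set M // s ∈ F p.1 ∧ (s ∩ R).Nonempty}, D p.1 s p.2, ?_, ?_⟩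
  · rintro ⟨c, c'⟩
    have : Finite {s : Set M // s ∈ F c ∧ (s ∩ R).Nonempty} :=
      ((hF1 c).subset (fun s hs => hs.1) : {s : Set M | s ∈ F c ∧ (s ∩ R).Nonempty}.Finite)
    refine Cells.iUnion (fun s => V c s) (fun s => D c s c') (locallyFinite_of_finite _) ?_
      (fun s => hVW c s) (fun s => hD1 c s c')
    intro s t hst
    exact (hsep c s.1 s.2.1 t.1 t.2.1 (fun h => hst (Subtype.ext h))).mono (hVt c s) (hVt c t)
  · intro m hm
    obtain ⟨c, s, hs, hms⟩ := mem_iUnion.1 (hF5 hm)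
    obtain ⟨c', hc'⟩ := mem_iUnion.1 (hD2 c ⟨s, hs, ⟨m, hms, hm⟩⟩ ⟨hms, hm⟩)
    exact mem_iUnion.2 ⟨(c, c'), mem_iUnion.2 ⟨⟨s, hs, ⟨m, hms, hm⟩⟩, hc'⟩⟩

lemma cells_global [LocallyCompactSpace M] [SigmaCompactSpace M] (hn : 1 < n)
    (hch : ∀ x : M, ∃ φ : OpenPartialHomeomorph M (Fin n → ℝ), x ∈ φ.source)
    {A B : Set M} (hA : IsClosed A) (hB : IsClosed B) (hAB : Disjoint A B) :
    ∃ 𝒟 : Set (Set M), 𝒟.Finite ∧ (∀ D ∈ 𝒟, Cells A B univ D) ∧ ⋃₀ 𝒟 = univ := by
  let K0 : CompactExhaustion M := CompactExhaustion.choice M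
  let K : CompactExhaustion M := K0.shiftr
  have hK0 : K 0 = ∅ := rfl
  have hR : ∀ k, IsCompact (K (k+1) \ interior (K k)) := fun k =>
    (K.isCompact (k+1)).inter_right isOpen_interior.isClosed_compl
  have hW : ∀ k, IsOpen (interior (K (k+2)) \ K (k-1)) := fun k =>
    isOpen_interior.sdiff (K.isCompact (k-1)).isClosed
  have hRW : ∀ k, (K (k+1) \ interior (K k)) ⊆ (interior (K (k+2)) \ K (k-1)) := by
    rintro k m ⟨hm1, hm2⟩
    refine ⟨K.subset_interior_succ (k+1) hm1, ?_⟩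
    rcases k with _ | k
    · rw [show 0 - 1 = 0 from rfl, hK0]; exact fun h => h
    · intro h
      exact hm2 (K.subset_interior_succ k h)
  choose D hD1 hD2 using fun k => cells_compact hn hch hA hB hAB (hW k) (hR k) (hRW k)
  let E : Fin 3 × ((Fin n → Bool) × (Fin n → Bool)) → Set M := fun p =>
    ⋃ k : {k : ℕ // k % 3 = p.1.val}, D k.1 p.2
  refine ⟨Set.range E, Set.finite_range E, ?_, ?_⟩
  · rintro _ ⟨⟨r, c⟩, rfl⟩
    refine Cells.iUnion (fun k : {k : ℕ // k % 3 = r.val} => interior (K (k.1+2)) \ K (k.1-1))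
      (fun k => D k.1 c) ?_ ?_ (fun k => subset_univ _) (fun k => hD1 k.1 c)
    · intro x
      obtain ⟨m, hm⟩ := K.exists_mem_nhds x
      refine ⟨K m, hm, ?_⟩
      have hfin : {k : ℕ | k ≤ m + 1}.Finite := Set.finite_Iic _
      refine (hfin.preimage (f := fun k : {k : ℕ // k % 3 = r.val} => k.1)
        Subtype.val_injective.injOn).subset ?_
      rintro ⟨k, hk⟩ ⟨w, ⟨hw1, hw2⟩, hw3⟩
      change k ≤ m + 1
      by_contra hcon
      apply hw2
      exact K.subset (show m ≤ k - 1 by omega) hw3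
    · have hlt : ∀ k l : {k : ℕ // k % 3 = r.val}, k.1 < l.1 →
          Disjoint (interior (K (k.1+2)) \ K (k.1-1)) (interior (K (l.1+2)) \ K (l.1-1)) := by
        rintro ⟨k, hk⟩ ⟨l, hl⟩ hkl
        simp only at hkl
        rw [Set.disjoint_left]
        rintro w ⟨hw1, _⟩ ⟨_, hw2⟩
        apply hw2
        exact K.subset (show k + 2 ≤ l - 1 by omega) (interior_subset hw1)
      intro k l hkl
      rcases lt_or_gt_of_ne (fun h : k.1 = l.1 => hkl (Subtype.ext h)) with h | h
      · exact hlt k l h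
      · exact (hlt l k h).symm
  · rw [Set.eq_univ_iff_forall]
    intro m
    have hm := K0.mem_sdiff_shiftr_find m
    let k := K0.find m
    have hmk : m ∈ K (k+1) \ interior (K k) := ⟨hm.1, fun h => hm.2 (interior_subset h)⟩
    obtain ⟨c, hc⟩ := mem_iUnion.1 (hD2 k hmk)
    refine ⟨E (⟨k % 3, Nat.mod_lt _ (by norm_num)⟩, c), ⟨_, rfl⟩, ?_⟩
    exact mem_iUnion.2 ⟨⟨k, rfl⟩, hc⟩

end cells

end Pool.Agent.Helper292.SC
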