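import Mathlib
set_option autoImplicit false
open Set Cardinal

namespace Pool.Agent.Helper292.SetMap

universe u

/-- number of pairs of small subsets -/
lemma mk_pick_le {K : Type u} (pick : Set K → Set K → K) (U : Set K) (c μ : Cardinal.{u})
    (hμ : ℵ₀ ≤ μ) (hcμ : c ≤ μ) (hU : #U ≤ 2 ^ μ) :
    #{y : K | ∃ A B : Set K, A ⊆ U ∧ B ⊆ U ∧ #A ≤ c ∧ #B ≤ c ∧ y = pick A B} ≤ 2 ^ μ := by
  let P := {t : Set K // t ⊆ U ∧ #t ≤ c}
  have hP : #P ≤ 2 ^ μ := by
    refine (mk_bounded_subset_le U c).trans ?_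
    have h1 : max #U ℵ₀ ≤ 2 ^ μ := max_le hU (hμ.trans (cantor μ).le)
    calc (max #U ℵ₀) ^ c ≤ (2 ^ μ) ^ c := power_le_power_right h1
      _ = 2 ^ (μ * c) := by rw [← power_mul]
      _ ≤ 2 ^ μ := by
        refine power_le_power_left two_ne_zero ?_
        exact (mul_le_mul_right hcμ μ).trans (mul_eq_self hμ).le
  have hPP : #(P × P) ≤ 2 ^ μ := by
    rw [mk_prod, lift_id]
    exact (mul_le_mul' hP hP).trans (mul_eq_self (hμ.trans (cantor μ).le)).le
  have hsub : {y : K | ∃ A B : Set K, A ⊆ U ∧ B ⊆ U ∧ #A ≤ c ∧ #B ≤ c ∧ y = pick A B} ⊆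
      range (fun p : P × P => pick p.1.1 p.2.1) := by
    rintro y ⟨A, B, hA, hB, hA', hB', rfl⟩
    exact ⟨(⟨A, hA, hA'⟩, ⟨B, hB, hB'⟩), rfl⟩
  exact (mk_le_mk_of_subset hsub).trans (mk_range_le.trans hPP)

/-- closing a set under a function of small subsets -/
lemma exists_closed {K : Type u} (pick : Set K → Set K → K) (N0 : Set K) (c μ : Cardinal.{u})
    (hc : ℵ₀ ≤ c) (hcμ : c ≤ μ) (h0 : #N0 ≤ μ) :
    ∃ N : Set K, N0 ⊆ N ∧ #N ≤ 2 ^ μ ∧
      ∀ A B : Set K, A ⊆ N → B ⊆ N → #A ≤ c → #B ≤ c → pick A B ∈ N := by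
  classical
  have hμ : ℵ₀ ≤ μ := hc.trans hcμ
  let W : Type u := (Order.succ c).ord.ToType
  have hW : #W = Order.succ c := by simp [W]
  have hseg : ∀ w : W, #(Iio w) ≤ c := by
    intro w
    have h1 : #(Iio w) < Order.succ c := Cardinal.mk_Iio_toType_ord_lt w
    exact Order.lt_succ_iff.1 h1
  let step : ∀ w : W, (∀ v : W, v < w → Set K) → Set K := fun w G =>
    N0 ∪ {y : K | ∃ A B : Set K, A ⊆ (⋃ v : Iio w, G v.1 v.2) ∧ B ⊆ (⋃ v : Iio w, G v.1 v.2) ∧
      #A ≤ c ∧ #B ≤ c ∧ y = pick A B}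
  let M : W → Set K := (wellFounded_lt (α := W)).fix step
  have hM : ∀ w, M w = step w (fun v _ => M v) := fun w =>
    (wellFounded_lt (α := W)).fix_eq step w
  have h2μ : ℵ₀ ≤ (2 : Cardinal.{u}) ^ μ := hμ.trans (cantor μ).le
  have hsize : ∀ w, #(M w) ≤ 2 ^ μ := by
    intro w
    induction w using WellFoundedLT.induction with
    | ind w ih =>
      rw [hM w]
      have hU : #(⋃ v : Iio w, M v.1 : Set K) ≤ 2 ^ μ := by
        refine (mk_iUnion_le _).trans ?_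
        refine (mul_le_mul' (hseg w) (ciSup_le' (fun v : Iio w => ih v.1 v.2))).trans ?_
        refine (mul_le_mul' (hcμ.trans (cantor μ).le) le_rfl).trans (mul_eq_self h2μ).le
      refine (mk_union_le _ _).trans ?_
      refine (add_le_add (h0.trans (cantor μ).le) (mk_pick_le pick _ c μ hμ hcμ hU)).trans ?_
      exact (add_eq_self h2μ).le
  have hmono : ∀ v w : W, v ≤ w → M v ⊆ M w := by
    intro v w hvw
    rw [hM v, hM w]
    rintro y (hy | ⟨A, B, hA, hB, hA', hB', rfl⟩)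
    · exact Or.inl hy
    · refine Or.inr ⟨A, B, hA.trans ?_, hB.trans ?_, hA', hB', rfl⟩
      all_goals
        refine iUnion_subset fun x => ?_
        exact subset_iUnion (fun v : Iio w => M v.1) ⟨x.1, lt_of_lt_of_le x.2 hvw⟩
  have hbdd : ∀ A : Set K, A ⊆ (⋃ w, M w) → #A ≤ c → ∃ w, A ⊆ ⋃ v : Iio w, M v.1 := by
    intro A hA hAc
    have h1 : ∀ a : A, ∃ w, a.1 ∈ M w := fun a => mem_iUnion.1 (hA a.2)
    choose r hr using h1
    have hreg : (Order.succ c).IsRegular := isRegular_succ hc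
    have hlt : #(range r) < Order.succ c :=
      mk_range_le.trans_lt (Order.lt_succ_of_le hAc)
    have hub : ∃ w : W, ∀ x ∈ range r, x < w := by
      by_contra hcon
      push Not at hcon
      have hcof : IsCofinal (range r) := by
        intro w
        obtain ⟨x, hx, hx'⟩ := hcon w
        exact ⟨x, hx, hx'⟩
      have h3 := Order.cof_le hcof
      have h4 : Order.cof W = (Order.succ c).ord.cof := by simp [W]
      rw [h4, hreg.cof_ord] at h3
      exact absurd h3 (not_le.2 hlt)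
    obtain ⟨w, hw⟩ := hub
    refine ⟨w, fun a ha => mem_iUnion.2 ⟨⟨r ⟨a, ha⟩, hw _ ⟨_, rfl⟩⟩, hr ⟨a, ha⟩⟩⟩
  refine ⟨⋃ w, M w, ?_, ?_, ?_⟩
  · intro x hx
    have hne : Nonempty W := by
      rw [← mk_ne_zero_iff, hW]
      exact (lt_of_le_of_lt bot_le (Order.lt_succ c)).ne'
    obtain ⟨w⟩ := hne
    refine mem_iUnion.2 ⟨w, ?_⟩
    rw [hM w]
    exact Or.inl hx
  · refine (mk_iUnion_le _).trans ?_
    refine (mul_le_mul' (le_of_eq hW) (ciSup_le' hsize)).trans ?_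
    have : Order.succ c ≤ 2 ^ μ := (Order.succ_le_of_lt (cantor c)).trans
      (power_le_power_left two_ne_zero hcμ)
    exact (mul_le_mul' this le_rfl).trans (mul_eq_self h2μ).le
  · intro A B hA hB hAc hBc
    obtain ⟨w1, h1⟩ := hbdd A hA hAc
    obtain ⟨w2, h2⟩ := hbdd B hB hBc
    refine mem_iUnion.2 ⟨max w1 w2, ?_⟩
    rw [hM]
    refine Or.inr ⟨A, B, h1.trans ?_, h2.trans ?_, hAc, hBc, rfl⟩
    · refine iUnion_subset fun x => ?_
      exact subset_iUnion (fun v : Iio (max w1 w2) => M v.1) ⟨x.1, lt_of_lt_of_le (show x.1 < w1 from x.2) (le_max_left _ _)⟩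
    · refine iUnion_subset fun x => ?_
      exact subset_iUnion (fun v : Iio (max w1 w2) => M v.1) ⟨x.1, lt_of_lt_of_le (show x.1 < w2 from x.2) (le_max_right _ _)⟩


/-- free sets -/
def IsFree {K : Type u} (g : K → Set K) (F : Set K) : Prop := ∀ x ∈ F, ∀ y ∈ F, x ∉ g y

/-- positivity -/
def Pos {K : Type u} [LinearOrder K] (g : K → Set K) (N : ℕ → Set K) (c : ℕ → Cardinal.{u})
    (n : ℕ) (b : K) (Y : Set K) : Prop :=
  ∀ A B : Set K, A ⊆ N n → B ⊆ N n → #A ≤ c n → #B ≤ c n → (∀ x ∈ A, x ∉ g b) →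
    ∃ y ∈ Y, (∀ x ∈ B, x < y) ∧ ∀ x ∈ A, x ∉ g y

structure Ctx {K : Type u} [LinearOrder K] (g : K → Set K) (N : ℕ → Set K)
    (c : ℕ → Cardinal.{u}) (l : Cardinal.{u}) : Prop where
  hg : ∀ x, g x ⊆ Iio x
  hc0 : ∀ n, ℵ₀ ≤ c n
  hcm : StrictMono c
  hcl : ∀ n, c n < l
  hcs : ∀ x < l, ∃ n, x ≤ c n
  hst : ∀ x < l, (2 : Cardinal.{u}) ^ x < l
  hK : #K = Order.succ l
  hseg : ∀ x : K, #(Iio x) ≤ l
  hH : ∀ X : Set K, #X = l → #{z : K | ∀ x ∈ X, z ∈ g x} < l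
  hNm : Monotone N
  hN : ∀ n, #(N n) < l
  hNcl : ∀ n, ∀ A B : Set K, A ⊆ N n → B ⊆ N n → #A ≤ c n → #B ≤ c n →
    (∃ y, (∀ x ∈ B, x < y) ∧ ∀ x ∈ A, x ∉ g y) → ∃ y ∈ N n, (∀ x ∈ B, x < y) ∧ ∀ x ∈ A, x ∉ g y

lemma Pos.mono {K : Type u} [LinearOrder K] {g : K → Set K} {N : ℕ → Set K}
    {c : ℕ → Cardinal.{u}} {n : ℕ} {b : K} {Y Z : Set K} (h : Pos g N c n b Y) (hYZ : Y ⊆ Z) :
    Pos g N c n b Z := by
  intro A B hA hB hAc hBc hAb
  obtain ⟨y, hy, h1, h2⟩ := h A B hA hB hAc hBc hAb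
  exact ⟨y, hYZ hy, h1, h2⟩

lemma Pos.diff {K : Type u} [LinearOrder K] {g : K → Set K} {N : ℕ → Set K}
    {c : ℕ → Cardinal.{u}} {n : ℕ} {b : K} {Y : Set K} (h : Pos g N c n b Y) (hc : ℵ₀ ≤ c n)
    (Fam : Set (Set K)) (hF : #Fam ≤ c n) (hneg : ∀ Z ∈ Fam, ¬ Pos g N c n b Z) :
    Pos g N c n b (Y \ ⋃₀ Fam) := by
  classical
  intro A B hA hB hAc hBc hAb
  have hex : ∀ Z : Fam, ∃ P : Set K × Set K, P.1 ⊆ N n ∧ P.2 ⊆ N n ∧ #P.1 ≤ c n ∧ #P.2 ≤ c n ∧
      (∀ x ∈ P.1, x ∉ g b) ∧ ∀ y ∈ Z.1, ¬ ((∀ x ∈ P.2, x < y) ∧ ∀ x ∈ P.1, x ∉ g y) := by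
    intro Z
    have h1 := hneg Z.1 Z.2
    unfold Pos at h1
    push Not at h1
    obtain ⟨A', B', h2, h3, h4, h5, h6, h7⟩ := h1
    refine ⟨(A', B'), h2, h3, h4, h5, h6, fun y hy hh => ?_⟩
    obtain ⟨x, hx, hx'⟩ := h7 y hy hh.1
    exact hh.2 x hx hx'
  choose P h1 h2 h3 h4 h5 h6 using hex
  have hcard : ∀ (A0 : Set K) (G : Fam → Set K), #A0 ≤ c n → (∀ Z, #(G Z) ≤ c n) →
      #(A0 ∪ ⋃ Z, G Z : Set K) ≤ c n := by
    intro A0 G h7 h8
    refine (mk_union_le _ _).trans ((add_le_add h7 ?_).trans (add_eq_self hc).le)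
    exact (mk_iUnion_le _).trans ((mul_le_mul' hF (ciSup_le' h8)).trans (mul_eq_self hc).le)
  obtain ⟨y, hy, hyB, hyA⟩ := h (A ∪ ⋃ Z, (P Z).1) (B ∪ ⋃ Z, (P Z).2)
    (union_subset hA (iUnion_subset h1)) (union_subset hB (iUnion_subset h2))
    (hcard _ _ hAc h3) (hcard _ _ hBc h4) (by
      rintro x (hx | hx)
      · exact hAb x hx
      · obtain ⟨Z, hZ⟩ := mem_iUnion.1 hx
        exact h5 Z x hZ)
  refine ⟨y, ⟨hy, ?_⟩, fun x hx => hyB x (Or.inl hx), fun x hx => hyA x (Or.inl hx)⟩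
  rintro ⟨Z, hZ, hyZ⟩
  exact h6 ⟨Z, hZ⟩ y hyZ ⟨fun x hx => hyB x (Or.inr (mem_iUnion.2 ⟨⟨Z, hZ⟩, hx⟩)),
    fun x hx => hyA x (Or.inr (mem_iUnion.2 ⟨⟨Z, hZ⟩, hx⟩))⟩

section ctx
variable {K : Type u} [LinearOrder K] {g : K → Set K} {N : ℕ → Set K}
    {c : ℕ → Cardinal.{u}} {l : Cardinal.{u}}

lemma Ctx.l_le (C : Ctx g N c l) {x : Cardinal.{u}} (hx : ∀ n, ∃ m ≥ n, c m ≤ x) : l ≤ x := by
  by_contra hcon
  obtain ⟨n, hn⟩ := C.hcs x (not_le.1 hcon)
  obtain ⟨m, hm, hm'⟩ := hx (n + 1)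
  have h1 : c n < c m := C.hcm (by omega)
  exact absurd (hm'.trans hn) (not_le.2 h1)

lemma Ctx.l_inf (C : Ctx g N c l) : ℵ₀ ≤ l := (C.hc0 0).trans (C.hcl 0).le

lemma Ctx.pos_N (C : Ctx g N c l) {b : K} (hb : ∀ n, ∀ x ∈ N n, x < b) (n : ℕ) :
    Pos g N c n b (N n) := by
  intro A B hA hB hAc hBc hAb
  exact C.hNcl n A B hA hB hAc hBc ⟨b, fun x hx => hb n x (hB hx), hAb⟩

lemma Ctx.pos_card (C : Ctx g N c l) {b : K} {n : ℕ} {Y : Set K} (hY : Y ⊆ N n)
    (h : Pos g N c n b Y) : c n < #Y := by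
  by_contra hcon
  obtain ⟨y, hy, h1, -⟩ := h ∅ Y (empty_subset _) hY (by simp) (not_lt.1 hcon) (by simp)
  exact lt_irrefl y (h1 y hy)

/-- maximal free extension -/
lemma exists_max_free (g : K → Set K) (U A : Set K) (hA : IsFree g A) (hAU : A ⊆ U) :
    ∃ M, A ⊆ M ∧ IsFree g M ∧ M ⊆ U ∧ ∀ y ∈ U, IsFree g (insert y M) → y ∈ M := by
  obtain ⟨M, hM1, hM2⟩ := zorn_subset_nonempty {M : Set K | IsFree g M ∧ M ⊆ U} (by
    intro ch hch hchain hne
    refine ⟨⋃₀ ch, ⟨?_, ?_⟩, fun s hs => subset_sUnion_of_mem hs⟩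
    · rintro x ⟨s, hs, hxs⟩ y ⟨t, ht, hyt⟩
      rcases hchain.total hs ht with h | h
      · exact (hch ht).1 x (h hxs) y hyt
      · exact (hch hs).1 x hxs y (h hyt)
    · exact sUnion_subset fun s hs => (hch hs).2) A ⟨hA, hAU⟩
  refine ⟨M, hM1, hM2.prop.1, hM2.prop.2, fun y hy hfree => ?_⟩
  have h1 := hM2.le_of_ge (y := insert y M) ⟨hfree, insert_subset hy hM2.prop.2⟩
    (subset_insert y M)
  exact h1 (mem_insert y M)

lemma Ctx.not_pos (C : Ctx g N c l) (hfree : ¬ ∃ F : Set K, #F = l ∧ IsFree g F) (b : K) :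
    ∃ m, ∀ n ≥ m, ¬ Pos g N c n b (N n \ g b) := by
  classical
  by_contra hcon
  push Not at hcon
  -- sequence of maximal free sets
  have hstep : ∀ (n : ℕ) (A : {A : Set K // IsFree g A ∧ A ⊆ N n \ g b}),
      ∃ M : {A : Set K // IsFree g A ∧ A ⊆ N (n + 1) \ g b}, A.1 ⊆ M.1 ∧
        ∀ y ∈ N (n + 1) \ g b, IsFree g (insert y M.1) → y ∈ M.1 := by
    intro n A
    obtain ⟨M, h1, h2, h3, h4⟩ := exists_max_free g (N (n + 1) \ g b) A.1 A.2.1
      (A.2.2.trans (sdiff_subset_sdiff_left (C.hNm (Nat.le_succ n))))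
    exact ⟨⟨M, h2, h3⟩, h1, h4⟩
  choose nxt hn1 hn2 using hstep
  let A : ∀ n : ℕ, {A : Set K // IsFree g A ∧ A ⊆ N n \ g b} := fun n =>
    Nat.rec (motive := fun n => {A : Set K // IsFree g A ∧ A ⊆ N n \ g b})
      ⟨∅, by intro x hx; exact hx.elim, empty_subset _⟩ (fun n A => nxt n A) n
  have hA : ∀ n, A (n + 1) = nxt n (A n) := fun n => rfl
  have hmono : Monotone (fun n => (A n).1) := monotone_nat_of_le_succ fun n => by
    rw [hA]
    exact hn1 n (A n)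
  let F : Set K := ⋃ n, (A n).1
  have hFfree : IsFree g F := by
    intro x hx y hy
    obtain ⟨n, hn⟩ := mem_iUnion.1 hx
    obtain ⟨m, hm⟩ := mem_iUnion.1 hy
    exact (A (max n m)).2.1 x (hmono (le_max_left n m) hn) y (hmono (le_max_right n m) hm)
  have hbig : ∀ n, ∃ m ≥ n, c m ≤ #F := by
    intro n
    obtain ⟨m, hm, hpos⟩ := hcon (n + 1)
    refine ⟨m, by omega, ?_⟩
    obtain ⟨k, rfl⟩ : ∃ k, m = k + 1 := ⟨m - 1, by omega⟩
    refine le_trans ?_ (mk_le_mk_of_subset (subset_iUnion (fun n => (A n).1) (k + 1)))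
    by_contra hlt
    have hlt' : #(A (k + 1)).1 ≤ c (k + 1) := (not_le.1 hlt).le
    have hsub : (A (k + 1)).1 ⊆ N (k + 1) := fun x hx => ((A (k + 1)).2.2 hx).1
    obtain ⟨y, hy, hy1, hy2⟩ := hpos (A (k + 1)).1 (A (k + 1)).1 hsub hsub hlt' hlt'
      (fun x hx => ((A (k + 1)).2.2 hx).2)
    have hymem : y ∈ (A (k + 1)).1 := by
      rw [hA]
      refine hn2 k (A k) y hy ?_
      rw [← hA]
      rintro x (rfl | hx) z (rfl | hz)
      · exact fun h => lt_irrefl _ (C.hg _ h)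
      · exact fun h => lt_asymm (hy1 z hz) (C.hg _ h)
      · exact hy2 x hx
      · exact (A (k + 1)).2.1 x hx z hz
    exact lt_irrefl y (hy1 y hymem)
  obtain ⟨F', hF', hF'c⟩ := (le_mk_iff_exists_subset).1 (C.l_le hbig)
  exact hfree ⟨F', hF'c, fun x hx y hy => hFfree x (hF' hx) y (hF' hy)⟩

end ctx

section ctx2
variable {K : Type u} [LinearOrder K] {g : K → Set K} {N : ℕ → Set K}
    {c : ℕ → Cardinal.{u}} {l : Cardinal.{u}}

lemma Ctx.start (C : Ctx g N c l) (hfree : ¬ ∃ F : Set K, #F = l ∧ IsFree g F) {b : K}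
    (hb : ∀ n, ∀ x ∈ N n, x < b) : ∃ m, ∀ n ≥ m, Pos g N c n b (N n ∩ g b) := by
  obtain ⟨m, hm⟩ := C.not_pos hfree b
  refine ⟨m, fun n hn => ?_⟩
  have h1 := (C.pos_N hb n).diff (C.hc0 n) {N n \ g b} (by
    rw [mk_singleton]
    exact one_le_aleph0.trans (C.hc0 n)) (by
    rintro Z rfl
    exact hm n hn)
  refine h1.mono ?_
  rintro x ⟨hx, hx'⟩
  refine ⟨hx, ?_⟩
  by_contra hcon
  exact hx' ⟨_, rfl, hx, hcon⟩

lemma Ctx.c2 (C : Ctx g N c l) (hfree : ¬ ∃ F : Set K, #F = l ∧ IsFree g F) {b : K}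
    (hb : ∀ n, ∀ x ∈ N n, x < b) : ∃ (P : ℕ → Set K) (m1 i j : ℕ),
    (∀ n ≥ m1, P n ⊆ N n ∩ g b ∧ Pos g N c n b (P n)) ∧
    ∀ X : Set K, X ⊆ {β : K | g β ∩ N j = g b ∩ N j} → #X = c i →
      ∀ m, ∃ n ≥ m, ¬ Pos g N c n b {z | z ∈ P n ∧ ∀ β ∈ X, z ∈ g β} := by
  classical
  by_contra hcon
  push Not at hcon
  let V : Type u := {s : (ℕ → Set K) × ℕ // ∀ n ≥ s.2, s.1 n ⊆ N n ∩ g b ∧ Pos g N c n b (s.1 n)}
  have hstep : ∀ (k : ℕ) (s : V), ∃ (X : Set K) (s' : V),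
      X ⊆ {β : K | g β ∩ N s.1.2 = g b ∩ N s.1.2} ∧ #X = c k ∧
      (∀ n, s'.1.1 n ⊆ s.1.1 n) ∧ (∀ n, ∀ z ∈ s'.1.1 n, ∀ β ∈ X, z ∈ g β) ∧ s.1.2 < s'.1.2 := by
    intro k s
    obtain ⟨X, h1, h2, m, hm⟩ := hcon s.1.1 s.1.2 k s.1.2 s.2
    refine ⟨X, ⟨(fun n => {z | z ∈ s.1.1 n ∧ ∀ β ∈ X, z ∈ g β}, max m (s.1.2 + 1)), ?_⟩,
      h1, h2, fun n z hz => hz.1, fun n z hz => hz.2, ?_⟩
    · intro n hn
      have h3 : m ≤ n := (le_max_left _ _).trans hn
      have h4 : s.1.2 + 1 ≤ n := (le_max_right _ _).trans hn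
      exact ⟨fun z hz => (s.2 n (by omega)).1 hz.1, hm n h3⟩
    · exact lt_of_lt_of_le (Nat.lt_succ_self _) (le_max_right _ _)
  choose X s' h1 h2 h3 h4 h5 using hstep
  obtain ⟨m0, hm0⟩ := C.start hfree hb
  let s0 : V := ⟨(fun n => N n ∩ g b, m0), fun n hn => ⟨subset_rfl, hm0 n hn⟩⟩
  let S : ℕ → V := fun n => Nat.rec (motive := fun _ => V) s0 (fun n s => s' n s) n
  have hS : ∀ n, S (n + 1) = s' n (S n) := fun n => rfl
  have hmS : StrictMono (fun n => (S n).1.2) := strictMono_nat_of_lt_succ fun n => by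
    rw [hS]
    exact h5 n (S n)
  have hPS : ∀ n m k, n ≤ m → (S m).1.1 k ⊆ (S n).1.1 k := by
    intro n m k hnm
    induction m, hnm using Nat.le_induction with
    | base => exact subset_rfl
    | succ m hm ih =>
      refine subset_trans ?_ ih
      rw [hS]
      exact h3 m (S m) k
  let XX : Set K := ⋃ k, X k (S k)
  let YY : Set K := ⋃ k, (S k).1.1 (S k).1.2
  have hXY : ∀ β ∈ XX, ∀ z ∈ YY, z ∈ g β := by
    intro β hβ z hz
    obtain ⟨i, hi⟩ := mem_iUnion.1 hβ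
    obtain ⟨k, hk⟩ := mem_iUnion.1 hz
    rcases le_or_gt k i with hki | hki
    · have h6 := (((S k).2 (S k).1.2 le_rfl).1 hk)
      have h7 : z ∈ g b ∩ N (S i).1.2 := ⟨h6.2, C.hNm (hmS.monotone hki) h6.1⟩
      rw [← (h1 i (S i) hi : g β ∩ N (S i).1.2 = g b ∩ N (S i).1.2)] at h7
      exact h7.1
    · have h6 := hPS (i + 1) k (S k).1.2 hki hk
      rw [hS] at h6
      exact h4 i (S i) _ z h6 β hi
  have hX : l ≤ #XX := C.l_le fun n => ⟨n, le_rfl, by
    rw [← h2 n (S n)]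
    exact mk_le_mk_of_subset (subset_iUnion (fun k => X k (S k)) n)⟩
  have hY : l ≤ #YY := C.l_le fun n => ⟨(S n).1.2, hmS.id_le n, by
    have h6 := (S n).2 (S n).1.2 le_rfl
    exact (C.pos_card (h6.1.trans inter_subset_left) h6.2).le.trans
      (mk_le_mk_of_subset (subset_iUnion (fun k => (S k).1.1 (S k).1.2) n))⟩
  obtain ⟨X', hX', hX'c⟩ := (le_mk_iff_exists_subset).1 hX
  have h8 := C.hH X' hX'c
  refine absurd (hY.trans (mk_le_mk_of_subset ?_)) (not_le.2 h8)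
  intro z hz β hβ
  exact hXY β (hX' hβ) z hz

end ctx2

/-- a homogeneous set with a top point -/
lemma er {X : Type u} [LinearOrder X] [WellFoundedLT X] (τ : Cardinal.{u}) (hτ : ℵ₀ ≤ τ)
    (hX : (2 : Cardinal.{u}) ^ τ < #X) (col : X → X → ℕ) :
    ∃ (top : X) (H : Set X) (d : ℕ), τ < #H ∧ (∀ t ∈ H, t < top) ∧ (∀ t ∈ H, col t top = d) ∧
      (∀ s ∈ H, ∀ t ∈ H, s < t → col s t = d) := by
  classical
  let W : Type u := (Order.succ τ).ord.ToType
  have hW : #W = Order.succ τ := by simp [W]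
  have hseg : ∀ w : W, #(Iio w) ≤ τ := by
    intro w
    have h1 : #(Iio w) < Order.succ τ := Cardinal.mk_Iio_toType_ord_lt w
    exact Order.lt_succ_iff.1 h1
  let good : X → ∀ w : W, (∀ v : W, v < w → X) → Set X := fun x w G =>
    {y | ∀ (v : W) (hv : v < w), G v hv < y ∧ col (G v hv) y = col (G v hv) x}
  let step : X → ∀ w : W, (∀ v : W, v < w → X) → X := fun x w G =>
    if h : (good x w G).Nonempty then (wellFounded_lt (α := X)).min _ h else x
  let h : X → W → X := fun x => (wellFounded_lt (α := W)).fix (step x)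
  have hh : ∀ x w, h x w = step x w (fun v _ => h x v) := fun x w =>
    (wellFounded_lt (α := W)).fix_eq (step x) w
  have claim1 : ∀ x w, (∀ v < w, h x v < x) →
      (∀ v < w, h x v < h x w ∧ col (h x v) (h x w) = col (h x v) x) ∧ h x w ≤ x := by
    intro x w hv
    have hx : x ∈ good x w (fun v _ => h x v) := fun v hv' => ⟨hv v hv', rfl⟩
    have hne : (good x w (fun v _ => h x v)).Nonempty := ⟨x, hx⟩
    have h1 : h x w = (wellFounded_lt (α := X)).min _ hne := by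
      rw [hh]
      simp only [step]
      rw [dif_pos hne]
    have h2 := (wellFounded_lt (α := X)).min_mem _ hne
    have h3 := (wellFounded_lt (α := X)).not_lt_min _ hx
    rw [← h1] at h2
    exact ⟨fun v hv' => h2 v hv', by
      rw [h1]
      exact not_lt.1 h3⟩
  by_cases hcase : ∃ x, ∀ w, h x w < x
  · obtain ⟨x, hx⟩ := hcase
    have hreg : (Order.succ τ).IsRegular := isRegular_succ hτ
    obtain ⟨d, hd⟩ := infinite_pigeonhole_card
      (fun w : W => (ULift.up.{u} (col (h x w) x) : ULift.{u} ℕ)) (Order.succ τ) hW.ge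
      (hτ.trans (Order.le_succ τ)) (by
        rw [hreg.cof_ord, mk_uLift, mk_nat, lift_aleph0]
        exact Order.lt_succ_of_le hτ)
    have hmono : ∀ v w, v < w → h x v < h x w := fun v w hvw =>
      ((claim1 x w fun v _ => hx v).1 v hvw).1
    have hinj : Function.Injective (h x) := by
      intro v w hvw
      rcases lt_trichotomy v w with h1 | h1 | h1
      · exact absurd hvw (hmono v w h1).ne
      · exact h1
      · exact absurd hvw (hmono w v h1).ne'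
    refine ⟨x, h x '' ((fun w : W => (ULift.up.{u} (col (h x w) x) : ULift.{u} ℕ)) ⁻¹' {d}),
      d.down, ?_, ?_, ?_, ?_⟩
    · rw [mk_image_eq hinj]
      exact Order.succ_le_iff.1 hd
    · rintro _ ⟨w, -, rfl⟩
      exact hx w
    · rintro _ ⟨w, hw, rfl⟩
      exact congrArg ULift.down hw
    · rintro _ ⟨v, hv, rfl⟩ _ ⟨w, hw, rfl⟩ hvw
      have h1 : v < w := by
        rcases lt_trichotomy v w with h1 | h1 | h1
        · exact h1
        · rw [h1] at hvw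
          exact absurd hvw (lt_irrefl _)
        · exact absurd hvw (hmono w v h1).asymm
      rw [((claim1 x w fun v _ => hx v).1 v h1).2]
      exact congrArg ULift.down hv
  · push Not at hcase
    exfalso
    have hex : ∀ x, ∃ w, h x w = x ∧ ∀ v < w, h x v < x := by
      intro x
      have hne : {w | x ≤ h x w}.Nonempty := hcase x
      refine ⟨(wellFounded_lt (α := W)).min _ hne, ?_, ?_⟩
      · have h1 : ∀ v < (wellFounded_lt (α := W)).min _ hne, h x v < x := by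
          intro v hv
          by_contra hcon
          exact (wellFounded_lt (α := W)).not_lt_min _ (show v ∈ {w | x ≤ h x w} from not_lt.1 hcon) hv
        exact le_antisymm (claim1 x _ h1).2 ((wellFounded_lt (α := W)).min_mem _ hne)
      · intro v hv
        by_contra hcon
        exact (wellFounded_lt (α := W)).not_lt_min _ (show v ∈ {w | x ≤ h x w} from not_lt.1 hcon) hv
    choose ix h1 h2 using hex
    let P := {s : Set (W × ULift.{u} ℕ) // #s ≤ τ}
    let code : X → W × P := fun x =>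
      (ix x, ⟨(fun v => (v, ULift.up (col (h x v) x))) '' (Iio (ix x)), mk_image_le.trans (hseg _)⟩)
    have hinj : Function.Injective code := by
      intro x y hxy
      have e1 : ix x = ix y := congrArg Prod.fst hxy
      have e2 : (fun v => (v, ULift.up (col (h x v) x))) '' (Iio (ix x)) =
        (fun v => (v, ULift.up.{u} (col (h y v) y))) '' (Iio (ix y)) :=
          congrArg (fun p : W × P => p.2.1) hxy
      have e3 : ∀ v < ix x, col (h x v) x = col (h y v) y := by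
        intro v hv
        have : (v, ULift.up.{u} (col (h x v) x)) ∈
            (fun v => (v, ULift.up.{u} (col (h y v) y))) '' (Iio (ix y)) := by
          rw [← e2]
          exact ⟨v, hv, rfl⟩
        obtain ⟨v', hv', hvv⟩ := this
        simp only [Prod.mk.injEq, ULift.up.injEq] at hvv
        obtain ⟨rfl, h4⟩ := hvv
        exact h4.symm
      have e4 : ∀ w, w ≤ ix x → h x w = h y w := by
        intro w
        induction w using WellFoundedLT.induction with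
        | ind w ih =>
          intro hw
          have hne : (good x w (fun v _ => h x v)).Nonempty :=
            ⟨x, fun v hv => ⟨h2 x v (hv.trans_le hw), rfl⟩⟩
          have e5 : good x w (fun v _ => h x v) = good y w (fun v _ => h y v) := by
            ext z
            simp only [good, mem_ofPred_eq]
            refine forall_congr' fun v => forall_congr' fun hv => ?_
            have e6 := e3 v (lt_of_lt_of_le hv hw)
            rw [ih v hv (hv.le.trans hw)] at e6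
            rw [ih v hv (hv.le.trans hw), e6]
          have hne' : (good y w (fun v _ => h y v)).Nonempty := e5 ▸ hne
          rw [hh, hh]
          simp only [step]
          rw [dif_pos hne, dif_pos hne']
          simp only [e5]
      have := e4 (ix x) le_rfl
      rw [h1] at this
      rw [e1, h1] at this
      exact this
    have h2τ : ℵ₀ ≤ (2 : Cardinal.{u}) ^ τ := hτ.trans (cantor τ).le
    have hsucc : Order.succ τ ≤ 2 ^ τ := Order.succ_le_of_lt (cantor τ)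
    have hWN : #(W × ULift.{u} ℕ) ≤ 2 ^ τ := by
      rw [mk_prod, lift_id, hW, mk_uLift, mk_nat, lift_aleph0, lift_aleph0]
      exact (mul_le_mul' hsucc h2τ).trans (mul_eq_self h2τ).le
    have hP : #P ≤ 2 ^ τ := by
      refine (mk_bounded_set_le (W × ULift.{u} ℕ) τ).trans ?_
      calc (max #(W × ULift.{u} ℕ) ℵ₀) ^ τ ≤ (2 ^ τ) ^ τ := power_le_power_right (max_le hWN h2τ)
        _ = 2 ^ (τ * τ) := by rw [← power_mul]
        _ = 2 ^ τ := by rw [mul_eq_self hτ]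
    have hall : #X ≤ 2 ^ τ := by
      refine (mk_le_of_injective hinj).trans ?_
      rw [mk_prod, lift_id, lift_id, hW]
      exact (mul_le_mul' hsucc hP).trans (mul_eq_self h2τ).le
    exact absurd hX (not_lt.2 hall)

section step
variable {K : Type u} [LinearOrder K] {g : K → Set K} {N : ℕ → Set K}
    {c : ℕ → Cardinal.{u}} {l : Cardinal.{u}}

structure Good (g : K → Set K) (N : ℕ → Set K) (c : ℕ → Cardinal.{u}) (l : Cardinal.{u})
    (Ws : Set K) (P : K → ℕ → Set K) (m1 i j : ℕ) : Prop where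
  pos : ∀ t ∈ Ws, ∀ n ≥ m1, P t n ⊆ N n ∩ g t ∧ Pos g N c n t (P t n)
  neg : ∀ t ∈ Ws, ∀ X : Set K, X ⊆ {β : K | g β ∩ N j = g t ∩ N j} → #X = c i → ∀ m, ∃ n ≥ m,
    ¬ Pos g N c n t {z | z ∈ P t n ∧ ∀ β ∈ X, z ∈ g β}
  tr : ∀ s ∈ Ws, ∀ t ∈ Ws, g s ∩ N j = g t ∩ N j
  big : ∀ t ∈ Ws, ∀ n, Order.succ l ≤ #{s : K | s ∈ Ws ∧ g s ∩ N n = g t ∩ N n}

/-- choice of the points at a fixed level -/
lemma Ctx.level [WellFoundedLT K] (C : Ctx g N c l) {Ws : Set K} {P : K → ℕ → Set K}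
    {m1 i j : ℕ} (G : Good g N c l Ws P m1 i j) (X F : Set K) (m : ℕ) (hm : m1 ≤ m)
    (hXW : X ⊆ Ws) (hX : (2 : Cardinal.{u}) ^ #X ≤ c m) (hF : #F ≤ c m) (hFN : F ⊆ N m)
    (hFX : ∀ x ∈ F, ∀ t ∈ X, x ∉ g t) :
    ∃ z : X → K, ∀ t : X, z t ∈ P t m ∧
      (∀ X' ⊆ X, ¬ Pos g N c m t {z | z ∈ P t m ∧ ∀ β ∈ X', z ∈ g β} → ∃ β ∈ X', z t ∉ g β) ∧
      (∀ s < t, z s ∉ g t → z s < z t ∧ z s ∉ g (z t)) ∧ ∀ x ∈ F, x < z t ∧ x ∉ g (z t) := by
  classical
  rcases isEmpty_or_nonempty X with hE | ⟨⟨t0⟩⟩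
  · exact ⟨fun t => (hE.false t).elim, fun t => (hE.false t).elim⟩
  have hcm := C.hc0 m
  have hXm : #X ≤ c m := (cantor #X).le.trans hX
  let good : ∀ t : X, (∀ s : X, s < t → K) → K → Prop := fun t G y => y ∈ P t m ∧
      (∀ X' ⊆ X, ¬ Pos g N c m t {z | z ∈ P t m ∧ ∀ β ∈ X', z ∈ g β} → ∃ β ∈ X', y ∉ g β) ∧
      (∀ (s : X) (hs : s < t), G s hs ∉ g t → G s hs < y ∧ G s hs ∉ g y) ∧
      ∀ x ∈ F, x < y ∧ x ∉ g y
  let step : ∀ t : X, (∀ s : X, s < t → K) → K := fun t G =>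
    if h : ∃ y, good t G y then h.choose else t0
  let z : X → K := (wellFounded_lt (α := X)).fix step
  have hz : ∀ t, z t = step t (fun s _ => z s) := fun t =>
    (wellFounded_lt (α := X)).fix_eq step t
  have key : ∀ t, good t (fun s _ => z s) (z t) := by
    intro t
    induction t using WellFoundedLT.induction with
    | ind t ih =>
      have hex : ∃ y, good t (fun s _ => z s) y := by
        let Fam : Set (Set K) := {Z | ∃ X' ⊆ X, Z = {z | z ∈ P t m ∧ ∀ β ∈ X', z ∈ g β} ∧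
          ¬ Pos g N c m t Z}
        have hFam : #Fam ≤ c m := by
          refine le_trans ?_ hX
          rw [← mk_powerset]
          refine (mk_le_mk_of_subset (t := (fun X' : Set K =>
            {z | z ∈ P t m ∧ ∀ β ∈ X', z ∈ g β}) '' (𝒫 X)) ?_).trans mk_image_le
          rintro Z ⟨X', hX', rfl, -⟩
          exact ⟨X', hX', rfl⟩
        have h1 := (G.pos t (hXW t.2) m hm).2.diff hcm Fam hFam (by
          rintro Z ⟨X', -, -, h⟩
          exact h)
        let A : Set K := {x | ∃ s : X, s < t ∧ z s ∉ g t ∧ x = z s} ∪ F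
        have hAN : A ⊆ N m := by
          rintro x (⟨s, hs, -, rfl⟩ | hx)
          · exact ((G.pos s (hXW s.2) m hm).1 (ih s hs).1).1
          · exact hFN hx
        have hAc : #A ≤ c m := by
          refine (mk_union_le _ _).trans ((add_le_add ?_ hF).trans (add_eq_self hcm).le)
          refine le_trans ?_ hXm
          refine (mk_le_mk_of_subset (t := range z) ?_).trans mk_range_le
          rintro x ⟨s, -, -, rfl⟩
          exact ⟨s, rfl⟩
        obtain ⟨y, ⟨hy, hy'⟩, hyB, hyA⟩ := h1 A A hAN hAN hAc hAc (by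
          rintro x (⟨s, hs, h2, rfl⟩ | hx)
          · exact h2
          · exact hFX x hx t t.2)
        refine ⟨y, hy, ?_, ?_, ?_⟩
        · intro X' hX' hn
          by_contra hcon
          push Not at hcon
          exact hy' ⟨_, ⟨X', hX', rfl, hn⟩, hy, hcon⟩
        · intro s hs hst
          have : z s ∈ A := Or.inl ⟨s, hs, hst, rfl⟩
          exact ⟨hyB _ this, hyA _ this⟩
        · intro x hx
          exact ⟨hyB _ (Or.inr hx), hyA _ (Or.inr hx)⟩
      rw [hz t]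
      have : step t (fun s _ => z s) = hex.choose := by
        simp only [step]
        rw [dif_pos hex]
      rw [this]
      exact hex.choose_spec
  exact ⟨z, fun t => key t⟩

lemma Ctx.step [WellFoundedLT K] (C : Ctx g N c l) {Ws : Set K} {P : K → ℕ → Set K}
    {m1 i j : ℕ} (G : Good g N c l Ws P m1 i j) (n : ℕ) (ts : K) (hts : ts ∈ Ws) (F : Set K)
    (hFN : F ⊆ N n) (hF : IsFree g F) (hFt : ∀ x ∈ F, x ∉ g ts) (τ : Cardinal.{u})
    (hτ : c i ≤ τ) (hτl : τ < l) :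
    ∃ (n' : ℕ) (ts' : K) (F' : Set K), n ≤ n' ∧ ts' ∈ Ws ∧ F' ⊆ N n' ∧ IsFree g F' ∧
      (∀ x ∈ F', x ∉ g ts') ∧ F ⊆ F' ∧ τ ≤ #F' := by
  classical
  have hτ0 : ℵ₀ ≤ τ := (C.hc0 i).trans hτ
  have hl0 : ℵ₀ ≤ l := C.l_inf
  -- the set X
  have h2 : Order.succ ((2 : Cardinal.{u}) ^ τ) ≤ #{s : K | s ∈ Ws ∧ g s ∩ N n = g ts ∩ N n} :=
    (Order.succ_le_succ (C.hst τ hτl).le).trans (G.big ts hts n)
  obtain ⟨X, hXsub, hXc⟩ := (le_mk_iff_exists_subset).1 h2
  have hXW : X ⊆ Ws := fun x hx => (hXsub hx).1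
  have hXtr : ∀ t ∈ X, g t ∩ N n = g ts ∩ N n := fun x hx => (hXsub hx).2
  have hXl : #X < l := by
    rw [hXc]
    exact (Order.succ_le_of_lt (cantor _)).trans_lt (C.hst _ (C.hst _ hτl))
  obtain ⟨m2a, hm2a⟩ := C.hcs _ (C.hst _ hXl)
  obtain ⟨m2b, hm2b⟩ := C.hcs _ (C.hN n)
  let m2 := max (max m2a m2b) (max n m1)
  have hm2c : ∀ m ≥ m2, (2 : Cardinal.{u}) ^ #X ≤ c m := fun m hm =>
    hm2a.trans (C.hcm.monotone (by omega))
  have hm2d : ∀ m ≥ m2, #F ≤ c m := fun m hm =>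
    (mk_le_mk_of_subset hFN).trans (hm2b.trans (C.hcm.monotone (by omega)))
  have hFX : ∀ x ∈ F, ∀ t ∈ X, x ∉ g t := by
    intro x hx t ht hxt
    have h3 : x ∈ g t ∩ N n := ⟨hxt, hFN hx⟩
    rw [hXtr t ht] at h3
    exact hFt x hx h3.1
  have hlev : ∀ m : ℕ, ∃ z : X → K, m2 ≤ m → ∀ t : X, z t ∈ P t m ∧
      (∀ X' ⊆ X, ¬ Pos g N c m t {z | z ∈ P t m ∧ ∀ β ∈ X', z ∈ g β} → ∃ β ∈ X', z t ∉ g β) ∧
      (∀ s < t, z s ∉ g t → z s < z t ∧ z s ∉ g (z t)) ∧ ∀ x ∈ F, x < z t ∧ x ∉ g (z t) := by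
    intro m
    by_cases hm : m2 ≤ m
    · obtain ⟨z, hz⟩ := C.level G X F m (by omega) hXW (hm2c m hm) (hm2d m hm)
        (hFN.trans (C.hNm (by omega))) hFX
      exact ⟨z, fun _ => hz⟩
    · exact ⟨fun t => t, fun h => absurd h hm⟩
  choose z hz using hlev
  let col : X → X → ℕ := fun s t =>
    if h : ∃ m, m2 ≤ m ∧ z m s ∉ g t then Nat.find h + 1 else 0
  obtain ⟨top, H, d, hH, htop, hcol1, hcol2⟩ := er (X := X) τ hτ0 (by
    rw [hXc]
    exact Order.lt_succ _) col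
  rcases Nat.eq_zero_or_pos d with rfl | hd
  · -- no colour: contradiction
    exfalso
    have hHne : H.Nonempty := by
      rw [← nonempty_coe_sort, ← mk_ne_zero_iff]
      exact (aleph0_pos.trans_le (hτ0.trans hH.le)).ne'
    have ht0 := (wellFounded_lt (α := X)).min_mem H hHne
    set t0 := (wellFounded_lt (α := X)).min H hHne with ht0def
    have hH' : c i ≤ #{t : K | ∃ h : t ∈ X, (⟨t, h⟩ : X) ∈ H ∧ t0 < ⟨t, h⟩} := by
      by_contra hcon
      have hcon' := not_le.1 hcon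
      have h3 : H ⊆ insert t0 {t : X | t ∈ H ∧ t0 < t} := by
        intro t ht
        rcases eq_or_ne t t0 with h | h
        · exact Or.inl h
        · refine Or.inr ⟨ht, lt_of_le_of_ne ?_ h.symm⟩
          exact not_lt.1 ((wellFounded_lt (α := X)).not_lt_min _ ht)
      have h4 : #H ≤ #{t : X | t ∈ H ∧ t0 < t} + 1 :=
        (mk_le_mk_of_subset h3).trans mk_insert_le
      have h5 : #{t : X | t ∈ H ∧ t0 < t} ≤
          #{t : K | ∃ h : t ∈ X, (⟨t, h⟩ : X) ∈ H ∧ t0 < ⟨t, h⟩} := by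
        refine mk_le_of_injective (f := fun t => ⟨t.1.1, t.1.2, t.2.1, t.2.2⟩) ?_
        intro a b hab
        simp only [Subtype.mk.injEq] at hab
        exact Subtype.ext (Subtype.ext hab)
      have h6 : #H ≤ c i := h4.trans ((add_le_add (h5.trans hcon'.le)
        (one_le_aleph0.trans (C.hc0 i))).trans (add_eq_self (C.hc0 i)).le)
      exact absurd (hH.trans_le h6) (not_lt.2 hτ)
    obtain ⟨X', hX'sub, hX'c⟩ := (le_mk_iff_exists_subset).1 hH'
    obtain ⟨m, hm, hneg⟩ := G.neg t0 (hXW t0.2) X' (by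
      intro β hβ
      obtain ⟨h, -, -⟩ := hX'sub hβ
      exact G.tr β (hXW h) t0 (hXW t0.2)) hX'c m2
    obtain ⟨β, hβ, hβ'⟩ := (hz m hm t0).2.1 X' (fun β hβ => (hX'sub hβ).1) hneg
    obtain ⟨h, h3, h4⟩ := hX'sub hβ
    have h5 := hcol2 t0 ht0 ⟨β, h⟩ h3 h4
    have h6 : ∃ m, m2 ≤ m ∧ z m t0 ∉ g β := ⟨m, hm, hβ'⟩
    simp only [col] at h5
    rw [dif_pos h6] at h5
    omega
  · obtain ⟨m, rfl⟩ : ∃ m, d = m + 1 := ⟨d - 1, by omega⟩
    have hcol : ∀ s t : X, col s t = m + 1 → m2 ≤ m ∧ z m s ∉ g t := by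
      intro s t hst
      simp only [col] at hst
      split_ifs at hst with h
      have h3 : Nat.find h = m := by omega
      rw [← h3]
      exact Nat.find_spec h
    have hHne : H.Nonempty := by
      rw [← nonempty_coe_sort, ← mk_ne_zero_iff]
      exact (aleph0_pos.trans_le (hτ0.trans hH.le)).ne'
    obtain ⟨t1, ht1⟩ := hHne
    have hm : m2 ≤ m := (hcol _ _ (hcol1 t1 ht1)).1
    have hzN : ∀ t : X, z m t ∈ N m := fun t =>
      ((G.pos t (hXW t.2) m (by omega)).1 (hz m hm t).1).1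
    have hpair : ∀ s ∈ H, ∀ t ∈ H, s < t → z m s < z m t ∧ z m s ∉ g (z m t) :=
      fun s hs t ht hst => (hz m hm t).2.2.1 s hst (hcol s t (hcol2 s hs t ht hst)).2
    refine ⟨m, top, F ∪ (z m '' H), by omega, hXW top.2, ?_, ?_, ?_, subset_union_left, ?_⟩
    · refine union_subset (hFN.trans (C.hNm (by omega))) ?_
      rintro _ ⟨t, -, rfl⟩
      exact hzN t
    · rintro x (hx | ⟨s, hs, rfl⟩) y (hy | ⟨t, ht, rfl⟩)
      · exact hF x hx y hy
      · exact ((hz m hm t).2.2.2 x hx).2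
      · exact fun h => lt_asymm ((hz m hm s).2.2.2 y hy).1 (C.hg _ h)
      · rcases lt_trichotomy s t with h | h | h
        · exact (hpair s hs t ht h).2
        · rw [h]
          exact fun h => lt_irrefl _ (C.hg _ h)
        · exact fun h' => lt_asymm (hpair t ht s hs h).1 (C.hg _ h')
    · rintro x (hx | ⟨s, hs, rfl⟩)
      · exact hFX x hx top top.2
      · exact (hcol s top (hcol1 s hs)).2
    · refine hH.le.trans ?_
      have hinj : InjOn (z m) H := by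
        intro s hs t ht hst
        rcases lt_trichotomy s t with h | h | h
        · exact absurd hst (hpair s hs t ht h).1.ne
        · exact h
        · exact absurd hst (hpair t ht s hs h).1.ne'
      rw [← mk_image_eq_of_injOn _ _ hinj]
      exact mk_le_mk_of_subset subset_union_right

end step

section finish
variable {K : Type u} [LinearOrder K] {g : K → Set K} {N : ℕ → Set K}
    {c : ℕ → Cardinal.{u}} {l : Cardinal.{u}}

lemma Ctx.finish [WellFoundedLT K] (C : Ctx g N c l) {Ws : Set K} {P : K → ℕ → Set K}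
    {m1 i j : ℕ} (G : Good g N c l Ws P m1 i j) (hne : Ws.Nonempty) :
    ∃ F : Set K, #F = l ∧ IsFree g F := by
  classical
  let V : Type u := {s : ℕ × K × Set K // s.2.1 ∈ Ws ∧ s.2.2 ⊆ N s.1 ∧ IsFree g s.2.2 ∧
    ∀ x ∈ s.2.2, x ∉ g s.2.1}
  have hstep : ∀ (k : ℕ) (s : V), ∃ s' : V, s.1.2.2 ⊆ s'.1.2.2 ∧ c (i + k) ≤ #s'.1.2.2 := by
    rintro k ⟨⟨n, ts, F⟩, h1, h2, h3, h4⟩
    obtain ⟨n', ts', F', -, h5, h6, h7, h8, h9, h10⟩ := C.step G n ts h1 F h2 h3 h4 (c (i + k))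
      (C.hcm.monotone (by omega)) (C.hcl _)
    exact ⟨⟨⟨n', ts', F'⟩, h5, h6, h7, h8⟩, h9, h10⟩
  choose nxt h1 h2 using hstep
  obtain ⟨t0, ht0⟩ := hne
  let s0 : V := ⟨(0, t0, ∅), ht0, empty_subset _, by intro x hx; exact hx.elim,
    by intro x hx; exact hx.elim⟩
  let S : ℕ → V := fun n => Nat.rec (motive := fun _ => V) s0 (fun n s => nxt n s) n
  have hS : ∀ n, S (n + 1) = nxt n (S n) := fun n => rfl
  have hmono : Monotone (fun n => (S n).1.2.2) := monotone_nat_of_le_succ fun n => by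
    rw [hS]
    exact h1 n (S n)
  let F : Set K := ⋃ n, (S n).1.2.2
  have hF : IsFree g F := by
    intro x hx y hy
    obtain ⟨n, hn⟩ := mem_iUnion.1 hx
    obtain ⟨m, hm⟩ := mem_iUnion.1 hy
    exact (S (max n m)).2.2.2.1 x (hmono (le_max_left n m) hn) y (hmono (le_max_right n m) hm)
  have hbig : l ≤ #F := C.l_le fun n => ⟨i + n, by omega, by
    refine (h2 n (S n)).trans ?_
    rw [← hS]
    exact mk_le_mk_of_subset (subset_iUnion (fun n => (S n).1.2.2) (n + 1))⟩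
  obtain ⟨F', hF', hF'c⟩ := (le_mk_iff_exists_subset).1 hbig
  exact ⟨F', hF'c, fun x hx y hy => hF x (hF' hx) y (hF' hy)⟩

lemma pigeon {l : Cardinal.{u}} (hl0 : ℵ₀ ≤ l) {T : Type u} {K : Type u} (A : Set K)
    (hA : Order.succ l ≤ #A) (f : K → T) (hf : #(range f) ≤ l) :
    ∃ t, Order.succ l ≤ #{x : K | x ∈ A ∧ f x = t} := by
  by_contra hcon
  push Not at hcon
  have h1 : A ⊆ ⋃ t : range f, {x : K | x ∈ A ∧ f x = t.1} := fun x hx =>
    mem_iUnion.2 ⟨⟨f x, ⟨x, rfl⟩⟩, hx, rfl⟩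
  have h2 : #A ≤ l := (mk_le_mk_of_subset h1).trans ((mk_iUnion_le _).trans
    ((mul_le_mul' hf (ciSup_le' fun t : range f => Order.lt_succ_iff.1 (hcon t.1))).trans
      (mul_eq_self hl0).le))
  exact absurd hA (not_le.2 (Order.lt_succ_of_le h2))

lemma big_diff {l : Cardinal.{u}} (hl0 : ℵ₀ ≤ l) {K : Type u} (A B D : Set K)
    (hA : Order.succ l ≤ #A) (hD : #D ≤ l) (h : A ⊆ B ∪ D) : Order.succ l ≤ #B := by
  by_contra hcon
  have h1 : #B ≤ l := Order.lt_succ_iff.1 (not_le.1 hcon)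
  have h2 : #A ≤ l := (mk_le_mk_of_subset h).trans ((mk_union_le _ _).trans
    ((add_le_add h1 hD).trans (add_eq_self hl0).le))
  exact absurd hA (not_le.2 (Order.lt_succ_of_le h2))

/-- pigeonhole -/
lemma Ctx.main [WellFoundedLT K] (C : Ctx g N c l) : ∃ F : Set K, #F = l ∧ IsFree g F := by
  classical
  by_contra hfree
  have hl0 : ℵ₀ ≤ l := C.l_inf
  have hreg : (Order.succ l).IsRegular := isRegular_succ hl0
  -- bound for all N n
  have hUN : #(⋃ n, N n : Set K) ≤ l := by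
    have h1 : #(⋃ n : ULift.{u} ℕ, N n.down : Set K) ≤ l := by
      refine (mk_iUnion_le _).trans ?_
      refine (mul_le_mul' ?_ (ciSup_le' fun n => (C.hN _).le)).trans (mul_eq_self hl0).le
      rw [mk_uLift, mk_nat, lift_aleph0]
      exact hl0
    refine le_trans (mk_le_mk_of_subset ?_) h1
    refine iUnion_subset fun n => ?_
    exact subset_iUnion (fun n : ULift.{u} ℕ => N n.down) ⟨n⟩
  -- complement of a small union of initial segments
  have hδ : ∃ D : Set K, #D ≤ l ∧ ∀ b ∉ D, ∀ n, ∀ x ∈ N n, x < b := by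
    refine ⟨⋃ x : (⋃ n, N n : Set K), Iic x.1, ?_, ?_⟩
    · refine (mk_iUnion_le _).trans ?_
      refine (mul_le_mul' hUN (ciSup_le' fun x => ?_)).trans (mul_eq_self hl0).le
      rw [← Iio_insert]
      exact mk_insert_le.trans ((add_le_add (C.hseg x.1) (one_le_aleph0.trans hl0)).trans
        (add_eq_self hl0).le)
    · intro b hb n x hx
      by_contra hcon
      exact hb (mem_iUnion.2 ⟨⟨x, mem_iUnion.2 ⟨n, hx⟩⟩, not_lt.1 hcon⟩)
  obtain ⟨D, hD, hDb⟩ := hδ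
  have hch : ∀ b : K, ∃ (P : ℕ → Set K) (m1 i j : ℕ), b ∉ D →
      (∀ n ≥ m1, P n ⊆ N n ∩ g b ∧ Pos g N c n b (P n)) ∧
      ∀ X : Set K, X ⊆ {β : K | g β ∩ N j = g b ∩ N j} → #X = c i →
      ∀ m, ∃ n ≥ m, ¬ Pos g N c n b {z | z ∈ P n ∧ ∀ β ∈ X, z ∈ g β} := by
    intro b
    by_cases hb : b ∈ D
    · exact ⟨fun _ => ∅, 0, 0, 0, fun h => absurd hb h⟩
    · obtain ⟨P, m1, i, j, h⟩ := C.c2 hfree (hDb b hb)
      exact ⟨P, m1, i, j, fun _ => h⟩
  choose P m1 i j hP using hch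
  -- traces
  have htr : ∀ n, #(range fun b : K => g b ∩ N n) ≤ l := by
    intro n
    have h1 : (range fun b : K => g b ∩ N n) ⊆ 𝒫 (N n) := by
      rintro _ ⟨b, rfl⟩
      exact inter_subset_right
    refine (mk_le_mk_of_subset h1).trans ?_
    rw [mk_powerset]
    exact (C.hst _ (C.hN n)).le
  have hA0 : Order.succ l ≤ #(Dᶜ : Set K) := by
    refine big_diff hl0 univ _ D ?_ hD (by rw [compl_union_self])
    rw [mk_univ, C.hK]
  obtain ⟨Wst, hA2, m0, i0, j0, T, hprop⟩ : ∃ Wst : Set K, Order.succ l ≤ #Wst ∧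
      ∃ (m0 i0 j0 : ℕ) (T : Set K), ∀ t ∈ Wst, t ∉ D ∧ m1 t = m0 ∧ i t = i0 ∧ j t = j0 ∧
        g t ∩ N j0 = T := by
    obtain ⟨⟨⟨m0, i0, j0⟩⟩, hA1⟩ := pigeon hl0 _ hA0
      (fun b => (ULift.up.{u} (m1 b, i b, j b) : ULift.{u} (ℕ × ℕ × ℕ))) (by
        refine (mk_set_le _).trans ?_
        rw [mk_uLift, mk_eq_aleph0 (ℕ × ℕ × ℕ), lift_aleph0]
        exact hl0)
    obtain ⟨T, hA2⟩ := pigeon hl0 _ hA1 (fun b => g b ∩ N j0) (htr j0)
    refine ⟨_, hA2, m0, i0, j0, T, ?_⟩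
    rintro t ⟨⟨h1, h2⟩, h3⟩
    have h4 := congrArg ULift.down h2
    simp only [Prod.mk.injEq] at h4
    exact ⟨h1, h4.1, h4.2.1, h4.2.2, h3⟩
  let Bad : ℕ → Set K := fun n => {t | t ∈ Wst ∧ #{s : K | s ∈ Wst ∧ g s ∩ N n = g t ∩ N n} ≤ l}
  have hBad : ∀ n, #(Bad n) ≤ l := by
    intro n
    by_contra hcon
    obtain ⟨T', hT'⟩ := pigeon hl0 (Bad n) (Order.succ_le_of_lt (not_le.1 hcon))
      (fun b => g b ∩ N n) (htr n)
    have hne : {x : K | x ∈ Bad n ∧ g x ∩ N n = T'}.Nonempty := by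
      rw [← nonempty_coe_sort, ← mk_ne_zero_iff]
      exact (lt_of_lt_of_le (lt_of_le_of_lt bot_le (Order.lt_succ l)) hT').ne'
    obtain ⟨x, hx, hxT⟩ := hne
    have h1 : {x : K | x ∈ Bad n ∧ g x ∩ N n = T'} ⊆ {s : K | s ∈ Wst ∧ g s ∩ N n = g x ∩ N n} := by
      rintro s ⟨hs, hsT⟩
      exact ⟨hs.1, hsT.trans hxT.symm⟩
    exact absurd ((mk_le_mk_of_subset h1).trans hx.2)
      (not_le.2 (lt_of_lt_of_le (Order.lt_succ l) hT'))
  have hBadU : #(⋃ n : ULift.{u} ℕ, Bad n.down : Set K) ≤ l := by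
    refine (mk_iUnion_le _).trans ?_
    refine (mul_le_mul' ?_ (ciSup_le' fun n => hBad _)).trans (mul_eq_self hl0).le
    rw [mk_uLift, mk_nat, lift_aleph0]
    exact hl0
  let Ws : Set K := Wst \ ⋃ n : ULift.{u} ℕ, Bad n.down
  have hWs : ∀ t ∈ Ws, ∀ n, Order.succ l ≤ #{s : K | s ∈ Wst ∧ g s ∩ N n = g t ∩ N n} := by
    rintro t ⟨ht, ht'⟩ n
    by_contra hcon
    exact ht' (mem_iUnion.2 ⟨⟨n⟩, ht, Order.lt_succ_iff.1 (not_le.1 hcon)⟩)
  have G : Good g N c l Ws P m0 i0 j0 := by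
    refine ⟨?_, ?_, ?_, ?_⟩
    · intro t ht n hn
      obtain ⟨h1, h2, h3, h4, h5⟩ := hprop t ht.1
      exact (hP t h1).1 n (h2 ▸ hn)
    · intro t ht X hX hXc m
      obtain ⟨h1, h2, h3, h4, h5⟩ := hprop t ht.1
      refine (hP t h1).2 X ?_ ?_ m
      · rw [h4]
        exact hX
      · rw [h3]
        exact hXc
    · intro s hs t ht
      rw [(hprop s hs.1).2.2.2.2, (hprop t ht.1).2.2.2.2]
    · intro t ht n
      refine big_diff hl0 _ _ _ (hWs t ht n) hBadU ?_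
      rintro s ⟨hs, hs'⟩
      by_cases hsB : s ∈ ⋃ n : ULift.{u} ℕ, Bad n.down
      · exact Or.inr hsB
      · exact Or.inl ⟨⟨hs, hsB⟩, hs'⟩
  have hWne : Ws.Nonempty := by
    rw [← nonempty_coe_sort, ← mk_ne_zero_iff]
    have h1 : Order.succ l ≤ #Ws := big_diff hl0 _ _ _ hA2 hBadU (by
      intro s hs
      by_cases hsB : s ∈ ⋃ n : ULift.{u} ℕ, Bad n.down
      · exact Or.inr hsB
      · exact Or.inl ⟨hs, hsB⟩)
    exact (lt_of_lt_of_le (lt_of_le_of_lt bot_le (Order.lt_succ l)) h1).ne'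
  exact hfree (C.finish G hWne)

end finish

/-- thinning out to a set mapping which only looks downwards -/
lemma thin {S : Type u} (l : Cardinal.{u}) (hl0 : ℵ₀ ≤ l) (hS : #S = Order.succ l)
    (f : S → Set S) (hord : ∀ x, #(f x) ≤ l) :
    ∃ e : (Order.succ l).ord.ToType → S, ∀ x y, x < y → e y ∉ f (e x) ∧ e y ≠ e x := by
  classical
  let K : Type u := (Order.succ l).ord.ToType
  have hseg : ∀ w : K, #(Iio w) ≤ l := by
    intro w
    have h1 : #(Iio w) < Order.succ l := Cardinal.mk_Iio_toType_ord_lt w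
    exact Order.lt_succ_iff.1 h1
  have hne : Nonempty S := by
    rw [← mk_ne_zero_iff, hS]
    exact (lt_of_le_of_lt bot_le (Order.lt_succ l)).ne'
  obtain ⟨s0⟩ := hne
  let good : ∀ y : K, (∀ x : K, x < y → S) → S → Prop := fun y G s =>
    ∀ (x : K) (hx : x < y), s ∉ f (G x hx) ∧ s ≠ G x hx
  let step : ∀ y : K, (∀ x : K, x < y → S) → S := fun y G =>
    if h : ∃ s, good y G s then h.choose else s0
  let e : K → S := (wellFounded_lt (α := K)).fix step
  have he : ∀ y, e y = step y (fun x _ => e x) := fun y =>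
    (wellFounded_lt (α := K)).fix_eq step y
  have key : ∀ y, good y (fun x _ => e x) (e y) := by
    intro y
    have hex : ∃ s, good y (fun x _ => e x) s := by
      by_contra hcon
      have h1 : (univ : Set S) ⊆ ⋃ x : Iio y, (f (e x.1) ∪ {e x.1}) := by
        intro s _
        by_contra hs
        refine hcon ⟨s, fun x hx => ?_⟩
        by_contra h2
        refine hs (mem_iUnion.2 ⟨⟨x, hx⟩, ?_⟩)
        by_cases h3 : s ∈ f (e x)
        · exact Or.inl h3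
        · right
          by_contra h4
          exact h2 ⟨h3, h4⟩
      have h2 : #S ≤ l := by
        rw [← mk_univ]
        refine (mk_le_mk_of_subset h1).trans ((mk_iUnion_le _).trans ?_)
        refine (mul_le_mul' (hseg y) (ciSup_le' fun x => ?_)).trans (mul_eq_self hl0).le
        refine (mk_union_le _ _).trans ((add_le_add (hord _) ?_).trans (add_eq_self hl0).le)
        rw [mk_singleton]
        exact one_le_aleph0.trans hl0
      rw [hS] at h2
      exact absurd h2 (not_le.2 (Order.lt_succ l))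
    rw [he y]
    have : step y (fun x _ => e x) = hex.choose := by
      simp only [step]
      rw [dif_pos hex]
    rw [this]
    exact hex.choose_spec
  exact ⟨e, fun x y hxy => key y x hxy⟩

/-- the general theorem -/
theorem free_of_size {S : Type u} (l : Cardinal.{u}) (c : ℕ → Cardinal.{u})
    (hc0 : ∀ n, ℵ₀ ≤ c n) (hcm : StrictMono c) (hcl : ∀ n, c n < l)
    (hcs : ∀ x < l, ∃ n, x ≤ c n) (hst : ∀ x < l, (2 : Cardinal.{u}) ^ x < l)
    (hS : #S = Order.succ l) (f : S → Set S) (hself : ∀ x, x ∉ f x) (hord : ∀ x, #(f x) ≤ l)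
    (hH : ∀ X : Set S, #X = l → #(⋂ x ∈ X, f x : Set S) < l) :
    ∃ F : Set S, #F = l ∧ ∀ x ∈ F, ∀ y ∈ F, x ∉ f y := by
  classical
  have hl0 : ℵ₀ ≤ l := (hc0 0).trans (hcl 0).le
  obtain ⟨e, he⟩ := thin l hl0 hS f hord
  let K : Type u := (Order.succ l).ord.ToType
  have hK : #K = Order.succ l := by simp [K]
  have hinj : Function.Injective e := by
    intro x y hxy
    rcases lt_trichotomy x y with h | h | h
    · exact absurd hxy.symm (he x y h).2
    · exact h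
    · exact absurd hxy (he y x h).2
  let g : K → Set K := fun x => {z | e z ∈ f (e x)}
  have hg : ∀ x, g x ⊆ Iio x := by
    intro x z hz
    rcases lt_trichotomy z x with h | h | h
    · exact h
    · rw [h] at hz
      exact absurd hz (hself _)
    · exact absurd hz (he x z h).1
  have hKne : Nonempty K := by
    rw [← mk_ne_zero_iff, hK]
    exact (lt_of_le_of_lt bot_le (Order.lt_succ l)).ne'
  obtain ⟨k0⟩ := hKne
  let pick : Set K → Set K → K := fun A B =>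
    if h : ∃ y, (∀ x ∈ B, x < y) ∧ ∀ x ∈ A, x ∉ g y then h.choose else k0
  have hpick : ∀ A B, (∃ y, (∀ x ∈ B, x < y) ∧ ∀ x ∈ A, x ∉ g y) →
      (∀ x ∈ B, x < pick A B) ∧ ∀ x ∈ A, x ∉ g (pick A B) := by
    intro A B h
    have : pick A B = h.choose := by
      simp only [pick]
      rw [dif_pos h]
    rw [this]
    exact h.choose_spec
  have hhull : ∀ (n : ℕ) (N0 : {N0 : Set K // #N0 < l}), ∃ N1 : {N0 : Set K // #N0 < l},
      N0.1 ⊆ N1.1 ∧ ∀ A B : Set K, A ⊆ N1.1 → B ⊆ N1.1 → #A ≤ c n → #B ≤ c n →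
        pick A B ∈ N1.1 := by
    rintro n ⟨N0, hN0⟩
    obtain ⟨N1, h1, h2, h3⟩ := exists_closed pick N0 (c n) (max #N0 (c n)) (hc0 n)
      (le_max_right _ _) (le_max_left _ _)
    exact ⟨⟨N1, h2.trans_lt (hst _ (max_lt hN0 (hcl n)))⟩, h1, h3⟩
  choose hull hh1 hh2 using hhull
  let N : ℕ → {N0 : Set K // #N0 < l} := fun n =>
    Nat.rec (motive := fun _ => {N0 : Set K // #N0 < l})
      (hull 0 ⟨∅, by rw [mk_emptyCollection]; exact aleph0_pos.trans_le hl0⟩)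
      (fun n M => hull (n + 1) M) n
  have hN0 : N 0 = hull 0 ⟨∅, by rw [mk_emptyCollection]; exact aleph0_pos.trans_le hl0⟩ := rfl
  have hN1 : ∀ n, N (n + 1) = hull (n + 1) (N n) := fun n => rfl
  have hNcl : ∀ n, ∀ A B : Set K, A ⊆ (N n).1 → B ⊆ (N n).1 → #A ≤ c n → #B ≤ c n →
      pick A B ∈ (N n).1 := by
    intro n
    rcases n with _ | n
    · rw [hN0]
      exact hh2 0 _
    · rw [hN1]
      exact hh2 (n + 1) _
  have C : Ctx g (fun n => (N n).1) c l := by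
    refine ⟨hg, hc0, hcm, hcl, hcs, hst, hK, ?_, ?_, ?_, fun n => (N n).2, ?_⟩
    · intro w
      have h1 : #(Iio w) < Order.succ l := Cardinal.mk_Iio_toType_ord_lt w
      exact Order.lt_succ_iff.1 h1
    · intro X hX
      have h1 : #(e '' X) = l := by rw [mk_image_eq hinj, hX]
      refine lt_of_le_of_lt ?_ (hH _ h1)
      rw [← mk_image_eq hinj]
      refine mk_le_mk_of_subset ?_
      rintro _ ⟨z, hz, rfl⟩
      simp only [mem_iInter]
      rintro _ ⟨x, hx, rfl⟩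
      exact hz x hx
    · refine monotone_nat_of_le_succ fun n => ?_
      rw [hN1]
      exact hh1 (n + 1) (N n)
    · intro n A B hA hB hAc hBc hex
      exact ⟨pick A B, hNcl n A B hA hB hAc hBc, hpick A B hex⟩
  obtain ⟨F, hF, hFf⟩ := C.main
  refine ⟨e '' F, by rw [mk_image_eq hinj, hF], ?_⟩
  rintro _ ⟨x, hx, rfl⟩ _ ⟨y, hy, rfl⟩
  exact hFf x hx y hy

section final
open Ordinal

theorem aleph_omega_free (hst : ∀ n : ℕ, (2 : Cardinal.{u}) ^ (ℵ_ (n : Ordinal.{u})) < ℵ_ ω)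
    {S : Type u} (hS : #S = ℵ_ (ω + 1)) (f : S → Set S) (hself : ∀ x, x ∉ f x)
    (hord : ∀ x, #(f x) < ℵ_ (ω + 1))
    (hH : ∀ X : Set S, #X = ℵ_ ω → #(⋂ x ∈ X, f x : Set S) < ℵ_ ω) :
    ∃ F : Set S, #F = ℵ_ ω ∧ ∀ x ∈ F, ∀ y ∈ F, x ∉ f y := by
  have hsucc : (ℵ_ (ω + 1) : Cardinal.{u}) = Order.succ (ℵ_ ω) := by
    rw [← aleph_succ, Ordinal.add_one_eq_succ]
  have hcs : ∀ x : Cardinal.{u}, x < ℵ_ ω → ∃ n : ℕ, x ≤ ℵ_ (n : Ordinal.{u}) := by
    intro x hx
    rcases lt_or_ge x ℵ₀ with h | h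
    · exact ⟨0, by simpa using h.le⟩
    · obtain ⟨o, rfl⟩ := mem_range_aleph_iff.2 h
      obtain ⟨n, rfl⟩ := Ordinal.lt_omega0.1 (aleph_lt_aleph.1 hx)
      exact ⟨n, le_rfl⟩
  refine free_of_size (ℵ_ ω) (fun n => ℵ_ (n : Ordinal.{u})) (fun n => aleph0_le_aleph _) ?_ ?_ hcs
    ?_ (hS.trans hsucc) f hself ?_ hH
  · intro m n hmn
    exact aleph_lt_aleph.2 (by exact_mod_cast hmn)
  · intro n
    exact aleph_lt_aleph.2 (Ordinal.nat_lt_omega0 n)
  · intro x hx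
    obtain ⟨n, hn⟩ := hcs x hx
    exact (power_le_power_left two_ne_zero hn).trans_lt (hst n)
  · intro x
    have := hord x
    rw [hsucc] at this
    exact Order.lt_succ_iff.1 this

end final
end Pool.Agent.Helper292.SetMap
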