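import Mathlib
set_option autoImplicit false
open Set Cardinal Filter Topology

namespace Pool.Agent.Helper292.UG

/-- transfinite recursion producing a family of pairwise related objects. -/
lemma rec_family {T X : Type} (c : Cardinal.{0}) (hT : #T ≤ Order.succ c) (valid : X → Prop)
    (Q : T → X → Prop) (R : X → X → Prop) (hsymm : ∀ x y, R x y → R y x)
    (H : ∀ t, ∀ V : Set X, #V ≤ c → (∀ x ∈ V, valid x) →
      (∀ x ∈ V, ∀ y ∈ V, x ≠ y → R x y) → ∃ x, valid x ∧ Q t x ∧ ∀ y ∈ V, R x y) :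
    ∃ f : T → X, (∀ t, valid (f t) ∧ Q t (f t)) ∧ ∀ t t', t ≠ t' → R (f t) (f t') := by
  classical
  rcases isEmpty_or_nonempty T with hE | ⟨⟨t0⟩⟩
  · exact ⟨fun t => (hE.false t).elim, fun t => (hE.false t).elim, fun t => (hE.false t).elim⟩
  obtain ⟨x0, -, -, -⟩ := H t0 ∅ (by simp) (by simp) (by simp)
  let W : Type := (#T).ord.ToType
  have hW : #W = #T := by simp [W]
  obtain ⟨e⟩ := Cardinal.eq.1 hW
  have hseg : ∀ w : W, #(Iio w) ≤ c := by
    intro w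
    have h1 : #(Iio w) < #T := Cardinal.mk_Iio_toType_ord_lt w
    exact Order.lt_succ_iff.1 (h1.trans_le hT)
  let good : ∀ w : W, (∀ v : W, v < w → X) → X → Prop := fun w g x =>
    valid x ∧ Q (e w) x ∧ ∀ v (hv : v < w), R x (g v hv)
  let step : ∀ w : W, (∀ v : W, v < w → X) → X := fun w g =>
    if h : ∃ x, good w g x then h.choose else x0
  let f : W → X := (wellFounded_lt (α := W)).fix step
  have hf : ∀ w, f w = step w (fun v _ => f v) := fun w =>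
    (wellFounded_lt (α := W)).fix_eq step w
  have key : ∀ w, good w (fun v _ => f v) (f w) := by
    intro w
    induction w using WellFoundedLT.induction with
    | ind w ih =>
      have hex : ∃ x, good w (fun v _ => f v) x := by
        let V : Set X := f '' (Iio w)
        obtain ⟨x, h1, h2, h3⟩ := H (e w) V (mk_image_le.trans (hseg w))
          (by
            rintro _ ⟨v, hv, rfl⟩
            exact (ih v hv).1)
          (by
            rintro _ ⟨v, hv, rfl⟩ _ ⟨v', hv', rfl⟩ hne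
            have hvv : v ≠ v' := fun h => hne (by rw [h])
            rcases lt_or_gt_of_ne hvv with h | h
            · exact hsymm _ _ ((ih v' hv').2.2 v h)
            · exact (ih v hv).2.2 v' h)
        exact ⟨x, h1, h2, fun v hv => h3 _ ⟨v, hv, rfl⟩⟩
      rw [hf w]
      have : step w (fun v _ => f v) = hex.choose := by
        simp only [step]
        rw [dif_pos hex]
      rw [this]
      exact hex.choose_spec
  refine ⟨fun t => f (e.symm t), fun t => ?_, fun t t' htt => ?_⟩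
  · have := key (e.symm t)
    refine ⟨this.1, ?_⟩
    have h2 := this.2.1
    rwa [Equiv.apply_symm_apply] at h2
  · have hvv : e.symm t ≠ e.symm t' := fun h => htt (e.symm.injective h)
    rcases lt_or_gt_of_ne hvv with h | h
    · exact hsymm _ _ ((key (e.symm t')).2.2 _ h)
    · exact (key (e.symm t)).2.2 _ h

/-- uniform ultrafilters -/
abbrev U (A : Type) : Type := {u : Ultrafilter A // ∀ s : Set A, s ∈ u → Cardinal.mk s = Cardinal.mk A}

lemma exists_uniform {A : Type} (hA : ℵ₀ ≤ #A) (B : Set A) (hB : #B = #A) :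
    ∃ u : U A, B ∈ u.1 := by
  let F : Filter A :=
    { sets := {s | #(B \ s : Set A) < #A}
      univ_sets := by
        have : B \ univ = ∅ := by simp
        simp only [mem_ofPred_eq, this, mk_eq_zero]
        exact aleph0_pos.trans_le hA
      sets_of_superset := by
        intro s t hs hst
        exact (mk_le_mk_of_subset (sdiff_subset_sdiff_right hst)).trans_lt hs
      inter_sets := by
        intro s t hs ht
        have h1 : B \ (s ∩ t) = (B \ s) ∪ (B \ t) := by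
          ext x; simp only [Set.mem_sdiff, mem_inter_iff, mem_union]; tauto
        simp only [mem_ofPred_eq, h1]
        exact (mk_union_le _ _).trans_lt (add_lt_of_lt hA hs ht) }
  have hne : F.NeBot := by
    rw [neBot_iff]
    intro hbot
    have h : (∅ : Set A) ∈ F := by rw [hbot]; trivial
    have : #(B \ ∅ : Set A) < #A := h
    rw [Set.sdiff_empty, hB] at this
    exact lt_irrefl _ this
  refine ⟨⟨Ultrafilter.of F, ?_⟩, ?_⟩
  · intro s hs
    by_contra hne'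
    have hlt : #s < #A := lt_of_le_of_ne (mk_set_le s) hne'
    have h1 : sᶜ ∈ F := by
      change #(B \ sᶜ : Set A) < #A
      refine (mk_le_mk_of_subset ?_).trans_lt hlt
      intro x hx
      simpa using hx.2
    have h2 : sᶜ ∈ Ultrafilter.of F := Ultrafilter.of_le F h1
    exact (Ultrafilter.compl_mem_iff_notMem.1 h2) hs
  · have h1 : B ∈ F := by
      change #(B \ B : Set A) < #A
      rw [Set.sdiff_self]
      simp only [mk_eq_zero]
      exact aleph0_pos.trans_le hA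
    exact Ultrafilter.of_le F h1


/-- a well ordered index of regular cardinality -/
structure Reg (J : Type) [LinearOrder J] : Prop where
  inf : ℵ₀ ≤ #J
  bdd : ∀ S : Set J, #S < #J → ∃ b, ∀ x ∈ S, x < b
  small : ∀ j : J, #(Iic j) < #J

lemma Reg.nonempty {J : Type} [LinearOrder J] (h : Reg J) : Nonempty J := by
  rw [← mk_ne_zero_iff]
  exact (aleph0_pos.trans_le h.inf).ne'

lemma Reg.exists_gt {J : Type} [LinearOrder J] (h : Reg J) (x : J) : ∃ y, x < y := by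
  obtain ⟨b, hb⟩ := h.bdd (Iic x) (h.small x)
  exact ⟨b, hb x le_rfl⟩

lemma Reg.noMax {J : Type} [LinearOrder J] (h : Reg J) : NoMaxOrder J := ⟨h.exists_gt⟩

lemma Reg.bdd_of {J ι : Type} [LinearOrder J] (h : Reg J) (f : ι → J) (hι : #ι < #J) :
    ∃ b, ∀ i, f i < b := by
  obtain ⟨b, hb⟩ := h.bdd (range f) (mk_range_le.trans_lt hι)
  exact ⟨b, fun i => hb _ ⟨i, rfl⟩⟩

lemma Reg.iio {J : Type} [LinearOrder J] (h : Reg J) (j : J) : #(Iio j) < #J :=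
  (mk_le_mk_of_subset Iio_subset_Iic_self).trans_lt (h.small j)

lemma reg_of_cof (o : Ordinal.{0}) (hinf : ℵ₀ ≤ o.cof) : Reg o.cof.ord.ToType := by
  have h1 : Order.cof o.cof.ord.ToType = o.cof := by
    rw [Ordinal.cof_toType, Ordinal.cof_ord_cof]
  have h2 : #(o.cof.ord.ToType) = o.cof := by simp
  refine ⟨by rw [h2]; exact hinf, ?_, ?_⟩
  · intro S hS
    have hS' : #S < Order.cof (o.cof.ord.ToType) := hS.trans_eq (h2.trans h1.symm)
    have : ¬ IsCofinal S := fun h => (Order.cof_le h).not_gt hS'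
    simp only [IsCofinal, not_forall, not_exists, not_and, not_le] at this
    exact this
  · intro j
    have h3 : #(Iio j) < o.cof := Cardinal.mk_Iio_toType_ord_lt j
    rw [h2, ← Iio_insert]
    exact (mk_insert_le).trans_lt (add_lt_of_lt hinf h3 (one_lt_aleph0.trans_le hinf))

/-- a filtration of `A` along `J`. -/
structure Fil (A J : Type) [LinearOrder J] (c0 : Cardinal.{0}) where
  kc : J → Cardinal.{0}
  pi : A → J
  mono : Monotone kc
  lt : ∀ j, kc j < #A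
  ge : ∀ j, c0 ≤ kc j
  cof : ∀ c < #A, ∃ j, c < kc j
  fib : ∀ j, #{x | pi x ≤ j} ≤ kc j

lemma exists_fil (A : Type) (hA : ℵ₀ ≤ #A) (hs : ¬ (#A).IsRegular) :
    ∃ (J : Type) (_ : LinearOrder J) (_ : WellFoundedLT J), Reg J ∧ #J < #A ∧
      (∀ c0, #J ≤ c0 → c0 < #A → Nonempty (Fil A J c0)) := by
  have hcof : (#A).ord.cof < #A := by
    by_contra h
    push Not at h
    exact hs ⟨hA, h⟩
  have hinf : ℵ₀ ≤ (#A).ord.cof := by
    rw [Ordinal.aleph0_le_cof]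
    exact Cardinal.isSuccLimit_ord hA
  let J : Type := (#A).ord.cof.ord.ToType
  have hJ : #J = (#A).ord.cof := by simp [J]
  have hreg : Reg J := reg_of_cof _ hinf
  refine ⟨J, inferInstance, inferInstance, hreg, by rw [hJ]; exact hcof, ?_⟩
  intro c0 hc0 hc0A
  let W : Type := (#A).ord.ToType
  have hW : #W = #A := by simp [W]
  obtain ⟨eA⟩ := Cardinal.eq.1 hW
  obtain ⟨S, hS, hScard⟩ := Order.exists_cof_eq (α := W)
  have hSJ : #J = #S := by
    rw [hScard, hJ, Ordinal.cof_toType]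
  obtain ⟨eS⟩ := Cardinal.eq.1 hSJ
  -- the cover
  let A' : J → Set A := fun j => {a | eA.symm a ≤ (eS j).1}
  have hA' : ∀ j, #(A' j) < #A := by
    intro j
    have h1 : #(A' j) = #(Iic (eS j).1) := by
      refine Cardinal.mk_congr ?_
      exact eA.symm.subtypeEquiv (fun a => Iff.rfl)
    rw [h1, ← Iio_insert]
    have h3 : #(Iio (eS j).1) < #A := Cardinal.mk_Iio_toType_ord_lt _
    exact (mk_insert_le).trans_lt (add_lt_of_lt hA h3 (one_lt_aleph0.trans_le hA))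
  have hcov : ∀ a, ∃ j, a ∈ A' j := by
    intro a
    obtain ⟨s, hs1, hs2⟩ := hS (eA.symm a)
    refine ⟨eS.symm ⟨s, hs1⟩, ?_⟩
    change eA.symm a ≤ (eS (eS.symm ⟨s, hs1⟩)).1
    rw [Equiv.apply_symm_apply]
    exact hs2
  choose pi hpi using hcov
  let sz : J → Cardinal := fun j => ⨆ i : Iic j, #{x | pi x = i.1}
  have hszlt : ∀ j, sz j < #A := by
    intro j
    refine Cardinal.iSup_lt_of_lt_cof_ord ?_ ?_
    · exact (hreg.small j).trans_eq hJ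
    · intro i
      refine (mk_le_mk_of_subset ?_).trans_lt (hA' i.1)
      intro x hx
      have hx' : pi x = i.1 := hx
      rw [← hx']
      exact hpi x
  let kc : J → Cardinal := fun j => max c0 (sz j)
  have hbdd : ∀ j, BddAbove (range fun i : Iic j => #{x | pi x = i.1}) := fun j =>
    bddAbove_range _
  have hmono : Monotone kc := by
    intro i j hij
    refine max_le_max le_rfl ?_
    refine ciSup_le' ?_
    intro k
    exact le_ciSup (hbdd j) ⟨k.1, le_trans k.2 hij⟩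
  have hfib : ∀ j, #{x | pi x ≤ j} ≤ kc j := by
    intro j
    have h1 : {x | pi x ≤ j} ⊆ ⋃ i ∈ Iic j, {x | pi x = i} := by
      intro x hx
      exact mem_biUnion (x := pi x) hx rfl
    refine (mk_le_mk_of_subset h1).trans ?_
    refine (mk_biUnion_le _ _).trans ?_
    have h2 : #(Iic j) ≤ kc j := ((hreg.small j).le.trans hc0).trans (le_max_left _ _)
    have h3 : (⨆ x : Iic j, #{y | pi y = x.1}) ≤ kc j := le_max_right _ _
    have h4 : ℵ₀ ≤ kc j := (hreg.inf.trans hc0).trans (le_max_left _ _)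
    exact (mul_le_mul' h2 h3).trans (mul_eq_self h4).le
  refine ⟨⟨kc, pi, hmono, fun j => max_lt hc0A (hszlt j), fun j => le_max_left _ _, ?_, hfib⟩⟩
  intro c hc
  by_contra hcon
  push Not at hcon
  have h1 : (univ : Set A) ⊆ ⋃ j, {x | pi x ≤ j} := by
    intro x _
    exact mem_iUnion.2 ⟨pi x, (le_refl (pi x) : pi x ≤ pi x)⟩
  have h2 := (mk_le_mk_of_subset h1).trans (mk_iUnion_le _)
  rw [mk_univ] at h2
  have h3 : (⨆ j, #{x | pi x ≤ j}) ≤ c := ciSup_le' (fun j => (hfib j).trans (hcon j))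
  obtain ⟨j0⟩ := hreg.nonempty
  have h4 : #J ≤ c := (hc0.trans (le_max_left _ _ : c0 ≤ kc j0)).trans (hcon j0)
  have h5 : ℵ₀ ≤ c := hreg.inf.trans h4
  have h6 := h2.trans ((mul_le_mul' h4 h3).trans (mul_eq_self h5).le)
  exact absurd hc h6.not_gt


section
variable {A J : Type} [LinearOrder J] {c0 : Cardinal.{0}}

def Fil.lo (F : Fil A J c0) (j : J) : Set A := {x | F.pi x < j}

lemma Fil.lo_le (F : Fil A J c0) (j : J) : #(F.lo j) ≤ F.kc j :=
  (mk_le_mk_of_subset (fun x hx => le_of_lt (a := F.pi x) (b := j) hx)).trans (F.fib j)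

lemma Fil.lo_mono (F : Fil A J c0) {i j : J} (h : i ≤ j) : F.lo i ⊆ F.lo j :=
  fun x hx => lt_of_lt_of_le (a := F.pi x) hx h

lemma Fil.card_eq (F : Fil A J c0) (B : Set A) (hB : ∀ j, F.kc j ≤ #B) : #B = #A := by
  by_contra h
  have hlt : #B < #A := lt_of_le_of_ne (mk_set_le B) h
  obtain ⟨j, hj⟩ := F.cof _ hlt
  exact absurd (hB j) hj.not_ge

lemma card_iUnion_le {α ι : Type} (f : ι → Set α) (c : Cardinal.{0}) (hc : ℵ₀ ≤ c) (h1 : #ι ≤ c)
    (h2 : ∀ i, #(f i) ≤ c) : #(⋃ i, f i : Set α) ≤ c :=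
  (mk_iUnion_le _).trans ((mul_le_mul' h1 (ciSup_le' h2)).trans (mul_eq_self hc).le)

lemma card_union_le' {α : Type} (s t : Set α) (c : Cardinal.{0}) (hc : ℵ₀ ≤ c) (h1 : #s ≤ c)
    (h2 : #t ≤ c) : #(s ∪ t : Set α) ≤ c :=
  (mk_union_le _ _).trans ((add_le_add h1 h2).trans (add_eq_self hc).le)

lemma Reg.bdd3 (hJ : Reg J) (a b c : J) (f : J → J) (i : J) :
    ∃ n, a ≤ n ∧ b ≤ n ∧ c ≤ n ∧ ∀ k, k < i → f k < n := by
  obtain ⟨d, hd⟩ := hJ.bdd_of (fun k : Iio i => f k.1) (hJ.iio i)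
  refine ⟨max (max a b) (max c d), ?_, ?_, ?_, ?_⟩
  · exact (le_max_left a b).trans (le_max_left _ _)
  · exact (le_max_right a b).trans (le_max_left _ _)
  · exact (le_max_left c d).trans (le_max_right _ _)
  · intro k hk
    exact (hd ⟨k, hk⟩).trans_le ((le_max_right c d).trans (le_max_right _ _))

lemma diag (hJ : Reg J) (F : Fil A J c0) (hc0 : #J ≤ c0) (G : J → J) (s : J → Set A)
    (hs : ∀ i m, ∃ n, m ≤ n ∧ F.kc n < #(s i ∩ F.lo (G n) : Set A))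
    (𝒱 : J → Set (Set A)) (h𝒱 : ∀ i, #(𝒱 i) ≤ F.kc i) (m : J → J)
    (hm : ∀ i, ∀ V ∈ 𝒱 i, ∀ n, m i ≤ n → #(V ∩ (s i ∩ F.lo (G n)) : Set A) ≤ F.kc n) :
    ∃ B : Set A, #B = #A ∧ (∀ n, #(B ∩ F.lo (G n) : Set A) ≤ F.kc n) ∧ (B ⊆ ⋃ i, s i) ∧
      ∀ V i0, (∀ i, i0 ≤ i → V ∈ 𝒱 i) → #(V ∩ B : Set A) ≤ F.kc i0 := by
  have hkJ : ∀ j, #J ≤ F.kc j := fun j => hc0.trans (F.ge j)
  have hk0 : ∀ j, ℵ₀ ≤ F.kc j := fun j => hJ.inf.trans (hkJ j)
  have h1 : ∀ i, ∃ (u n : J), (∀ k, k < i → G k < u) ∧ i ≤ n ∧ u ≤ n ∧ m i ≤ n ∧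
      F.kc n < #(s i ∩ F.lo (G n) : Set A) := by
    intro i
    obtain ⟨u, -, -, -, hu⟩ := hJ.bdd3 i i i G i
    obtain ⟨n, hn, hn'⟩ := hs i (max i (max u (m i)))
    exact ⟨u, n, hu, (le_max_left _ _).trans hn,
      ((le_max_left _ _).trans (le_max_right _ _)).trans hn,
      ((le_max_right _ _).trans (le_max_right _ _)).trans hn, hn'⟩
  choose u n hu hin hun hmn hn using h1
  let X : J → Set A := fun i => (s i ∩ F.lo (G (n i))) \
    (F.lo (u i) ∪ ⋃ V : 𝒱 i, (V.1 ∩ (s i ∩ F.lo (G (n i)))))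
  have hX : ∀ i, F.kc i ≤ #(X i) := by
    intro i
    by_contra hcon
    push Not at hcon
    have h2 : s i ∩ F.lo (G (n i)) ⊆ X i ∪
        (F.lo (u i) ∪ ⋃ V : 𝒱 i, (V.1 ∩ (s i ∩ F.lo (G (n i))))) := by
      intro x hx
      by_cases hx' : x ∈ (F.lo (u i) ∪ ⋃ V : 𝒱 i, (V.1 ∩ (s i ∩ F.lo (G (n i)))))
      · exact Or.inr hx'
      · exact Or.inl ⟨hx, hx'⟩
    have h3 := mk_le_mk_of_subset h2
    have h4 : #(X i ∪ (F.lo (u i) ∪ ⋃ V : 𝒱 i, (V.1 ∩ (s i ∩ F.lo (G (n i))))) : Set A)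
        ≤ F.kc (n i) := by
      refine card_union_le' _ _ _ (hk0 _) (hcon.le.trans (F.mono (hin i))) ?_
      refine card_union_le' _ _ _ (hk0 _) ((F.lo_le _).trans (F.mono (hun i))) ?_
      refine card_iUnion_le _ _ (hk0 _) ((h𝒱 i).trans (F.mono (hin i))) ?_
      intro V
      exact hm i V.1 V.2 (n i) (hmn i)
    exact absurd (hn i) (h3.trans h4).not_gt
  have hb : ∀ i, ∃ b : Set A, b ⊆ X i ∧ #b = F.kc i := by
    intro i
    exact Cardinal.le_mk_iff_exists_subset.1 (hX i)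
  choose b hbX hbc using hb
  refine ⟨⋃ i, b i, ?_, ?_, ?_, ?_⟩
  · refine F.card_eq _ ?_
    intro j
    rw [← hbc j]
    exact mk_le_mk_of_subset (subset_iUnion b j)
  · intro k
    have h5 : (⋃ i, b i) ∩ F.lo (G k) ⊆ ⋃ i : Iic k, b i.1 := by
      rintro x ⟨hx, hxk⟩
      obtain ⟨i, hi⟩ := mem_iUnion.1 hx
      refine mem_iUnion.2 ⟨⟨i, ?_⟩, hi⟩
      change i ≤ k
      by_contra hik
      push Not at hik
      exact (hbX i hi).2 (Or.inl (F.lo_mono (hu i k hik).le hxk))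
    refine (mk_le_mk_of_subset h5).trans (card_iUnion_le _ _ (hk0 _) ?_ ?_)
    · exact (mk_set_le _).trans (hkJ k)
    · intro i
      rw [hbc]
      exact F.mono i.2
  · intro x hx
    obtain ⟨i, hi⟩ := mem_iUnion.1 hx
    exact mem_iUnion.2 ⟨i, (hbX i hi).1.1⟩
  · intro V i0 hV
    have h5 : V ∩ (⋃ i, b i) ⊆ ⋃ i : Iic i0, b i.1 := by
      rintro x ⟨hxV, hx⟩
      obtain ⟨i, hi⟩ := mem_iUnion.1 hx
      refine mem_iUnion.2 ⟨⟨i, ?_⟩, hi⟩
      change i ≤ i0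
      by_contra hik
      push Not at hik
      refine (hbX i hi).2 (Or.inr (mem_iUnion.2 ⟨⟨V, hV i hik.le⟩, hxV, (hbX i hi).1⟩))
    refine (mk_le_mk_of_subset h5).trans (card_iUnion_le _ _ (hk0 _) ?_ ?_)
    · exact (mk_set_le _).trans (hkJ i0)
    · intro i
      rw [hbc]
      exact F.mono i.2

end


section

def Out {A : Type} (p : U A) : Prop :=
  ∀ (T : Type) (s : T → Set A), #T ≤ Order.succ #A → (∀ t, s t ∈ p.1) →
    ∃ B : T → Set A, (∀ t, B t ⊆ s t) ∧ (∀ t, #(B t) = #A) ∧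
      ∀ t t', t ≠ t' → #(B t ∩ B t' : Set A) < #A

lemma out_of {A : Type} (p : U A) {X : Type}
    (B : X → Set A) (valid : X → Prop) (R : X → X → Prop) (hsymm : ∀ x y, R x y → R y x)
    (hval : ∀ x, valid x → #(B x) = #A)
    (hR : ∀ x y, valid x → valid y → R x y → #(B x ∩ B y : Set A) < #A)
    (H : ∀ s ∈ p.1, ∀ V : Set X, #V ≤ #A → (∀ x ∈ V, valid x) →
      (∀ x ∈ V, ∀ y ∈ V, x ≠ y → R x y) → ∃ x, valid x ∧ B x ⊆ s ∧ ∀ y ∈ V, R x y) : Out p := by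
  intro T s hT hs
  obtain ⟨f, hf1, hf2⟩ := rec_family #A hT valid (fun t x => B x ⊆ s t) R hsymm
    (fun t V h1 h2 h3 => H (s t) (hs t) V h1 h2 h3)
  exact ⟨fun t => B (f t), fun t => (hf1 t).2, fun t => hval _ (hf1 t).1,
    fun t t' h => hR _ _ (hf1 t).1 (hf1 t').1 (hf2 t t' h)⟩

variable {A J : Type} [LinearOrder J] {c0 : Cardinal.{0}}

def Thick (F : Fil A J c0) (g : J → J) (s : Set A) : Prop :=
  ∀ m, ∃ n, m ≤ n ∧ F.kc n < #(s ∩ F.lo (g n) : Set A)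

/-- a family of size at most `#A` is filtered -/
lemma exists_rank {X : Type} (V : Set X) (hV : #V ≤ #A) (hJ : Reg J) (F : Fil A J c0) :
    ∃ r : X → J, ∀ i, #{x | x ∈ V ∧ r x ≤ i} ≤ F.kc i := by
  classical
  obtain ⟨j0⟩ := hJ.nonempty
  obtain ⟨inj⟩ := hV
  let r : X → J := fun x => if h : x ∈ V then F.pi (inj ⟨x, h⟩) else j0
  have hr : ∀ x (h : x ∈ V), r x = F.pi (inj ⟨x, h⟩) := fun x h => dif_pos h
  refine ⟨r, ?_⟩
  intro i
  refine le_trans ?_ (F.fib i)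
  refine ⟨⟨fun x => ⟨inj ⟨x.1, x.2.1⟩, ?_⟩, ?_⟩⟩
  · have h1 : r x.1 ≤ i := x.2.2
    rw [hr _ x.2.1] at h1
    exact h1
  · intro x y hxy
    have h1 := congrArg Subtype.val hxy
    have h2 := congrArg Subtype.val (inj.injective h1)
    exact Subtype.ext h2

lemma case_good (p : U A) (hJ : Reg J)
    (F : Fil A J c0) (hc0 : #J ≤ c0) (g : J → J) (hg : ∀ s ∈ p.1, Thick F g s) : Out p := by
  refine out_of p (fun B : Set A => B)
    (fun B => #B = #A ∧ ∀ n, #(B ∩ F.lo (g n) : Set A) ≤ F.kc n)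
    (fun B B' => #(B ∩ B' : Set A) < #A) (fun B B' h => by rwa [inter_comm])
    (fun B hB => hB.1) (fun _ _ _ _ h => h) ?_
  intro s hs V hV hval _
  obtain ⟨r, hr⟩ := exists_rank V hV hJ F
  obtain ⟨B, hB1, hB2, hB3, hB4⟩ := diag hJ F hc0 g (fun _ => s) (fun _ => hg s hs)
    (fun i => {x | x ∈ V ∧ r x ≤ i}) hr id (by
      intro i B hB n hn
      refine (mk_le_mk_of_subset ?_).trans ((hval B hB.1).2 n)
      rintro x ⟨hx1, -, hx2⟩
      exact ⟨hx1, hx2⟩)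
  refine ⟨B, ⟨hB1, hB2⟩, ?_, ?_⟩
  · intro x hx
    obtain ⟨i, hi⟩ := mem_iUnion.1 (hB3 hx)
    exact hi
  · intro B' hB'
    have h1 := hB4 B' (r B') (fun i hi => ⟨hB', hi⟩)
    rw [inter_comm]
    exact h1.trans_lt (F.lt _)

/-- ladders -/
lemma exists_ladder {L : Type} [LinearOrder L] [WellFoundedLT J] (hL : Reg L)
    (hJ : Reg J) (hJL : #J < #L) (τ : L → L) :
    ∃ z : J → L, ∀ i k, k < i → τ (z k) < z i := by
  obtain ⟨l0⟩ := hL.nonempty
  have hex : ∀ (i : J) (w : ∀ k : J, k < i → L), ∃ l : L, ∀ k (hk : k < i), τ (w k hk) < l := by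
    intro i w
    obtain ⟨b, hb⟩ := hL.bdd_of (fun k : Iio i => τ (w k.1 k.2)) ((hJ.iio i).trans hJL)
    exact ⟨b, fun k hk => hb ⟨k, hk⟩⟩
  choose step hstep using hex
  let z : J → L := (wellFounded_lt (α := J)).fix step
  have hz : ∀ i, z i = step i (fun k _ => z k) := fun i =>
    (wellFounded_lt (α := J)).fix_eq step i
  refine ⟨z, fun i k hk => ?_⟩
  rw [hz i]
  exact hstep i (fun k _ => z k) k hk

end


section

variable {A J : Type} [LinearOrder J] {c0 : Cardinal.{0}}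

lemma exists_lo_gt (hJ : Reg J) (F : Fil A J c0) (hc0 : #J ≤ c0) (s : Set A) (hs : #s = #A)
    (n : J) : ∃ j, F.kc n < #(s ∩ F.lo j : Set A) := by
  by_contra hcon
  push Not at hcon
  have h1 : s ⊆ ⋃ j, s ∩ F.lo j := by
    intro x hx
    obtain ⟨j, hj⟩ := hJ.exists_gt (F.pi x)
    exact mem_iUnion.2 ⟨j, hx, hj⟩
  have h2 := (mk_le_mk_of_subset h1).trans
    (card_iUnion_le _ _ (hJ.inf.trans (hc0.trans (F.ge n))) (hc0.trans (F.ge n)) hcon)
  rw [hs] at h2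
  exact absurd (F.lt n) h2.not_gt

lemma case_bad (p : U A) [WellFoundedLT J]
    (hJ : Reg J)
    {L : Type} [LinearOrder L] [WellFoundedLT L] (hL : Reg L) (hJL : #J < #L)
    (F : Fil A J c0) (hc0 : #J ≤ c0) (hc1 : #L ≤ c0)
    (Φ : L → J → J) (hΦ : ∀ ζ ζ', ζ ≤ ζ' → ∃ N, ∀ n, N ≤ n → Φ ζ n ≤ Φ ζ' n)
    (hunb : ∀ g : J → J, ∃ ζ, ∀ N, ∃ n, N ≤ n ∧ g n < Φ ζ n)
    (hbd : ∀ (ζ : L) (f : L → J → J), ∃ g : J → J, ∀ ξ, ξ < ζ → ∃ N, ∀ n, N ≤ n → f ξ n ≤ g n)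
    (hbad : ∀ ζ, ∃ s ∈ p.1, ¬ Thick F (Φ ζ) s) : Out p := by
  choose Az hAzp hAz using hbad
  have hkJ : ∀ j, #J ≤ F.kc j := fun j => hc0.trans (F.ge j)
  have hk0 : ∀ j, ℵ₀ ≤ F.kc j := fun j => hJ.inf.trans (hkJ j)
  have thin : ∀ ζ, ∃ m, ∀ n, m ≤ n → #(Az ζ ∩ F.lo (Φ ζ n) : Set A) ≤ F.kc n := by
    intro ζ
    have := hAz ζ
    simp only [Thick, not_forall, not_exists, not_and, not_lt] at this
    exact this
  have he : ∀ ζ ζ', ∃ N, ζ ≤ ζ' → ∀ n, N ≤ n →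
      Φ ζ n ≤ Φ ζ' n ∧ #(Az ζ' ∩ F.lo (Φ ζ' n) : Set A) ≤ F.kc n := by
    intro ζ ζ'
    obtain ⟨m, hm⟩ := thin ζ'
    by_cases h : ζ ≤ ζ'
    · obtain ⟨N, hN⟩ := hΦ ζ ζ' h
      exact ⟨max N m, fun _ n hn => ⟨hN n ((le_max_left _ _).trans hn),
        hm n ((le_max_right _ _).trans hn)⟩⟩
    · exact ⟨m, fun h' => absurd h' h⟩
  choose e he using he
  have T1 : ∀ s : Set A, #s = #A → ∃ ζ, Thick F (Φ ζ) s := by
    intro s hs
    choose φ hφ using exists_lo_gt hJ F hc0 s hs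
    obtain ⟨ζ, hζ⟩ := hunb φ
    refine ⟨ζ, fun m => ?_⟩
    obtain ⟨n, hn, hn'⟩ := hζ m
    refine ⟨n, hn, (hφ n).trans_le (mk_le_mk_of_subset ?_)⟩
    exact inter_subset_inter_right _ (F.lo_mono hn'.le)
  have T2 : ∀ (s : Set A) ζ ζ', ζ ≤ ζ' → Thick F (Φ ζ) s → Thick F (Φ ζ') s := by
    intro s ζ ζ' h hs m
    obtain ⟨N, hN⟩ := hΦ ζ ζ' h
    obtain ⟨n, hn, hn'⟩ := hs (max m N)
    refine ⟨n, (le_max_left _ _).trans hn, hn'.trans_le (mk_le_mk_of_subset ?_)⟩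
    exact inter_subset_inter_right _ (F.lo_mono (hN n ((le_max_right _ _).trans hn)))
  refine out_of p (fun x : Set A × L => x.1)
    (fun x => #x.1 = #A ∧ (∀ n, #(x.1 ∩ F.lo (Φ x.2 n) : Set A) ≤ F.kc n) ∧
      ∀ ζ, x.2 ≤ ζ → #(x.1 ∩ Az ζ : Set A) ≤ F.kc (e x.2 ζ))
    (fun x y => #(x.1 ∩ y.1 : Set A) < #A) (fun x y h => by rwa [inter_comm])
    (fun x hx => hx.1) (fun _ _ _ _ h => h) ?_
  intro s hs V hV hval _
  have ht : ∀ ζ, ∃ ζ', Thick F (Φ ζ') (s ∩ Az ζ) := fun ζ =>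
    T1 _ (p.2 _ (Filter.inter_mem hs (hAzp ζ)))
  choose t ht using ht
  obtain ⟨z, hz⟩ := exists_ladder hL hJ hJL (fun ζ => max ζ (t ζ))
  have hz1 : ∀ i k, k < i → z k < z i := fun i k h => (le_max_left _ _).trans_lt (hz i k h)
  have hz2 : ∀ i k, k < i → t (z k) < z i := fun i k h => (le_max_right _ _).trans_lt (hz i k h)
  have hzm : ∀ i k, k ≤ i → z k ≤ z i := fun i k h => by
    rcases h.eq_or_lt with rfl | h
    · exact le_rfl
    · exact (hz1 i k h).le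
  have hne : {l | ∀ i, z i < l}.Nonempty := hL.bdd_of z hJL
  obtain ⟨h, hh1, hh2⟩ : ∃ h, (∀ i, z i < h) ∧ ∀ ζ, ζ < h → ∃ i, ζ ≤ z i := by
    refine ⟨WellFounded.min (wellFounded_lt (α := L)) _ hne, ?_, ?_⟩
    · exact WellFounded.min_mem (wellFounded_lt (α := L)) _ hne
    · intro ζ hζ
      by_contra hcon
      push Not at hcon
      have hcon' : ζ ∈ {l | ∀ i, z i < l} := hcon
      exact WellFounded.not_lt_min (wellFounded_lt (α := L)) _ hcon' hζ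
  obtain ⟨m, hm⟩ := hbd h (fun ξ i => e ξ (z i))
  have hsz : ∀ i, Thick F (Φ h) (s ∩ Az (z i)) := by
    intro i
    obtain ⟨k, hk⟩ := hJ.exists_gt i
    exact T2 _ _ _ ((hz2 k i hk).trans (hh1 k)).le (ht (z i))
  obtain ⟨r, hr⟩ := exists_rank V hV hJ F
  obtain ⟨B, hB1, hB2, hB3, hB4⟩ := diag hJ F hc0 (Φ h) (fun i => s ∩ Az (z i)) hsz
    (fun i => (Prod.fst '' {x | (x ∈ V ∧ r x ≤ i) ∧
        ((h ≤ x.2 ∧ e h x.2 ≤ i) ∨ (x.2 ≤ z i ∧ e x.2 (z i) ≤ m i))}) ∪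
      Az '' {ζ | h ≤ ζ ∧ e h ζ ≤ i}) (by
      intro i
      refine card_union_le' _ _ _ (hk0 i) ?_ ?_
      · refine mk_image_le.trans (le_trans ?_ (hr i))
        exact mk_le_mk_of_subset (fun x hx => hx.1)
      · exact mk_image_le.trans ((mk_set_le _).trans (hc1.trans (F.ge i))))
    (fun i => max i (m i)) (by
      rintro i _ (⟨x, ⟨⟨hxV, hxr⟩, ⟨hx1, hx2⟩ | ⟨hx1, hx2⟩⟩, rfl⟩ | ⟨ζ, ⟨hζ1, hζ2⟩, rfl⟩) n hn
      · have hin : i ≤ n := (le_max_left _ _).trans hn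
        refine (mk_le_mk_of_subset ?_).trans ((hval x hxV).2.1 n)
        rintro y ⟨hy1, -, hy2⟩
        exact ⟨hy1, F.lo_mono (he h x.2 hx1 n (hx2.trans hin)).1 hy2⟩
      · have hin : m i ≤ n := (le_max_right _ _).trans hn
        refine (mk_le_mk_of_subset ?_).trans
          (((hval x hxV).2.2 (z i) hx1).trans (F.mono (hx2.trans hin)))
        rintro y ⟨hy1, hy2, -⟩
        exact ⟨hy1, hy2.2⟩
      · have hin : i ≤ n := (le_max_left _ _).trans hn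
        refine (mk_le_mk_of_subset ?_).trans (he h ζ hζ1 n (hζ2.trans hin)).2
        rintro y ⟨hy1, -, hy2⟩
        exact ⟨hy1, F.lo_mono (he h ζ hζ1 n (hζ2.trans hin)).1 hy2⟩)
  refine ⟨(B, h), ⟨hB1, hB2, ?_⟩, ?_, ?_⟩
  · intro ζ hζ
    have h1 := hB4 (Az ζ) (e h ζ) (fun i hi => Or.inr ⟨ζ, ⟨hζ, hi⟩, rfl⟩)
    rw [inter_comm]
    exact h1
  · intro x hx
    obtain ⟨i, hi⟩ := mem_iUnion.1 (hB3 hx)
    exact hi.1
  · intro x hx
    change #(B ∩ x.1 : Set A) < #A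
    rw [inter_comm]
    rcases le_or_gt h x.2 with hhx | hhx
    · exact (hB4 x.1 (max (r x) (e h x.2)) (fun i hi => Or.inl ⟨x, ⟨⟨hx, (le_max_left _ _).trans hi⟩,
        Or.inl ⟨hhx, (le_max_right _ _).trans hi⟩⟩, rfl⟩)).trans_lt (F.lt _)
    · obtain ⟨i1, hi1⟩ := hh2 x.2 hhx
      obtain ⟨N, hN⟩ := hm x.2 hhx
      exact (hB4 x.1 (max (r x) (max i1 N)) (fun i hi => Or.inl ⟨x, ⟨⟨hx, (le_max_left _ _).trans hi⟩,
        Or.inr ⟨hi1.trans (hzm _ _ ((le_max_left _ _).trans ((le_max_right _ _).trans hi))),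
          hN i ((le_max_right _ _).trans ((le_max_right _ _).trans hi))⟩⟩, rfl⟩)).trans_lt (F.lt _)

end


section comb

def Comb (J : Type) [LinearOrder J] (c : Cardinal.{0}) (q : Ultrafilter J) : Prop :=
  ∃ Inv : Set J → Prop, ∀ (S : J → Set J), (∀ i, S i ∈ q) → (∀ i j, i ≤ j → S j ⊆ S i) →
    ∀ 𝒟 : Set (Set J), #𝒟 ≤ c → (∀ D ∈ 𝒟, Inv D) →
    (∀ D ∈ 𝒟, ∀ D' ∈ 𝒟, D ≠ D' → BddAbove (D ∩ D')) →
    ∃ D, Inv D ∧ (∀ i, (D ∩ S i).Nonempty) ∧ ∀ D' ∈ 𝒟, BddAbove (D ∩ D')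

def BdP (J : Type) [LinearOrder J] (c : Cardinal.{0}) : Prop :=
  ∀ (W : Type), #W ≤ c → ∀ f : W → J → J, ∃ g : J → J, ∀ w, ∃ N, ∀ n, N ≤ n → f w n ≤ g n

variable {J : Type} [LinearOrder J]

lemma Reg.bddAbove_img (hJ : Reg J) (d : J → J) (D : Set J) (N : J)
    (h : ∀ x ∈ D, ∃ i, i < N ∧ x = d i) : BddAbove D := by
  obtain ⟨b, hb⟩ := hJ.bdd_of (fun k : Iio N => d k.1) (hJ.iio N)
  refine ⟨b, fun x hx => ?_⟩
  obtain ⟨i, hi, rfl⟩ := h x hx
  exact (hb ⟨i, hi⟩).le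

lemma comb_a (hJ : Reg J) (c : Cardinal.{0}) (hBd : BdP J c) (q : Ultrafilter J) (f : J → J)
    (hf : ∀ b, {x | b < f x} ∈ q) (hC : ∀ g : J → J, {x | ∀ i, i < f x → g i < f x} ∈ q) :
    Comb J c q := by
  refine ⟨fun D => ∃ g : J → J, ∀ x ∈ D, ¬ ∀ i, i < f x → g i < f x, ?_⟩
  intro S hS hSa 𝒟 h𝒟 hInv _
  have h1 : ∀ D : 𝒟, ∃ g : J → J, ∀ x ∈ D.1, ¬ ∀ i, i < f x → g i < f x := fun D => hInv D.1 D.2
  choose gD hgD using h1
  obtain ⟨g, hg⟩ := hBd 𝒟 h𝒟 gD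
  have h2 : ∀ i, ∃ d, d ∈ S i ∧ (∀ k, k < f d → g k < f d) ∧ i < f d := by
    intro i
    have h3 := Filter.inter_mem (Filter.inter_mem (hS i) (hC g)) (hf i)
    obtain ⟨d, hd⟩ := q.nonempty_of_mem h3
    exact ⟨d, hd.1.1, hd.1.2, hd.2⟩
  choose d hdS hdg hdi using h2
  refine ⟨range d, ⟨fun i => f (d i), ?_⟩, ?_, ?_⟩
  · rintro _ ⟨i, rfl⟩ hcon
    exact lt_irrefl _ (hcon i (hdi i))
  · intro i
    exact ⟨d i, ⟨i, rfl⟩, hdS i⟩
  · intro D' hD'
    obtain ⟨N, hN⟩ := hg ⟨D', hD'⟩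
    obtain ⟨b, -, hb1, -, hb⟩ := hJ.bdd3 N N N (gD ⟨D', hD'⟩) N
    refine hJ.bddAbove_img d _ b ?_
    rintro _ ⟨⟨i, rfl⟩, hi⟩
    refine ⟨i, ?_, rfl⟩
    by_contra hib
    push Not at hib
    refine hgD ⟨D', hD'⟩ (d i) hi ?_
    intro k hk
    rcases lt_or_ge k N with hkN | hkN
    · exact (hb k hkN).trans_le (hib.trans (hdi i).le)
    · exact (hN k hkN).trans_lt (hdg i k hk)

lemma comb_b (hJ : Reg J) [WellFoundedLT J] (hJ1 : ℵ₀ < #J) (c : Cardinal.{0}) (hBd : BdP J c)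
    (q : Ultrafilter J) (htail : ∀ b, {x | b < x} ∈ q)
    (hb : ∀ f : J → J, (∀ b, ∃ c, ∀ x, c < x → b < f x) →
      ∃ g : J → J, {x | ∀ i, i < f x → g i < f x} ∉ q) :
    Comb J c q := by
  -- one step
  have step : ∀ f : J → J, ∃ f' : J → J, (∀ b, ∃ c, ∀ x, c < x → b < f x) →
      (∀ b, ∃ c, ∀ x, c < x → b < f' x) ∧ {x | f' x < f x} ∈ q := by
    intro f
    by_cases hf : ∀ b, ∃ c, ∀ x, c < x → b < f x
    · obtain ⟨g, hg⟩ := hb f hf
      -- least i with f x ≤ max i (g i)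
      have hex : ∀ x, ∃ i, f x ≤ max i (g i) ∧ ∀ k, k < i → max k (g k) < f x := by
        intro x
        have hne : {i | f x ≤ max i (g i)}.Nonempty := ⟨f x, le_max_left _ _⟩
        refine ⟨WellFounded.min (wellFounded_lt (α := J)) _ hne,
          WellFounded.min_mem (wellFounded_lt (α := J)) _ hne, ?_⟩
        intro k hk
        by_contra hcon
        push Not at hcon
        have hcon' : k ∈ {i | f x ≤ max i (g i)} := hcon
        exact WellFounded.not_lt_min (wellFounded_lt (α := J)) _ hcon' hk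
      choose f' hf1 hf2 using hex
      refine ⟨f', fun _ => ⟨?_, ?_⟩⟩
      · intro b
        obtain ⟨u, -, -, -, hu⟩ := hJ.bdd3 b b b (fun k => max k (g k)) b
        obtain ⟨u', hu'⟩ := hJ.exists_gt (max u (max b (g b)))
        obtain ⟨c', hc'⟩ := hf u'
        refine ⟨c', fun x hx => ?_⟩
        have h1 := hc' x hx
        by_contra hcon
        push Not at hcon
        have h2 := hf1 x
        rcases hcon.eq_or_lt with h3 | h3
        · rw [h3] at h2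
          exact absurd (h2.trans ((le_max_right _ _).trans hu'.le)) h1.not_ge
        · exact absurd (h2.trans ((hu _ h3).le.trans ((le_max_left _ _).trans hu'.le))) h1.not_ge
      · have h1 := Ultrafilter.compl_mem_iff_notMem.2 hg
        refine Filter.mem_of_superset h1 ?_
        intro x hx
        have hx' : ¬ ∀ i, i < f x → g i < f x := hx
        push Not at hx'
        obtain ⟨i, hi1, hi2⟩ := hx'
        change f' x < f x
        by_contra hcon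
        push Not at hcon
        have h3 := hf2 x i (hi1.trans_le hcon)
        exact absurd (hi2.trans (le_max_right i _)) h3.not_ge
    · exact ⟨f, fun h => absurd h hf⟩
  choose P hP using step
  -- the descending sequence
  have hmin : ∀ (i : J) (w : ∀ k : J, k < i → (J → J)), ∃ F : J → J,
      (∀ x, F x ≤ x) ∧ (∀ k (hk : k < i) x, F x ≤ P (w k hk) x) ∧
      ∀ x, F x = x ∨ ∃ k, ∃ hk : k < i, F x = P (w k hk) x := by
    intro i w
    have hex : ∀ x, ∃ y, y ≤ x ∧ (∀ k (hk : k < i), y ≤ P (w k hk) x) ∧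
        (y = x ∨ ∃ k, ∃ hk : k < i, y = P (w k hk) x) := by
      intro x
      have hne : {y | y = x ∨ ∃ k, ∃ hk : k < i, y = P (w k hk) x}.Nonempty := ⟨x, Or.inl rfl⟩
      have hmem := WellFounded.min_mem (wellFounded_lt (α := J)) _ hne
      have hmn : ∀ y ∈ {y | y = x ∨ ∃ k, ∃ hk : k < i, y = P (w k hk) x},
          WellFounded.min (wellFounded_lt (α := J)) _ hne ≤ y := fun y hy =>
        not_lt.1 (WellFounded.not_lt_min (wellFounded_lt (α := J)) _ hy)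
      exact ⟨_, hmn x (Or.inl rfl), fun k hk => hmn _ (Or.inr ⟨k, hk, rfl⟩), hmem⟩
    choose F hF1 hF2 hF3 using hex
    exact ⟨F, hF1, fun k hk x => hF2 x k hk, hF3⟩
  choose stp hstp1 hstp2 hstp3 using hmin
  let z : J → (J → J) := (wellFounded_lt (α := J)).fix stp
  have hz : ∀ i, z i = stp i (fun k _ => z k) := fun i =>
    (wellFounded_lt (α := J)).fix_eq stp i
  have hz1 : ∀ i x, z i x ≤ x := fun i x => by rw [hz i]; exact hstp1 _ _ x
  have hz2 : ∀ i k, k < i → ∀ x, z i x ≤ P (z k) x := fun i k hk x => by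
    rw [hz i]; exact hstp2 i (fun k _ => z k) k hk x
  have hz3 : ∀ i x, z i x = x ∨ ∃ k, k < i ∧ z i x = P (z k) x := fun i x => by
    have := hstp3 i (fun k _ => z k) x
    rw [← hz i] at this
    rcases this with h | ⟨k, hk, h⟩
    · exact Or.inl h
    · exact Or.inr ⟨k, hk, h⟩
  have hunb : ∀ i b, ∃ c, ∀ x, c < x → b < z i x := by
    intro i
    induction i using WellFoundedLT.induction with
    | ind i ih =>
      intro b
      have h1 : ∀ k : J, ∃ c, k < i → ∀ x, c < x → b < P (z k) x := by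
        intro k
        by_cases hk : k < i
        · obtain ⟨c', hc'⟩ := (hP (z k) (ih k hk)).1 b
          exact ⟨c', fun _ => hc'⟩
        · exact ⟨b, fun h => absurd h hk⟩
      choose cc hcc using h1
      obtain ⟨u, hu1, -, -, hu⟩ := hJ.bdd3 b b b cc i
      refine ⟨u, fun x hx => ?_⟩
      rcases hz3 i x with h | ⟨k, hk, h⟩
      · rw [h]; exact hu1.trans_lt hx
      · rw [h]; exact hcc k hk x ((hu k hk).trans hx)
  let X : J → Set J := fun i => {x | P (z i) x < z i x}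
  have hXq : ∀ i, X i ∈ q := fun i => (hP (z i) (hunb i)).2
  have hXdesc : ∀ x (s : ℕ → J), (∀ n, s n < s (n + 1)) → (∀ n, x ∈ X (s n)) → False := by
    intro x s hs hx
    have h1 : ∀ n, z (s (n + 1)) x < z (s n) x := fun n =>
      (hz2 _ _ (hs n) x).trans_lt (hx n)
    obtain ⟨n, hn⟩ := WellFounded.not_rel_apply_succ (r := fun a b : J => a < b) (fun n => z (s n) x)
    exact hn (h1 n)
  -- countable sets are bounded
  have hctb : ∀ s : ℕ → J, ∃ b, ∀ n, s n < b := fun s => hJ.bdd_of s (by simpa using hJ1)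
  refine ⟨fun D => ∃ ι, ∀ ζ, ι ≤ ζ → BddAbove (D ∩ X ζ), ?_⟩
  intro S hS hSa 𝒟 h𝒟 hInv _
  have claim : ∃ ι, ∀ i, ι ≤ i → ∀ j, ∃ ζ, j ≤ ζ ∧
      ∀ b, ∃ x, b < x ∧ x ∈ S i ∧ x ∈ X ζ ∧ ∀ ζ', ι ≤ ζ' → ζ' < i → x ∉ X ζ' := by
    by_contra hcon
    push Not at hcon
    choose I0 hI0 JJ hJJ using hcon
    obtain ⟨j0⟩ := hJ.nonempty
    let s : ℕ → J := fun n => Nat.iterate I0 n j0
    have hs : ∀ n, s (n + 1) = I0 (s n) := fun n => Function.iterate_succ_apply' I0 n j0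
    obtain ⟨z1, hz1'⟩ := hctb (fun n => JJ (s n))
    obtain ⟨z2, hz2'⟩ := hctb s
    have hbx : ∀ n, ∃ b, ∀ x, b < x → x ∈ S (s (n + 1)) → x ∈ X (max z1 z2) →
        ∃ ζ', s n ≤ ζ' ∧ ζ' < s (n + 1) ∧ x ∈ X ζ' := by
      intro n
      obtain ⟨b, hb'⟩ := hJJ (s n) (max z1 z2) ((hz1' n).le.trans (le_max_left _ _))
      refine ⟨b, fun x h1 h2 h3 => ?_⟩
      rw [hs n] at h2
      obtain ⟨ζ', h4, h5, h6⟩ := hb' x h1 h2 h3
      exact ⟨ζ', h4, by rw [hs n]; exact h5, h6⟩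
    choose bb hbb using hbx
    obtain ⟨B, hB⟩ := hctb bb
    obtain ⟨x, hx⟩ := q.nonempty_of_mem (Filter.inter_mem (Filter.inter_mem (hS (max z1 z2))
      (hXq (max z1 z2))) (htail B))
    have h7 : ∀ n, ∃ ζ', s n ≤ ζ' ∧ ζ' < s (n + 1) ∧ x ∈ X ζ' := fun n =>
      hbb n x ((hB n).trans hx.2) (hSa _ _ ((hz2' (n + 1)).le.trans (le_max_right _ _)) hx.1.1)
        hx.1.2
    choose t ht1 ht2 ht3 using h7
    exact hXdesc x t (fun n => (ht2 n).trans_le (ht1 (n + 1))) ht3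
  obtain ⟨ι, hι⟩ := claim
  -- bounds
  have h1 : ∀ D : 𝒟, ∃ ι', ∀ ζ, ι' ≤ ζ → BddAbove (D.1 ∩ X ζ) := fun D => hInv D.1 D.2
  choose ιD hιD using h1
  have h2 : ∀ (D : 𝒟) (ζ : J), ∃ b, ιD D ≤ ζ → ∀ x ∈ D.1 ∩ X ζ, x ≤ b := by
    intro D ζ
    by_cases h : ιD D ≤ ζ
    · obtain ⟨b, hb'⟩ := hιD D ζ h
      exact ⟨b, fun _ x hx => hb' hx⟩
    · exact ⟨ζ, fun h' => absurd h' h⟩
  choose gD hgD using h2
  obtain ⟨g, hg⟩ := hBd 𝒟 h𝒟 gD
  have h3 : ∀ i, ∃ ζ d, ι ≤ i → i ≤ ζ ∧ g ζ < d ∧ d ∈ S i ∧ d ∈ X ζ ∧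
      ∀ ζ', ι ≤ ζ' → ζ' < i → d ∉ X ζ' := by
    intro i
    by_cases h : ι ≤ i
    · obtain ⟨ζ, hζ, hx⟩ := hι i h i
      obtain ⟨x, hx⟩ := hx (g ζ)
      exact ⟨ζ, x, fun _ => ⟨hζ, hx⟩⟩
    · exact ⟨i, i, fun h' => absurd h' h⟩
  choose ζ d hd using h3
  refine ⟨d '' Ici ι, ⟨ι, ?_⟩, ?_, ?_⟩
  · intro ξ hξ
    obtain ⟨N, hN⟩ := hJ.exists_gt ξ
    refine hJ.bddAbove_img d _ N ?_
    rintro _ ⟨⟨i, hi, rfl⟩, hx⟩
    refine ⟨i, ?_, rfl⟩
    by_contra hcon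
    push Not at hcon
    exact (hd i hi).2.2.2.2 ξ hξ (hN.trans_le hcon) hx
  · intro i
    refine ⟨d (max ι i), ⟨_, le_max_left _ _, rfl⟩, ?_⟩
    exact hSa i _ (le_max_right _ _) (hd (max ι i) (le_max_left _ _)).2.2.1
  · intro D' hD'
    obtain ⟨N, hN⟩ := hg ⟨D', hD'⟩
    refine hJ.bddAbove_img d _ (max N (ιD ⟨D', hD'⟩)) ?_
    rintro _ ⟨⟨i, hi, rfl⟩, hx⟩
    refine ⟨i, ?_, rfl⟩
    by_contra hcon
    push Not at hcon
    obtain ⟨h4, h5, h6, h7, -⟩ := hd i hi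
    have h8 : ιD ⟨D', hD'⟩ ≤ ζ i := (le_max_right _ _).trans (hcon.trans h4)
    have h9 : N ≤ ζ i := (le_max_left _ _).trans (hcon.trans h4)
    have h10 := hgD ⟨D', hD'⟩ (ζ i) h8 (d i) ⟨hx, h7⟩
    exact absurd (h10.trans (hN _ h9)) h5.not_ge

end comb


section comb2

variable {J : Type} [LinearOrder J]

lemma exists_two (hJ : Reg J) [WellFoundedLT J] (T : J → Set J)
    (hT : ∀ i b, ∃ x, x ∈ T i ∧ b < x) :
    ∃ c d : J → J, (∀ i, c i ∈ T i) ∧ (∀ i, d i ∈ T i) ∧ ∀ i k, c i ≠ d k := by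
  have hex : ∀ (i : J) (w : ∀ k : J, k < i → J × J), ∃ y : J × J, y.1 ∈ T i ∧ y.2 ∈ T i ∧
      y.1 < y.2 ∧ ∀ k (hk : k < i), (w k hk).2 < y.1 := by
    intro i w
    obtain ⟨b, hb⟩ := hJ.bdd_of (fun k : Iio i => (w k.1 k.2).2) (hJ.iio i)
    obtain ⟨x, hx, hbx⟩ := hT i b
    obtain ⟨y, hy, hxy⟩ := hT i x
    exact ⟨(x, y), hx, hy, hxy, fun k hk => (hb ⟨k, hk⟩).trans hbx⟩
  choose stp h1 h2 h3 h4 using hex
  let z : J → J × J := (wellFounded_lt (α := J)).fix stp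
  have hz : ∀ i, z i = stp i (fun k _ => z k) := fun i =>
    (wellFounded_lt (α := J)).fix_eq stp i
  have hz1 : ∀ i, (z i).1 ∈ T i := fun i => by rw [hz i]; exact h1 _ _
  have hz2 : ∀ i, (z i).2 ∈ T i := fun i => by rw [hz i]; exact h2 _ _
  have hz3 : ∀ i, (z i).1 < (z i).2 := fun i => by rw [hz i]; exact h3 _ _
  have hz4 : ∀ i k, k < i → (z k).2 < (z i).1 := fun i k hk => by
    rw [hz i]; exact h4 i (fun k _ => z k) k hk
  refine ⟨fun i => (z i).1, fun i => (z i).2, hz1, hz2, ?_⟩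
  intro i k
  rcases lt_trichotomy i k with h | rfl | h
  · exact ((hz3 i).trans ((hz4 k i h).trans (hz3 k))).ne
  · exact (hz3 i).ne
  · exact (hz4 i k h).ne'

lemma comb_c (hJ : Reg J) [WellFoundedLT J] (hJ0 : #J = ℵ₀) (c : Cardinal.{0})
    (hBd : BdP J c) (q : Ultrafilter J) (htail : ∀ b, {x | b < x} ∈ q) : Comb J c q := by
  refine ⟨fun D => D ∉ q, ?_⟩
  intro S hS hSa 𝒟 h𝒟 hInv hpair
  have suff : (∃ T : J → Set J, (∀ i b, ∃ x, x ∈ T i ∧ b < x) ∧ (∀ i, T i ⊆ S i) ∧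
      ∀ D' ∈ 𝒟, ∃ N, ∀ i, N ≤ i → ∀ x ∈ T i, x ∉ D') →
      ∃ D, D ∉ q ∧ (∀ i, (D ∩ S i).Nonempty) ∧ ∀ D' ∈ 𝒟, BddAbove (D ∩ D') := by
    rintro ⟨T, hT1, hT2, hT3⟩
    obtain ⟨c, d, hc, hd, hcd⟩ := exists_two hJ T hT1
    have gen : ∀ e : J → J, (∀ i, e i ∈ T i) → range e ∉ q →
        ∃ D, D ∉ q ∧ (∀ i, (D ∩ S i).Nonempty) ∧ ∀ D' ∈ 𝒟, BddAbove (D ∩ D') := by
      intro e he heq
      refine ⟨range e, heq, fun i => ⟨e i, ⟨i, rfl⟩, hT2 i (he i)⟩, ?_⟩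
      intro D' hD'
      obtain ⟨N, hN⟩ := hT3 D' hD'
      refine hJ.bddAbove_img e _ N ?_
      rintro _ ⟨⟨i, rfl⟩, hx⟩
      refine ⟨i, ?_, rfl⟩
      by_contra hcon
      push Not at hcon
      exact hN i hcon _ (he i) hx
    by_cases h : range c ∈ q
    · refine gen d hd ?_
      intro h'
      obtain ⟨x, ⟨i, hi⟩, ⟨k, hk⟩⟩ := q.nonempty_of_mem (Filter.inter_mem h h')
      exact hcd i k (hi.trans hk.symm)
    · exact gen c hc h
  apply suff
  let 𝒩 : Set (Set J) := {D | D ∈ 𝒟 ∧ ∀ n b, ∃ x, x ∈ D ∧ x ∈ S n ∧ b < x}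
  rcases 𝒩.finite_or_infinite with hfin | hinf
  · have hE : (⋃₀ 𝒩) ∉ q := by
      intro h
      obtain ⟨D, hD, hDq⟩ := (Ultrafilter.finite_sUnion_mem_iff hfin).1 h
      exact hInv D hD.1 hDq
    have hEc : (⋃₀ 𝒩)ᶜ ∈ q := Ultrafilter.compl_mem_iff_notMem.2 hE
    have h1 : ∀ D : 𝒟, ∃ n b, D.1 ∉ 𝒩 → ∀ x, x ∈ D.1 → x ∈ S n → x ≤ b := by
      intro D
      by_cases h : D.1 ∈ 𝒩
      · obtain ⟨j0⟩ := hJ.nonempty
        exact ⟨j0, j0, fun h' => absurd h h'⟩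
      · have h' : ¬ (D.1 ∈ 𝒟 ∧ ∀ n b, ∃ x, x ∈ D.1 ∧ x ∈ S n ∧ b < x) := h
        push Not at h'
        obtain ⟨n, b, hb⟩ := h' D.2
        exact ⟨n, b, fun _ => hb⟩
    choose nD bD hnb using h1
    obtain ⟨g, hg⟩ := hBd 𝒟 h𝒟 (fun D _ => bD D)
    refine ⟨fun i => {x | x ∈ S i ∧ x ∉ ⋃₀ 𝒩 ∧ g i < x}, ?_, fun i x hx => hx.1, ?_⟩
    · intro i b
      obtain ⟨x, hx⟩ := q.nonempty_of_mem (Filter.inter_mem (Filter.inter_mem (hS i) hEc)
        (htail (max b (g i))))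
      have hx2 : max b (g i) < x := hx.2
      exact ⟨x, ⟨hx.1.1, hx.1.2, (le_max_right _ _).trans_lt hx2⟩, (le_max_left _ _).trans_lt hx2⟩
    · intro D' hD'
      obtain ⟨N, hN⟩ := hg ⟨D', hD'⟩
      refine ⟨max N (nD ⟨D', hD'⟩), ?_⟩
      rintro i hi x ⟨hx1, hx2, hx3⟩ hxD
      by_cases h : D' ∈ 𝒩
      · exact hx2 (mem_sUnion.2 ⟨D', h, hxD⟩)
      · have h1 := hnb ⟨D', hD'⟩ h x hxD (hSa _ _ ((le_max_right _ _).trans hi) hx1)
        exact absurd (h1.trans (hN i ((le_max_left _ _).trans hi))) hx3.not_ge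
  · have h0 : #J ≤ #𝒩 := by
      rw [hJ0]
      exact Cardinal.aleph0_le_mk_iff.2 hinf.to_subtype
    obtain ⟨ν⟩ := h0
    have h1 : ∀ (D : 𝒟) (n : J), ∃ b, D.1 ≠ (ν n).1 → ∀ x, x ∈ D.1 → x ∈ (ν n).1 → x ≤ b := by
      intro D n
      by_cases h : D.1 = (ν n).1
      · exact ⟨n, fun h' => absurd h h'⟩
      · obtain ⟨b, hb⟩ := hpair D.1 D.2 (ν n).1 (ν n).2.1 h
        exact ⟨b, fun _ x h1 h2 => hb ⟨h1, h2⟩⟩
    choose gD hgD using h1
    obtain ⟨g, hg⟩ := hBd 𝒟 h𝒟 gD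
    refine ⟨fun i => {x | x ∈ (ν i).1 ∧ x ∈ S i ∧ g i < x}, ?_, fun i x hx => hx.2.1, ?_⟩
    · intro i b
      obtain ⟨x, hx1, hx2, hx3⟩ := (ν i).2.2 i (max b (g i))
      exact ⟨x, ⟨hx1, hx2, (le_max_right _ _).trans_lt hx3⟩, (le_max_left _ _).trans_lt hx3⟩
    · intro D' hD'
      obtain ⟨N, hN⟩ := hg ⟨D', hD'⟩
      have h2 : ∃ n0, ∀ i, n0 ≤ i → D' ≠ (ν i).1 := by
        by_cases h : ∃ n, D' = (ν n).1
        · obtain ⟨n, hn⟩ := h
          obtain ⟨n0, hn0⟩ := hJ.exists_gt n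
          refine ⟨n0, fun i hi h' => ?_⟩
          have h3 : n = i := ν.injective (Subtype.ext (hn.symm.trans h'))
          exact absurd (h3 ▸ hn0) hi.not_gt
        · push Not at h
          exact ⟨N, fun i _ => h i⟩
      obtain ⟨n0, hn0⟩ := h2
      refine ⟨max N n0, ?_⟩
      rintro i hi x ⟨hx1, hx2, hx3⟩ hxD
      have h3 := hgD ⟨D', hD'⟩ i (hn0 i ((le_max_right _ _).trans hi)) x hxD hx1
      exact absurd (h3.trans (hN i ((le_max_left _ _).trans hi))) hx3.not_ge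

variable {A : Type} {c0 : Cardinal.{0}}

lemma tails (p : U A) (F : Fil A J c0) (b : J) : {x | b < x} ∈ p.1.map F.pi := by
  rw [Ultrafilter.mem_map]
  by_contra h
  have h1 := Ultrafilter.compl_mem_iff_notMem.2 h
  have h2 := p.2 _ h1
  have h3 : #((F.pi ⁻¹' {x | b < x})ᶜ : Set A) ≤ F.kc b := by
    refine (mk_le_mk_of_subset ?_).trans (F.fib b)
    intro x hx
    have hx' : ¬ b < F.pi x := hx
    exact not_lt.1 hx'
  rw [h2] at h3
  exact absurd (F.lt b) h3.not_gt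

lemma case_comb (p : U A)
    (hJ : Reg J) (F : Fil A J c0) (hc0 : #J ≤ c0)
    (hcomb : Comb J #A (p.1.map F.pi)) : Out p := by
  have hkJ : ∀ j, #J ≤ F.kc j := fun j => hc0.trans (F.ge j)
  have hk0 : ∀ j, ℵ₀ ≤ F.kc j := fun j => hJ.inf.trans (hkJ j)
  obtain ⟨Inv, hI⟩ := hcomb
  refine out_of p (fun x : Set A × Set J => x.1 ∩ F.pi ⁻¹' x.2)
    (fun x => Inv x.2 ∧ ∀ i, ∃ d ∈ x.2, F.kc i < #(x.1 ∩ F.pi ⁻¹' {d} : Set A))
    (fun x y => BddAbove (x.2 ∩ y.2)) (fun x y h => by rwa [inter_comm]) ?_ ?_ ?_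
  · intro x hx
    refine F.card_eq _ (fun j => ?_)
    obtain ⟨d, hd, hd'⟩ := hx.2 j
    refine hd'.le.trans (mk_le_mk_of_subset ?_)
    rintro a ⟨ha1, ha2⟩
    have ha3 : F.pi a = d := ha2
    refine ⟨ha1, ?_⟩
    change F.pi a ∈ x.2
    rw [ha3]; exact hd
  · rintro x y hx hy ⟨b, hb⟩
    refine ((mk_le_mk_of_subset ?_).trans (F.fib b)).trans_lt (F.lt b)
    rintro a ⟨⟨-, ha1⟩, -, ha2⟩
    exact hb ⟨ha1, ha2⟩
  · intro s hs V hV hval hpair
    obtain ⟨D, hD1, hD2, hD3⟩ := hI (fun i => {j | F.kc i < #(s ∩ F.pi ⁻¹' {j} : Set A)})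
      (by
        intro i
        rw [Ultrafilter.mem_map]
        by_contra h
        have h1 := Ultrafilter.compl_mem_iff_notMem.2 h
        have h2 := p.2 _ (Filter.inter_mem hs h1)
        have h3 : (s ∩ (F.pi ⁻¹' {j | F.kc i < #(s ∩ F.pi ⁻¹' {j} : Set A)})ᶜ) ⊆
            ⋃ j : {j | ¬ F.kc i < #(s ∩ F.pi ⁻¹' {j} : Set A)}, s ∩ F.pi ⁻¹' {j.1} := by
          rintro a ⟨ha1, ha2⟩
          exact mem_iUnion.2 ⟨⟨F.pi a, ha2⟩, ha1, rfl⟩
        have h4 : #(⋃ j : {j | ¬ F.kc i < #(s ∩ F.pi ⁻¹' {j} : Set A)},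
            s ∩ F.pi ⁻¹' {j.1} : Set A) ≤ F.kc i :=
          card_iUnion_le _ _ (hk0 i) ((mk_set_le _).trans (hkJ i)) (fun j => not_lt.1 j.2)
        have h5 := (mk_le_mk_of_subset h3).trans h4
        rw [h2] at h5
        exact absurd (F.lt i) h5.not_gt)
      (fun i j hij x hx => (F.mono hij).trans_lt hx)
      (Prod.snd '' V) (mk_image_le.trans hV)
      (by rintro _ ⟨x, hx, rfl⟩; exact (hval x hx).1)
      (by
        rintro _ ⟨x, hx, rfl⟩ _ ⟨y, hy, rfl⟩ hne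
        exact hpair x hx y hy (fun h => hne (by rw [h])))
    refine ⟨(s, D), ⟨hD1, ?_⟩, inter_subset_left, ?_⟩
    · intro i
      obtain ⟨d, hd1, hd2⟩ := hD2 i
      exact ⟨d, hd1, hd2⟩
    · intro y hy
      exact hD3 y.2 ⟨y, hy, rfl⟩

end comb2


section dich

/-- boundedness of a family indexed by `W` -/
def AllBdd (J : Type) [LinearOrder J] (W : Type) : Prop :=
  ∀ f : W → J → J, ∃ g : J → J, ∀ w, ∃ N, ∀ n, N ≤ n → f w n ≤ g n

variable {J : Type} [LinearOrder J]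

lemma AllBdd.congr {W W' : Type} (h : AllBdd J W) (hW : #W' ≤ #W) : AllBdd J W' := by
  classical
  intro f
  obtain ⟨e⟩ := hW
  rcases isEmpty_or_nonempty W' with hE | ⟨⟨w0⟩⟩
  · exact ⟨id, fun w => (hE.false w).elim⟩
  obtain ⟨g, hg⟩ := h (fun w => f (if h : ∃ w', e w' = w then h.choose else w0))
  refine ⟨g, fun w => ?_⟩
  obtain ⟨N, hN⟩ := hg (e w)
  refine ⟨N, fun n hn => ?_⟩
  have h1 := hN n hn
  have h2 : ∃ w', e w' = e w := ⟨w, rfl⟩
  rw [dif_pos h2, e.injective h2.choose_spec] at h1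
  exact h1

lemma allBdd_self (hJ : Reg J) : AllBdd J J := by
  intro f
  have h1 : ∀ n, ∃ b, ∀ k, k ≤ n → f k n ≤ b := by
    intro n
    obtain ⟨n', hn'⟩ := hJ.exists_gt n
    obtain ⟨b, -, -, -, hb⟩ := hJ.bdd3 n n n (fun k => f k n) n'
    exact ⟨b, fun k hk => (hb k (hk.trans_lt hn')).le⟩
  choose g hg using h1
  exact ⟨g, fun w => ⟨w, fun n hn => hg n w hn⟩⟩

/-- the least size of an unbounded family -/
lemma exists_lambda (hJ : Reg J) {A : Type} (F : Fil A J #J)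
    (hnot : ¬ AllBdd J A) :
    ∃ (L : Type) (_ : LinearOrder L) (_ : WellFoundedLT L), Reg L ∧ #J < #L ∧ #L < #A ∧
      ¬ AllBdd J L ∧ ∀ W : Type, #W < #L → AllBdd J W := by
  let P : Set Cardinal.{0} := {c | ∃ W : Type, #W = c ∧ ¬ AllBdd J W}
  have hP : P.Nonempty := ⟨#A, A, rfl, hnot⟩
  have hmem := csInf_mem hP
  obtain ⟨W0, hW0, hW0'⟩ := hmem
  have hmin : ∀ W : Type, #W < sInf P → AllBdd J W := by
    intro W hW
    by_contra hcon
    exact absurd (csInf_le' (a := #W) ⟨W, rfl, hcon⟩ : sInf P ≤ #W) hW.not_ge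
  let L : Type := (sInf P).ord.ToType
  have hL : #L = sInf P := by simp [L]
  have hLnot : ¬ AllBdd J L := fun h => hW0' (h.congr (by rw [hW0, hL]))
  have hmin' : ∀ W : Type, #W < #L → AllBdd J W := fun W hW => hmin W (hL ▸ hW)
  have hJL : #J < #L := by
    by_contra hcon
    push Not at hcon
    exact hLnot ((allBdd_self hJ).congr hcon)
  have hinf : ℵ₀ ≤ #L := hJ.inf.trans hJL.le
  have hseg : ∀ l : L, #(Iio l) < #L := by
    intro l
    rw [hL]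
    exact Cardinal.mk_Iio_toType_ord_lt l
  have hseg' : ∀ l : L, #(Iic l) < #L := by
    intro l
    rw [← Iio_insert]
    exact (mk_insert_le).trans_lt (add_lt_of_lt hinf (hseg l) (one_lt_aleph0.trans_le hinf))
  have hLA : #L ≤ #A := by
    rw [hL]
    exact csInf_le' ⟨A, rfl, hnot⟩
  -- unions of few bounded families
  have hun : ∀ {ι K : Type} (T : ι → Set K), #ι < #L → (∀ i, #(T i) < #L) → (∀ x, ∃ i, x ∈ T i) →
      AllBdd J K := by
    intro ι K T hι hT hcov f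
    have h1 : ∀ i, ∃ g : J → J, ∀ w : T i, ∃ N, ∀ n, N ≤ n → f w.1 n ≤ g n := fun i =>
      hmin' _ (hT i) (fun w => f w.1)
    choose g hg using h1
    obtain ⟨G, hG⟩ := hmin' ι hι g
    refine ⟨G, fun w => ?_⟩
    obtain ⟨i, hi⟩ := hcov w
    obtain ⟨N, hN⟩ := hg i ⟨w, hi⟩
    obtain ⟨N', hN'⟩ := hG i
    exact ⟨max N N', fun n hn => (hN n ((le_max_left _ _).trans hn)).trans
      (hN' n ((le_max_right _ _).trans hn))⟩
  refine ⟨L, inferInstance, inferInstance, ⟨hinf, ?_, hseg'⟩, hJL, ?_, hLnot, hmin'⟩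
  · intro S hS
    by_contra hcon
    push Not at hcon
    refine hLnot (hun (ι := S) (fun s => Iic s.1) hS (fun s => hseg' s.1) ?_)
    intro x
    obtain ⟨s, hs, hxs⟩ := hcon x
    exact ⟨⟨s, hs⟩, hxs⟩
  · refine lt_of_le_of_ne hLA ?_
    intro hLeq
    refine hnot (hun (ι := J) (fun j => {x | F.pi x ≤ j}) hJL (fun j => ?_) (fun x => ⟨F.pi x, ?_⟩))
    · exact ((F.fib j).trans_lt (F.lt j)).trans_eq hLeq.symm
    · exact (le_refl (F.pi x) : F.pi x ≤ F.pi x)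

lemma exists_scale (hJ : Reg J) {L : Type} [LinearOrder L] [WellFoundedLT L] (hL : Reg L)
    (hnot : ¬ AllBdd J L) (hmin : ∀ W : Type, #W < #L → AllBdd J W) :
    ∃ Φ : L → J → J, (∀ ζ ζ', ζ ≤ ζ' → ∃ N, ∀ n, N ≤ n → Φ ζ n ≤ Φ ζ' n) ∧
      (∀ g : J → J, ∃ ζ, ∀ N, ∃ n, N ≤ n ∧ g n < Φ ζ n) := by
  have hnot' := hnot
  unfold AllBdd at hnot'
  push Not at hnot'
  obtain ⟨f, hf⟩ := hnot'
  have hex : ∀ (i : L) (w : ∀ k : L, k < i → (J → J)), ∃ G : J → J,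
      (∀ n, f i n ≤ G n) ∧ ∀ k (hk : k < i), ∃ N, ∀ n, N ≤ n → w k hk n ≤ G n := by
    intro i w
    obtain ⟨g, hg⟩ := hmin (Iio i) (hL.iio i) (fun k => w k.1 k.2)
    refine ⟨fun n => max (f i n) (g n), fun n => le_max_left _ _, fun k hk => ?_⟩
    obtain ⟨N, hN⟩ := hg ⟨k, hk⟩
    exact ⟨N, fun n hn => (hN n hn).trans (le_max_right _ _)⟩
  choose stp h1 h2 using hex
  let z : L → (J → J) := (wellFounded_lt (α := L)).fix stp
  have hz : ∀ i, z i = stp i (fun k _ => z k) := fun i =>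
    (wellFounded_lt (α := L)).fix_eq stp i
  have hz1 : ∀ i n, f i n ≤ z i n := fun i n => by rw [hz i]; exact h1 _ _ n
  have hz2 : ∀ i k, k < i → ∃ N, ∀ n, N ≤ n → z k n ≤ z i n := fun i k hk => by
    rw [hz i]; exact h2 i (fun k _ => z k) k hk
  refine ⟨z, ?_, ?_⟩
  · intro ζ ζ' h
    rcases h.eq_or_lt with rfl | h
    · obtain ⟨j0⟩ := hJ.nonempty
      exact ⟨j0, fun n _ => le_rfl⟩
    · exact hz2 ζ' ζ h
  · intro g
    obtain ⟨w, hw⟩ := hf g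
    exact ⟨w, fun N => by
      obtain ⟨n, hn, hn'⟩ := hw N
      exact ⟨n, hn, hn'.trans_le (hz1 w n)⟩⟩

end dich


lemma main {A : Type} (hA : ℵ₀ ≤ #A) (hs : ¬ (#A).IsRegular)
    (p : U A) : Out p := by
  obtain ⟨J, iJ, iW, hJ, hJA, hFil⟩ := exists_fil A hA hs
  obtain ⟨F⟩ := hFil #J le_rfl hJA
  by_cases hBd : AllBdd J A
  · have hBd' : BdP J #A := fun W hW => hBd.congr hW
    refine case_comb p hJ F le_rfl ?_
    have htail := tails p F
    by_cases hJ0 : #J = ℵ₀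
    · exact comb_c hJ hJ0 _ hBd' _ htail
    have hJ1 : ℵ₀ < #J := lt_of_le_of_ne hJ.inf (Ne.symm hJ0)
    by_cases hcase : ∃ f : J → J, (∀ b, ∃ c, ∀ x, c < x → b < f x) ∧
        ∀ g : J → J, {x | ∀ i, i < f x → g i < f x} ∈ p.1.map F.pi
    · obtain ⟨f, hf, hC⟩ := hcase
      refine comb_a hJ _ hBd' _ f ?_ hC
      intro b
      obtain ⟨c, hc⟩ := hf b
      exact Filter.mem_of_superset (htail c) (fun x hx => hc x hx)
    · push Not at hcase
      exact comb_b hJ hJ1 _ hBd' _ htail hcase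
  · obtain ⟨L, iL, iWL, hL, hJL, hLA, hnot, hmin⟩ := exists_lambda hJ F hBd
    obtain ⟨Φ, hΦ, hunb⟩ := exists_scale hJ hL hnot hmin
    obtain ⟨F'⟩ := hFil (max #J #L) (le_max_left _ _) (max_lt hJA hLA)
    by_cases hgood : ∃ ζ, ∀ s ∈ p.1, Thick F' (Φ ζ) s
    · obtain ⟨ζ, hζ⟩ := hgood
      exact case_good p hJ F' (le_max_left _ _) _ hζ
    · push Not at hgood
      refine case_bad p hJ hL hJL F' (le_max_left _ _) (le_max_right _ _) Φ hΦ hunb ?_ hgood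
      intro ζ f
      obtain ⟨g, hg⟩ := hmin (Iio ζ) (hL.iio ζ) (fun k => f k.1)
      exact ⟨g, fun ξ hξ => hg ⟨ξ, hξ⟩⟩

lemma comb_all {J : Type} [LinearOrder J] [WellFoundedLT J] (hJ : Reg J) (c : Cardinal.{0})
    (hBd : BdP J c) (q : Ultrafilter J) (htail : ∀ b, {x | b < x} ∈ q) : Comb J c q := by
  by_cases hJ0 : #J = ℵ₀
  · exact comb_c hJ hJ0 _ hBd _ htail
  have hJ1 : ℵ₀ < #J := lt_of_le_of_ne hJ.inf (Ne.symm hJ0)
  by_cases hcase : ∃ f : J → J, (∀ b, ∃ c, ∀ x, c < x → b < f x) ∧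
      ∀ g : J → J, {x | ∀ i, i < f x → g i < f x} ∈ q
  · obtain ⟨f, hf, hC⟩ := hcase
    refine comb_a hJ _ hBd _ f ?_ hC
    intro b
    obtain ⟨c, hc⟩ := hf b
    exact Filter.mem_of_superset (htail c) (fun x hx => hc x hx)
  · push Not at hcase
    exact comb_b hJ hJ1 _ hBd _ htail hcase

lemma main_reg {A : Type} (hA : ℵ₀ ≤ #A) (hr : (#A).IsRegular) (p : U A) : Out p := by
  have hcof : (#A).ord.cof = #A := hr.cof_eq
  have hinf : ℵ₀ ≤ (#A).ord.cof := by rw [hcof]; exact hA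
  let J : Type := (#A).ord.cof.ord.ToType
  have hJ : #J = #A := by simp [J, hcof]
  have hreg : Reg J := reg_of_cof _ hinf
  obtain ⟨e⟩ := Cardinal.eq.1 hJ.symm
  have hfib : ∀ b : J, #(e ⁻¹' (Iic b) : Set A) < #A := by
    intro b
    have h0 : #(e ⁻¹' (Iic b) : Set A) = #(Iic b) := Cardinal.mk_congr
      (e.subtypeEquiv (fun a => Iff.rfl))
    exact (h0.trans_lt (hreg.small b)).trans_eq hJ
  have htail : ∀ b, {x | b < x} ∈ p.1.map e := by
    intro b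
    rw [Ultrafilter.mem_map]
    by_contra h
    have h1 := Ultrafilter.compl_mem_iff_notMem.2 h
    have h2 := p.2 _ h1
    have h3 : #((e ⁻¹' {x | b < x})ᶜ : Set A) < #A := by
      refine (mk_le_mk_of_subset ?_).trans_lt (hfib b)
      intro x hx
      have hx' : ¬ b < e x := hx
      exact not_lt.1 hx'
    exact absurd h2 h3.ne
  have hBd : BdP J #A := fun W hW => (allBdd_self hreg).congr (hW.trans_eq hJ.symm)
  obtain ⟨Inv, hI⟩ := comb_all hreg #A hBd _ htail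
  refine out_of p (fun x : Set A × Set J => x.1 ∩ e ⁻¹' x.2)
    (fun x => Inv x.2 ∧ ∀ i, ∃ d ∈ x.2, i < d ∧ e.symm d ∈ x.1)
    (fun x y => BddAbove (x.2 ∩ y.2)) (fun x y h => by rwa [inter_comm]) ?_ ?_ ?_
  · intro x hx
    by_contra hne
    have hlt : #(x.1 ∩ e ⁻¹' x.2 : Set A) < #A := lt_of_le_of_ne (mk_set_le _) hne
    have h1 : #(e '' (x.1 ∩ e ⁻¹' x.2) : Set J) < #J := by
      rw [hJ]
      exact mk_image_le.trans_lt hlt
    obtain ⟨b, hb⟩ := hreg.bdd _ h1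
    obtain ⟨d, hd1, hd2, hd3⟩ := hx.2 b
    refine absurd (hb d ⟨e.symm d, ⟨hd3, ?_⟩, by simp⟩) hd2.not_gt
    change e (e.symm d) ∈ x.2
    rw [e.apply_symm_apply]
    exact hd1
  · rintro x y hx hy ⟨b, hb⟩
    refine (mk_le_mk_of_subset ?_).trans_lt (hfib b)
    rintro a ⟨⟨-, ha1⟩, -, ha2⟩
    exact hb ⟨ha1, ha2⟩
  · intro s hs V hV hval hpair
    have hes : {d : J | e.symm d ∈ s} ∈ p.1.map e := by
      rw [Ultrafilter.mem_map]
      refine Filter.mem_of_superset hs ?_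
      intro a ha
      change e.symm (e a) ∈ s
      rwa [e.symm_apply_apply]
    obtain ⟨D, hD1, hD2, hD3⟩ := hI (fun i => {d | i < d} ∩ {d | e.symm d ∈ s})
      (fun i => Filter.inter_mem (htail i) hes)
      (fun i j hij x hx => ⟨lt_of_le_of_lt hij hx.1, hx.2⟩)
      (Prod.snd '' V) (mk_image_le.trans hV)
      (by rintro _ ⟨x, hx, rfl⟩; exact (hval x hx).1)
      (by
        rintro _ ⟨x, hx, rfl⟩ _ ⟨y, hy, rfl⟩ hne
        exact hpair x hx y hy (fun h => hne (by rw [h])))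
    refine ⟨(s, D), ⟨hD1, ?_⟩, inter_subset_left, ?_⟩
    · intro i
      obtain ⟨d, hd1, hd2⟩ := hD2 i
      exact ⟨d, hd1, hd2.1, hd2.2⟩
    · intro y hy
      exact hD3 y.2 ⟨y, hy, rfl⟩

/-- at most successor-many members of a uniform ultrafilter have an almost disjoint refinement -/
lemma out_all {A : Type} (hA : ℵ₀ ≤ #A) (p : U A) : Out p := by
  by_cases hr : (#A).IsRegular
  · exact main_reg hA hr p
  · exact main hA hr p

lemma gamma_point {A : Type} (hA : ℵ₀ ≤ #A) (p : U A) (F : Set (Set A))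
    (hF1 : ∀ s ∈ F, #s = #A) (hF2 : F.Pairwise (fun s t => #(s ∩ t : Set A) < #A))
    (𝒲 : Set (Set (U A))) (hW0 : #𝒲 ≤ Order.succ #A) (hW1 : ∀ W ∈ 𝒲, W ∈ nhds p)
    (hW2 : ∀ V ∈ nhds p, ∃ W ∈ 𝒲, W ⊆ V) :
    ∃ O : F → Set (U A), (∀ i, IsOpen (O i)) ∧ Pairwise (Function.onFun Disjoint O) ∧
      ∀ i, p ∈ frontier (O i) := by
  classical
  have basic : ∀ s : Set A, IsOpen {u : U A | s ∈ u.1} := fun s =>
    (ultrafilter_isOpen_basic s).preimage continuous_subtype_val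
  -- members of p inside the given neighbourhoods
  have hG : ∀ W : 𝒲, ∃ G : Set A, G ∈ p.1 ∧ ∀ u : U A, G ∈ u.1 → u ∈ W.1 := by
    intro W
    obtain ⟨O, hOW, hO, hpO⟩ := mem_nhds_iff.1 (hW1 W.1 W.2)
    obtain ⟨V, hV, rfl⟩ := isOpen_induced_iff.1 hO
    obtain ⟨_, ⟨s, rfl⟩, hpW, hWV⟩ := ultrafilterBasis_is_basis.exists_subset_of_mem_open hpO hV
    exact ⟨s, hpW, fun u hu => hOW (hWV hu)⟩
  choose G hGp hGW using hG
  have hT : #(𝒲 × Bool) ≤ Order.succ #A := by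
    have h3 : ℵ₀ ≤ Order.succ #A := hA.trans (Order.le_succ _)
    rw [mk_prod, lift_id, lift_id]
    refine (mul_le_mul' hW0 (?_ : #Bool ≤ Order.succ #A)).trans (mul_eq_self h3).le
    simpa using (Cardinal.nat_lt_aleph0 2).le.trans h3
  obtain ⟨B, hB1, hB2, hB3⟩ := out_all hA p (𝒲 × Bool) (fun t => G t.1) hT (fun t => hGp t.1)
  -- copies of F on the sets B
  have hφ : ∀ t, Nonempty (A ≃ B t) := fun t => Cardinal.eq.1 (hB2 t).symm
  let φ : ∀ t, A ≃ B t := fun t => (hφ t).some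
  let C : 𝒲 × Bool → Set A → Set A := fun t f => (fun a => (φ t a : A)) '' f
  have hinj : ∀ t, Function.Injective (fun a => (φ t a : A)) := fun t =>
    Subtype.val_injective.comp (φ t).injective
  have hCB : ∀ t f, C t f ⊆ B t := by
    rintro t f _ ⟨a, -, rfl⟩
    exact (φ t a).2
  have hCc : ∀ t, ∀ f ∈ F, #(C t f) = #A := fun t f hf => by
    rw [← hF1 f hf]
    exact mk_image_eq (hinj t)
  have hCC : ∀ t t' f f', (t, f) ≠ (t', f') → f ∈ F → f' ∈ F → #(C t f ∩ C t' f' : Set A) < #A := by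
    intro t t' f f' hne hf hf'
    by_cases htt : t = t'
    · subst htt
      have hff : f ≠ f' := fun h => hne (by rw [h])
      have h1 : C t f ∩ C t f' = C t (f ∩ f') := (image_inter (hinj t)).symm
      rw [h1]
      exact mk_image_le.trans_lt (hF2 hf hf' hff)
    · exact (mk_le_mk_of_subset (inter_subset_inter (hCB t f) (hCB t' f'))).trans_lt (hB3 t t' htt)
  -- open sets
  let O : Bool → Set A → Set (U A) := fun b f => ⋃ W : 𝒲, {u : U A | C (W, b) f ∈ u.1}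
  have hO : ∀ b f, IsOpen (O b f) := fun b f => isOpen_iUnion (fun W => basic _)
  have hdis : ∀ b b' f f', (b, f) ≠ (b', f') → f ∈ F → f' ∈ F → Disjoint (O b f) (O b' f') := by
    intro b b' f f' hne hf hf'
    rw [Set.disjoint_left]
    rintro u hu hu'
    obtain ⟨W, hs⟩ := mem_iUnion.1 hu
    obtain ⟨W', hs'⟩ := mem_iUnion.1 hu'
    have h1 : C (W, b) f ∩ C (W', b') f' ∈ u.1 := Filter.inter_mem hs hs'
    have h2 := u.2 _ h1
    have h3 := hCC (W, b) (W', b') f f' (fun h => hne (by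
      have h4 := congrArg Prod.fst h
      have h5 := congrArg Prod.snd h
      have h6 := congrArg Prod.snd h4
      simp only at h5 h6
      rw [h5, h6])) hf hf'
    rw [h2] at h3
    exact lt_irrefl _ h3
  have hcl : ∀ b, ∀ f ∈ F, p ∈ closure (O b f) := by
    intro b f hf
    rw [mem_closure_iff_nhds]
    intro V hV
    obtain ⟨W, hW, hWV⟩ := hW2 V hV
    obtain ⟨u, hu⟩ := exists_uniform hA (C (⟨W, hW⟩, b) f) (hCc _ f hf)
    refine ⟨u, hWV (hGW ⟨W, hW⟩ u ?_), mem_iUnion.2 ⟨⟨W, hW⟩, hu⟩⟩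
    exact Filter.mem_of_superset hu ((hCB _ f).trans (hB1 (⟨W, hW⟩, b)))
  refine ⟨fun f => O true f.1, fun f => hO _ _, ?_, ?_⟩
  · intro f f' hne
    exact hdis true true f.1 f'.1 (fun h => hne (Subtype.ext (congrArg Prod.snd h))) f.2 f'.2
  · intro f
    rw [(hO true f.1).frontier_eq]
    refine ⟨hcl true f.1 f.2, fun hp => ?_⟩
    obtain ⟨u, hu1, hu2⟩ := mem_closure_iff.1 (hcl false f.1 f.2) (O true f.1) (hO _ _) hp
    exact Set.disjoint_left.1 (hdis true false f.1 f.1 (fun h => by simp at h) f.2 f.2) hu1 hu2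

end Pool.Agent.Helper292.UG
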